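import Pool.Agent.MP_6bb8b9_an.H2.Pot

/-!
The abstract setting of the testing estimate: levels, depths, ancestors and the decay of layers.
-/

open MeasureTheory Set

namespace Pool.Agent.MP_6bb8b9_an.H2

open Classical in
/-- The data and hypotheses of the abstract testing estimate. -/
structure Setup (α ι κ : Type*) [MeasurableSpace α] (p q η : ℝ) where
  μ : Measure α
  ν : Measure α
  w : κ → Measure α
  I : Finset κ
  S : Finset ι
  Q : ι → Set α
  b : ι → ℝ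
  Γ : ℝ
  fμ : IsFiniteMeasure μ
  fν : IsFiniteMeasure ν
  fw : ∀ φ, IsFiniteMeasure (w φ)
  meas : ∀ i, MeasurableSet (Q i)
  mpos : ∀ i ∈ S, 0 < μ.real (Q i)
  upos : ∀ i ∈ S, 0 < (∑ φ ∈ I, w φ).real (Q i)
  lam : ∀ i ∈ S, ∀ j ∈ S, i ≠ j → Disjoint (Q i) (Q j) ∨ Q i ⊂ Q j ∨ Q j ⊂ Q i
  carl : ∀ j ∈ S, η * ∑ i ∈ S with Q i ⊆ Q j, μ.real (Q i) ≤ μ.real (Q j)
  b_nonneg : ∀ i, 0 ≤ b i
  Γ_nonneg : 0 ≤ Γ
  emb : ∑ i ∈ S, b i * μ.real (Q i) ≤ Γ ^ q * (∑ φ ∈ I, w φ).real univ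
  cmp : ∀ i ∈ S, ∀ j ∈ S, ∀ G ⊆ I, ∀ Λ : ℝ, 1 ≤ Λ →
    (∀ φ ∈ G, (w φ).real (Q i) / μ.real (Q i) ≤ Λ * ((w φ).real (Q j) / μ.real (Q j))) →
    (∑ φ ∈ G, (w φ).real (Q i) / μ.real (Q i)) ^ q * (ν.real (Q i) / μ.real (Q i)) ≤ Λ ^ q * b j
  lor : ∀ i ∈ S, (∑ φ ∈ I, ((w φ).real (Q i) / μ.real (Q i)) ^ (1 / p)) *
    (ν.real (Q i) / μ.real (Q i)) ^ (1 / q) ≤ Γ

namespace Setup

variable {α ι κ : Type*} [MeasurableSpace α] {p q η : ℝ} (D : Setup α ι κ p q η)

instance : IsFiniteMeasure D.μ := D.fμ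
instance : IsFiniteMeasure D.ν := D.fν
instance (φ : κ) : IsFiniteMeasure (D.w φ) := D.fw φ

/-- The total weight measure. -/
noncomputable def W : Measure α := ∑ φ ∈ D.I, D.w φ

instance : IsFiniteMeasure D.W := by unfold W; infer_instance

lemma W_real (A : Set α) : D.W.real A = ∑ φ ∈ D.I, (D.w φ).real A := by
  unfold W
  simp only [Measure.real, Measure.coe_finsetSum, Finset.sum_apply]
  rw [ENNReal.toReal_sum fun φ _ => measure_ne_top _ _]

lemma w_le_W {φ : κ} (hφ : φ ∈ D.I) (A : Set α) : (D.w φ).real A ≤ D.W.real A := by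
  rw [W_real]
  exact Finset.single_le_sum (f := fun φ => (D.w φ).real A) (fun _ _ => measureReal_nonneg) hφ

/-- Average of the weight. -/
noncomputable def av (i : ι) : ℝ := D.W.real (D.Q i) / D.μ.real (D.Q i)

/-- Level of the average. -/
noncomputable def d (i : ι) : ℤ := Int.log 2 (D.av i)

open Classical in
/-- Depth among the sets of the same level. -/
noncomputable def k (i : ι) : ℕ := (D.S.filter fun j => D.Q i ⊆ D.Q j ∧ D.d j = D.d i).card

/-- The term of the testing sum. -/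
noncomputable def a (i : ι) : ℝ := D.av i ^ q * D.ν.real (D.Q i)

variable {D}

lemma W_pos {i : ι} (hi : i ∈ D.S) : 0 < D.W.real (D.Q i) := D.upos i hi

lemma av_pos {i : ι} (hi : i ∈ D.S) : 0 < D.av i := div_pos (W_pos hi) (D.mpos i hi)

lemma av_nonneg (i : ι) : 0 ≤ D.av i := div_nonneg measureReal_nonneg measureReal_nonneg

lemma a_nonneg (i : ι) : 0 ≤ D.a i :=
  mul_nonneg (Real.rpow_nonneg (av_nonneg i) _) measureReal_nonneg

lemma zpow_d_le {i : ι} (hi : i ∈ D.S) : (2 : ℝ) ^ D.d i ≤ D.av i := by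
  exact_mod_cast Int.zpow_log_le_self (b := 2) (by norm_num) (av_pos hi)

lemma av_lt (i : ι) : D.av i < 2 * (2 : ℝ) ^ D.d i := by
  have := Int.lt_zpow_succ_log_self (b := 2) (by norm_num) (D.av i)
  rw [zpow_add_one₀ (by norm_num)] at this
  push_cast at this
  unfold d; linarith

lemma av_le_two_mul {i j : ι} (hj : j ∈ D.S) (h : D.d i = D.d j) : D.av i ≤ 2 * D.av j := by
  have h1 := av_lt (D := D) i
  have h2 := zpow_d_le hj
  rw [h] at h1; linarith

lemma W_eq {i : ι} (hi : i ∈ D.S) : D.W.real (D.Q i) = D.av i * D.μ.real (D.Q i) := by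
  unfold av; field_simp [(D.mpos i hi).ne']

lemma Q_nonempty {i : ι} (hi : i ∈ D.S) : (D.Q i).Nonempty := by
  rcases (D.Q i).eq_empty_or_nonempty with h | h
  · have := D.mpos i hi; rw [h] at this; simp at this
  · exact h

lemma eq_of_Q_eq {i j : ι} (hi : i ∈ D.S) (hj : j ∈ D.S) (h : D.Q i = D.Q j) : i = j := by
  by_contra hne
  rcases D.lam i hi j hj hne with h1 | h1 | h1
  · rw [h, disjoint_self] at h1
    exact (Q_nonempty hj).ne_empty h1
  · rw [h] at h1; exact h1.ne rfl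
  · rw [h] at h1; exact h1.ne rfl

/-- Two sets of the family that meet are nested. -/
lemma nested {i j : ι} (hi : i ∈ D.S) (hj : j ∈ D.S) (h : ¬ Disjoint (D.Q i) (D.Q j)) :
    i = j ∨ D.Q i ⊂ D.Q j ∨ D.Q j ⊂ D.Q i := by
  by_cases hne : i = j
  · exact Or.inl hne
  · rcases D.lam i hi j hj hne with h1 | h1
    · exact absurd h1 h
    · exact Or.inr h1

lemma not_disjoint_of_subset {i j l : ι} (hl : l ∈ D.S) (h1 : D.Q l ⊆ D.Q i)
    (h2 : D.Q l ⊆ D.Q j) : ¬ Disjoint (D.Q i) (D.Q j) := fun h =>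
  (Q_nonempty hl).ne_empty (subset_eq_empty (subset_inter h1 h2) h.inter_eq)

lemma k_lt {i j : ι} (hi : i ∈ D.S) (hd : D.d i = D.d j) (h : D.Q i ⊂ D.Q j) :
    D.k j < D.k i := by
  classical
  unfold k
  refine Finset.card_lt_card ⟨fun l hl => ?_, fun hsub => ?_⟩
  · simp only [Finset.mem_filter] at hl ⊢
    exact ⟨hl.1, h.1.trans hl.2.1, hl.2.2.trans hd.symm⟩
  · have : i ∈ D.S.filter fun l => D.Q i ⊆ D.Q l ∧ D.d l = D.d i := by simp [hi]
    have := (Finset.mem_filter.1 (hsub this)).2.1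
    exact h.2 this

lemma one_le_k {i : ι} (hi : i ∈ D.S) : 1 ≤ D.k i := by
  classical
  unfold k
  exact Finset.card_pos.2 ⟨i, by simp [hi]⟩

lemma disjoint_of_k_eq {i j : ι} (hi : i ∈ D.S) (hj : j ∈ D.S) (hne : i ≠ j)
    (hd : D.d i = D.d j) (hk : D.k i = D.k j) : Disjoint (D.Q i) (D.Q j) := by
  rcases D.lam i hi j hj hne with h1 | h1 | h1
  · exact h1
  · exact absurd hk (k_lt hi hd h1).ne'
  · exact absurd hk (k_lt hj hd.symm h1).ne

/-- Among sets of the same level that meet, the deeper one is the smaller one. -/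
lemma subset_of_k_le {i j : ι} (hi : i ∈ D.S) (hj : j ∈ D.S) (hd : D.d i = D.d j)
    (hk : D.k j ≤ D.k i) (h : ¬ Disjoint (D.Q i) (D.Q j)) : D.Q i ⊆ D.Q j := by
  rcases nested hi hj h with rfl | h1 | h1
  · exact subset_rfl
  · exact h1.1
  · exact absurd (k_lt hj hd.symm h1) (not_lt.2 hk)

lemma exists_anc {i : ι} (hi : i ∈ D.S) {k' : ℕ} (h1 : 1 ≤ k') (h2 : k' ≤ D.k i) :
    ∃ j ∈ D.S, D.Q i ⊆ D.Q j ∧ D.d j = D.d i ∧ D.k j = k' := by
  classical
  set A := D.S.filter fun j => D.Q i ⊆ D.Q j ∧ D.d j = D.d i with hA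
  have hinj : Set.InjOn D.k (A : Set ι) := by
    intro j hj l hl hjl
    simp only [hA, Finset.coe_filter, mem_ofPred_eq] at hj hl
    by_contra hne
    exact not_disjoint_of_subset hi hj.2.1 hl.2.1
      (disjoint_of_k_eq hj.1 hl.1 hne (hj.2.2.trans hl.2.2.symm) hjl)
  have hsub : A.image D.k ⊆ Finset.Icc 1 (D.k i) := by
    intro m hm
    obtain ⟨j, hj, rfl⟩ := Finset.mem_image.1 hm
    simp only [hA, Finset.mem_filter] at hj
    refine Finset.mem_Icc.2 ⟨one_le_k hj.1, ?_⟩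
    rcases hj.2.1.eq_or_ssubset with h | h
    · rw [eq_of_Q_eq hi hj.1 h]
    · exact (k_lt hi hj.2.2.symm h).le
  have hcard : (Finset.Icc 1 (D.k i)).card ≤ (A.image D.k).card := by
    rw [Finset.card_image_of_injOn hinj, Nat.card_Icc]
    simp only [add_tsub_cancel_right]
    unfold k; convert le_rfl
  have heq := Finset.eq_of_subset_of_card_le hsub hcard
  have : k' ∈ A.image D.k := by rw [heq]; exact Finset.mem_Icc.2 ⟨h1, h2⟩
  obtain ⟨j, hj, hjk⟩ := Finset.mem_image.1 this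
  simp only [hA, Finset.mem_filter] at hj
  exact ⟨j, hj.1, hj.2.1, hj.2.2, hjk⟩

open Classical in
/-- The layer of relative depth `r` below `j`. -/
noncomputable def layer (D : Setup α ι κ p q η) (j : ι) (r : ℕ) : Finset ι :=
  D.S.filter fun i => D.Q i ⊆ D.Q j ∧ D.d i = D.d j ∧ D.k i = D.k j + r

lemma mem_layer {i j : ι} {r : ℕ} : i ∈ D.layer j r ↔
    i ∈ D.S ∧ D.Q i ⊆ D.Q j ∧ D.d i = D.d j ∧ D.k i = D.k j + r := by
  classical
  simp [layer]

lemma layer_disjoint (j : ι) (r : ℕ) : (D.layer j r : Set ι).PairwiseDisjoint D.Q := by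
  intro i hi l hl hne
  have hi' := mem_layer.1 hi
  have hl' := mem_layer.1 hl
  exact disjoint_of_k_eq hi'.1 hl'.1 hne (hi'.2.2.1.trans hl'.2.2.1.symm)
    (hi'.2.2.2.trans hl'.2.2.2.symm)

open Classical in
lemma tail_le (hη0 : 0 < η) (hη1 : η ≤ 1) {j : ι} (hj : j ∈ D.S) (r : ℕ) :
    η * ∑ i ∈ D.S with (D.Q i ⊆ D.Q j ∧ D.d i = D.d j ∧ D.k j + r ≤ D.k i), D.μ.real (D.Q i)
      ≤ (1 - η) ^ r * D.μ.real (D.Q j) := by
  induction r with
  | zero =>
    simp only [pow_zero, one_mul]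
    refine le_trans ?_ (D.carl j hj)
    gcongr with i
    exact fun h => h.1
  | succ r ih =>
    set T := D.S.filter fun i => D.Q i ⊆ D.Q j ∧ D.d i = D.d j ∧ D.k j + r ≤ D.k i with hT
    have hsplit : ∑ i ∈ T, D.μ.real (D.Q i) = ∑ i ∈ D.layer j r, D.μ.real (D.Q i) +
        ∑ i ∈ D.S with (D.Q i ⊆ D.Q j ∧ D.d i = D.d j ∧ D.k j + (r + 1) ≤ D.k i),
          D.μ.real (D.Q i) := by
      rw [← Finset.sum_filter_add_sum_filter_not T (fun i => D.k i = D.k j + r)]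
      congr 1
      · refine Finset.sum_congr ?_ fun _ _ => rfl
        ext i; simp only [hT, Finset.mem_filter, mem_layer]
        constructor
        · rintro ⟨⟨h1, h2, h3, _⟩, h5⟩; exact ⟨h1, h2, h3, h5⟩
        · rintro ⟨h1, h2, h3, h4⟩; exact ⟨⟨h1, h2, h3, h4.ge⟩, h4⟩
      · refine Finset.sum_congr ?_ fun _ _ => rfl
        ext i; simp only [hT, Finset.mem_filter]
        constructor
        · rintro ⟨⟨h1, h2, h3, h4⟩, h5⟩; exact ⟨h1, h2, h3, by omega⟩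
        · rintro ⟨h1, h2, h3, h4⟩; exact ⟨⟨h1, h2, h3, by omega⟩, by omega⟩
    have hcov : η * ∑ i ∈ T, D.μ.real (D.Q i) ≤ ∑ i ∈ D.layer j r, D.μ.real (D.Q i) := by
      have h1 := sum_le_sum_cover T (D.layer j r) (fun i l => D.Q i ⊆ D.Q l)
        (fun i => D.μ.real (D.Q i)) (fun _ _ => measureReal_nonneg) (by
          intro i hi
          simp only [hT, Finset.mem_filter] at hi
          obtain ⟨l, hl, h1, h2, h3⟩ := exists_anc hi.1 (k' := D.k j + r)
            (by have := one_le_k hj; omega) hi.2.2.2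
          refine ⟨l, mem_layer.2 ⟨hl, ?_, h2.trans hi.2.2.1, h3⟩, h1⟩
          exact subset_of_k_le hl hj (h2.trans hi.2.2.1) (by omega)
            (not_disjoint_of_subset hi.1 h1 hi.2.1))
      refine (mul_le_mul_of_nonneg_left h1 hη0.le).trans ?_
      rw [Finset.mul_sum]
      refine Finset.sum_le_sum fun l hl => le_trans ?_ (D.carl l (mem_layer.1 hl).1)
      gcongr
      exact Finset.filter_subset _ _
    have h1η : 0 ≤ 1 - η := by linarith
    have hT0 : 0 ≤ ∑ i ∈ T, D.μ.real (D.Q i) := Finset.sum_nonneg fun _ _ => measureReal_nonneg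
    calc η * ∑ i ∈ D.S with (D.Q i ⊆ D.Q j ∧ D.d i = D.d j ∧ D.k j + (r + 1) ≤ D.k i),
          D.μ.real (D.Q i) ≤ η * ((1 - η) * ∑ i ∈ T, D.μ.real (D.Q i)) := by
          gcongr; linarith
      _ = (1 - η) * (η * ∑ i ∈ T, D.μ.real (D.Q i)) := by ring
      _ ≤ (1 - η) * ((1 - η) ^ r * D.μ.real (D.Q j)) := by gcongr
      _ = _ := by ring

lemma layer_le (hη0 : 0 < η) (hη1 : η ≤ 1) {j : ι} (hj : j ∈ D.S) (r : ℕ) :
    ∑ i ∈ D.layer j r, D.μ.real (D.Q i) ≤ η⁻¹ * (1 - η) ^ r * D.μ.real (D.Q j) := by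
  classical
  have h := tail_le hη0 hη1 hj r
  rw [mul_assoc, le_inv_mul_iff₀ hη0]
  refine le_trans ?_ h
  gcongr
  intro i hi
  have := mem_layer.1 hi
  simp only [Finset.mem_filter]
  exact ⟨this.1, this.2.1, this.2.2.1, this.2.2.2.ge⟩

end Setup

end Pool.Agent.MP_6bb8b9_an.H2
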