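import Pool.Agent.MP_6bb8b9_an.H2.Core1

/-!
The three classes of middle sets: a much larger average above (class D), comparable value
distributions (class A), and jumps of the value distribution (class B).
-/

open MeasureTheory Set

namespace Pool.Agent.MP_6bb8b9_an.H2

lemma rpow_sum_le_sum_rpow {κ : Type*} (I : Finset κ) (x : κ → ℝ) (hx : ∀ φ, 0 ≤ x φ) {θ : ℝ}
    (h0 : 0 < θ) (h1 : θ ≤ 1) : (∑ φ ∈ I, x φ) ^ θ ≤ ∑ φ ∈ I, x φ ^ θ := by
  classical
  induction I using Finset.induction_on with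
  | empty => simp [Real.zero_rpow h0.ne']
  | insert φ I hφ ih =>
    rw [Finset.sum_insert hφ, Finset.sum_insert hφ]
    exact (Real.rpow_add_le_add_rpow (hx φ) (Finset.sum_nonneg fun _ _ => hx _) h0.le h1).trans
      (by linarith)

namespace Setup

variable {α ι κ : Type*} [MeasurableSpace α] {p q η : ℝ} {D : Setup α ι κ p q η}

lemma av_eq_sum (i : ι) : D.av i = ∑ φ ∈ D.I, (D.w φ).real (D.Q i) / D.μ.real (D.Q i) := by
  unfold av; rw [W_real, Finset.sum_div]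

lemma a_le_b {i : ι} (hi : i ∈ D.S) : D.a i ≤ D.b i * D.μ.real (D.Q i) := by
  have h := D.cmp i hi i hi D.I subset_rfl 1 le_rfl (fun _ _ => by rw [one_mul])
  rw [← av_eq_sum, Real.one_rpow, one_mul, mul_div_assoc', div_le_iff₀ (D.mpos i hi)] at h
  exact h

lemma sum_a_le : ∑ i ∈ D.S, D.a i ≤ D.Γ ^ q * D.W.real univ :=
  (Finset.sum_le_sum fun _ hi => a_le_b hi).trans D.emb

/-- The size of the product of the two averages. -/
noncomputable def s (D : Setup α ι κ p q η) (i : ι) : ℝ :=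
  D.av i ^ (1 / p) * (D.ν.real (D.Q i) / D.μ.real (D.Q i)) ^ (1 / q)

lemma s_nonneg (i : ι) : 0 ≤ D.s i := by
  unfold s
  have := av_nonneg (D := D) i
  positivity

lemma s_le (hpq : p.HolderConjugate q) {i : ι} (hi : i ∈ D.S) : D.s i ≤ D.Γ := by
  refine le_trans ?_ (D.lor i hi)
  unfold s
  gcongr
  rw [av_eq_sum]
  exact rpow_sum_le_sum_rpow _ _ (fun _ => by positivity) hpq.one_div_pos
    ((div_le_one hpq.pos).2 hpq.lt.le)

lemma a_eq (hpq : p.HolderConjugate q) {i : ι} (hi : i ∈ D.S) :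
    D.a i = D.s i ^ q * D.W.real (D.Q i) := by
  have hav := av_pos hi
  have hm := D.mpos i hi
  have hq := hpq.symm.pos
  unfold a s
  rw [W_eq hi, Real.mul_rpow (by positivity) (by positivity), ← Real.rpow_mul hav.le,
    ← Real.rpow_mul (by positivity), one_div_mul_cancel hq.ne', Real.rpow_one]
  have : D.av i ^ q = D.av i ^ (1 / p * q) * D.av i := by
    rw [← Real.rpow_add_one hav.ne']
    congr 1
    have := hpq.symm.div_conj_eq_sub_one
    rw [one_div, inv_mul_eq_div, this]; ring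
  rw [this]; field_simp

lemma pot_sum_le {i : ι} (hi : i ∈ D.S) :
    (∑ φ ∈ D.I, pot (D.w φ) D.W (1 / p) (D.Q i)) * D.s i ≤ D.Γ * D.W.real (D.Q i) := by
  have hav := av_pos hi
  have hm := D.mpos i hi
  have hW := W_pos hi
  have h := D.lor i hi
  have e1 : ∀ φ, pot (D.w φ) D.W (1 / p) (D.Q i) =
      ((D.w φ).real (D.Q i) / D.μ.real (D.Q i)) ^ (1 / p) *
        (D.μ.real (D.Q i) ^ (1 / p) * D.W.real (D.Q i) ^ (1 - 1 / p)) := by
    intro φ
    unfold pot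
    rw [Real.div_rpow measureReal_nonneg hm.le]
    field_simp
  simp_rw [e1]
  rw [← Finset.sum_mul]
  unfold s
  have e2 : D.μ.real (D.Q i) ^ (1 / p) * D.W.real (D.Q i) ^ (1 - 1 / p) * D.av i ^ (1 / p) =
      D.W.real (D.Q i) := by
    rw [mul_right_comm, ← Real.mul_rpow hm.le hav.le, mul_comm (D.μ.real _), ← W_eq hi,
      ← Real.rpow_add hW]
    simp
  calc (∑ φ ∈ D.I, ((D.w φ).real (D.Q i) / D.μ.real (D.Q i)) ^ (1 / p)) *
        (D.μ.real (D.Q i) ^ (1 / p) * D.W.real (D.Q i) ^ (1 - 1 / p)) *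
        (D.av i ^ (1 / p) * (D.ν.real (D.Q i) / D.μ.real (D.Q i)) ^ (1 / q))
      = ((∑ φ ∈ D.I, ((D.w φ).real (D.Q i) / D.μ.real (D.Q i)) ^ (1 / p)) *
          (D.ν.real (D.Q i) / D.μ.real (D.Q i)) ^ (1 / q)) *
        (D.μ.real (D.Q i) ^ (1 / p) * D.W.real (D.Q i) ^ (1 - 1 / p) * D.av i ^ (1 / p)) := by ring
    _ ≤ D.Γ * D.W.real (D.Q i) := by rw [e2]; gcongr

lemma layer_a_le₁ (hq : 0 ≤ q) {j : ι} (hj : j ∈ D.S) (r : ℕ) :
    ∑ i ∈ D.layer j r, D.a i ≤ 2 ^ q * D.a j := by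
  have h1 : ∀ i ∈ D.layer j r, D.a i ≤ (2 * D.av j) ^ q * D.ν.real (D.Q i) := by
    intro i hi
    unfold a
    have := av_nonneg (D := D) i
    gcongr
    exact av_le_two_mul hj (mem_layer.1 hi).2.2.1
  refine (Finset.sum_le_sum h1).trans ?_
  rw [← Finset.mul_sum, Real.mul_rpow (by norm_num) (av_nonneg j)]
  unfold a
  rw [mul_assoc]
  have := av_nonneg (D := D) j
  gcongr
  exact sum_real_le_of_disjoint D.ν _ D.Q D.meas (layer_disjoint j r)
    fun i hi => (mem_layer.1 hi).2.1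

lemma layer_a_le₂ (hpq : p.HolderConjugate q) (hη0 : 0 < η) (hη1 : η ≤ 1) {j : ι} (hj : j ∈ D.S)
    (r : ℕ) :
    ∑ i ∈ D.layer j r, D.a i ≤ D.Γ ^ q * (2 * (η⁻¹ * (1 - η) ^ r)) * D.W.real (D.Q j) := by
  have hΓ := D.Γ_nonneg
  have h1 : ∀ i ∈ D.layer j r, D.a i ≤ D.Γ ^ q * (2 * D.av j) * D.μ.real (D.Q i) := by
    intro i hi
    have hi' := mem_layer.1 hi
    rw [a_eq hpq hi'.1, W_eq hi'.1, mul_assoc]
    have := s_nonneg (D := D) i
    have := av_nonneg (D := D) i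
    have := hpq.symm.nonneg
    gcongr
    · exact s_le hpq hi'.1
    · exact av_le_two_mul hj hi'.2.2.1
  refine (Finset.sum_le_sum h1).trans ?_
  rw [← Finset.mul_sum, W_eq hj]
  have := av_nonneg (D := D) j
  calc D.Γ ^ q * (2 * D.av j) * ∑ i ∈ D.layer j r, D.μ.real (D.Q i)
      ≤ D.Γ ^ q * (2 * D.av j) * (η⁻¹ * (1 - η) ^ r * D.μ.real (D.Q j)) := by
        gcongr; exact layer_le hη0 hη1 hj r
    _ = _ := by ring

/-- Class D: some larger set of the family has a much larger average. -/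
def isD (D : Setup α ι κ p q η) (e : ℕ) (i : ι) : Prop :=
  ∃ j ∈ D.S, D.Q i ⊆ D.Q j ∧ D.d i + e ≤ D.d j

lemma sumD_le (hq : 1 ≤ q) (e k' : ℕ) (F : Finset ι) (hF : ∀ i ∈ F, i ∈ D.S ∧ D.k i = k' ∧ D.isD e i) :
    ∑ i ∈ F, D.a i ≤ 2 * 2 ^ q * (1 / 2) ^ e * (D.Γ ^ q * D.W.real univ) := by
  classical
  have h1 := sum_le_sum_cover F D.S (fun i j => D.Q i ⊆ D.Q j ∧ D.d i + e ≤ D.d j) D.a
    (fun i _ => a_nonneg i) (fun i hi => (hF i hi).2.2)
  refine h1.trans (le_trans ?_ (mul_le_mul_of_nonneg_left sum_a_le (by positivity)))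
  rw [Finset.mul_sum]
  refine Finset.sum_le_sum fun j hj => ?_
  set G := F.filter fun i => D.Q i ⊆ D.Q j ∧ D.d i + e ≤ D.d j with hG
  have hGm : ∀ i ∈ G, i ∈ F ∧ D.Q i ⊆ D.Q j ∧ D.d i + e ≤ D.d j := fun i hi => by
    simpa [hG] using hi
  set y : ℝ := D.av j * (1 / 2) ^ e with hy
  have hav := av_pos hj
  have hy0 : 0 < y := by positivity
  have hdy : ∀ d' ∈ G.image D.d, (2 : ℝ) ^ d' ≤ y := by
    intro d' hd'
    obtain ⟨i, hi, rfl⟩ := Finset.mem_image.1 hd'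
    have h2 : (2 : ℝ) ^ (D.d i + e) ≤ 2 ^ D.d j := zpow_le_zpow_right₀ (by norm_num) (hGm i hi).2.2
    rw [zpow_add₀ (by norm_num), zpow_natCast] at h2
    rw [hy, one_div, inv_pow, ← div_eq_mul_inv, le_div_iff₀ (by positivity)]
    exact h2.trans (zpow_d_le hj)
  have h2 := sum_le_sum_cover G (G.image D.d) (fun i d' => D.d i = d') D.a
    (fun i _ => a_nonneg i) (fun i hi => ⟨_, Finset.mem_image_of_mem _ hi, rfl⟩)
  have h3 : ∀ d' ∈ G.image D.d, ∑ i ∈ G with D.d i = d', D.a i ≤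
      ((2 * y) ^ (q - 1) * 2 * D.ν.real (D.Q j)) * 2 ^ d' := by
    intro d' hd'
    have hb : ∀ i ∈ G.filter (fun i => D.d i = d'),
        D.a i ≤ ((2 * y) ^ (q - 1) * (2 * 2 ^ d')) * D.ν.real (D.Q i) := by
      intro i hi
      obtain ⟨hi1, hi2⟩ := Finset.mem_filter.1 hi
      unfold a
      gcongr
      have h4 : D.av i ≤ 2 * 2 ^ d' := hi2 ▸ (av_lt i).le
      have h5 := av_pos (hF i (hGm i hi1).1).1
      calc D.av i ^ q = D.av i ^ (q - 1) * D.av i := by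
            rw [← Real.rpow_add_one h5.ne']; simp
        _ ≤ (2 * y) ^ (q - 1) * (2 * 2 ^ d') := by
            gcongr
            linarith [hdy d' hd']
    refine (Finset.sum_le_sum hb).trans ?_
    rw [← Finset.mul_sum]
    have h6 : ∑ i ∈ G with D.d i = d', D.ν.real (D.Q i) ≤ D.ν.real (D.Q j) := by
      refine sum_real_le_of_disjoint D.ν _ D.Q D.meas ?_
        fun i hi => (hGm i (Finset.mem_filter.1 hi).1).2.1
      intro i hi l hl hne
      obtain ⟨hi1, hi2⟩ := Finset.mem_filter.1 hi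
      obtain ⟨hl1, hl2⟩ := Finset.mem_filter.1 hl
      have hi3 := hF i (hGm i hi1).1
      have hl3 := hF l (hGm l hl1).1
      exact disjoint_of_k_eq hi3.1 hl3.1 hne (hi2.trans hl2.symm) (hi3.2.1.trans hl3.2.1.symm)
    calc (2 * y) ^ (q - 1) * (2 * 2 ^ d') * ∑ i ∈ G with D.d i = d', D.ν.real (D.Q i)
        ≤ (2 * y) ^ (q - 1) * (2 * 2 ^ d') * D.ν.real (D.Q j) := by gcongr
      _ = _ := by ring
  refine h2.trans ((Finset.sum_le_sum h3).trans ?_)
  rw [← Finset.mul_sum]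
  have h7 := sum_zpow_le (G.image D.d) hy0.le hdy
  have h8 : (2 * y) ^ (q - 1) * (2 * y) = (2 * y) ^ q := by
    rw [← Real.rpow_add_one (by positivity)]; simp
  have h9 : y ^ q ≤ D.av j ^ q * (1 / 2) ^ e := by
    rw [hy, Real.mul_rpow hav.le (by positivity)]
    gcongr
    have h10 : (0 : ℝ) < (1 / 2) ^ e := by positivity
    calc ((1 / 2 : ℝ) ^ e) ^ q ≤ ((1 / 2 : ℝ) ^ e) ^ (1 : ℝ) :=
          Real.rpow_le_rpow_of_exponent_ge h10 (pow_le_one₀ (by norm_num) (by norm_num)) hq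
      _ = _ := Real.rpow_one _
  calc (2 * y) ^ (q - 1) * 2 * D.ν.real (D.Q j) * ∑ d' ∈ G.image D.d, (2 : ℝ) ^ d'
      ≤ (2 * y) ^ (q - 1) * 2 * D.ν.real (D.Q j) * (2 * y) := by gcongr
    _ = 2 * ((2 * y) ^ (q - 1) * (2 * y)) * D.ν.real (D.Q j) := by ring
    _ = 2 * (2 ^ q * y ^ q) * D.ν.real (D.Q j) := by
        rw [h8, Real.mul_rpow (by norm_num) hy0.le]
    _ ≤ 2 * (2 ^ q * (D.av j ^ q * (1 / 2) ^ e)) * D.ν.real (D.Q j) := by gcongr
    _ = _ := by unfold a; ring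

open Classical in
/-- The largest set of the same level above a given set. -/
noncomputable def top (D : Setup α ι κ p q η) (i : ι) : ι :=
  if h : i ∈ D.S then (exists_anc h le_rfl (one_le_k h)).choose else i

lemma top_spec {i : ι} (hi : i ∈ D.S) :
    D.top i ∈ D.S ∧ D.Q i ⊆ D.Q (D.top i) ∧ D.d (D.top i) = D.d i ∧ D.k (D.top i) = 1 := by
  unfold top; rw [dif_pos hi]; exact (exists_anc hi le_rfl (one_le_k hi)).choose_spec

/-- The share of the value level `φ` jumps by the factor `Λ` from the top set to the set `i`. -/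
def jump (D : Setup α ι κ p q η) (Λ : ℝ) (i : ι) (φ : κ) : Prop :=
  Λ * (D.w φ).real (D.Q (D.top i)) * D.W.real (D.Q i) ≤
    (D.w φ).real (D.Q i) * D.W.real (D.Q (D.top i))

open Classical in
/-- Class A: half of the mass lies on value levels whose share does not jump. -/
def isA (D : Setup α ι κ p q η) (Λ : ℝ) (i : ι) : Prop :=
  D.W.real (D.Q i) / 2 ≤ ∑ φ ∈ D.I with ¬ D.jump Λ i φ, (D.w φ).real (D.Q i)

lemma a_le_of_isA (hq : 0 ≤ q) {Λ : ℝ} (hΛ : 1 ≤ Λ) {i : ι} (hi : i ∈ D.S) (hA : D.isA Λ i) :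
    D.a i ≤ (4 * Λ) ^ q * (D.b (D.top i) * D.μ.real (D.Q i)) := by
  classical
  obtain ⟨ht1, ht2, ht3, -⟩ := top_spec hi
  have hm := D.mpos i hi
  have hmV := D.mpos _ ht1
  have hav := av_pos hi
  have havV := av_pos ht1
  have h := D.cmp i hi _ ht1 (D.I.filter fun φ => ¬ D.jump Λ i φ) (Finset.filter_subset _ _)
    (2 * Λ) (by linarith) (by
      intro φ hφ
      have h1 := (Finset.mem_filter.1 hφ).2
      unfold jump at h1
      rw [not_le, W_eq hi, W_eq ht1] at h1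
      have h2 : D.av i ≤ 2 * D.av (D.top i) := av_le_two_mul ht1 ht3.symm
      have h3 : 0 ≤ (D.w φ).real (D.Q (D.top i)) := measureReal_nonneg
      rw [div_le_iff₀ hm, mul_div_assoc', div_mul_eq_mul_div, le_div_iff₀ hmV]
      have h4 : (D.w φ).real (D.Q i) * D.μ.real (D.Q (D.top i)) * D.av (D.top i) ≤
          2 * Λ * (D.w φ).real (D.Q (D.top i)) * D.μ.real (D.Q i) * D.av (D.top i) := by
        calc _ = (D.w φ).real (D.Q i) * (D.av (D.top i) * D.μ.real (D.Q (D.top i))) := by ring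
          _ ≤ Λ * (D.w φ).real (D.Q (D.top i)) * (D.av i * D.μ.real (D.Q i)) := h1.le
          _ ≤ Λ * (D.w φ).real (D.Q (D.top i)) * (2 * D.av (D.top i) * D.μ.real (D.Q i)) := by
              gcongr
          _ = _ := by ring
      exact le_of_mul_le_mul_right h4 havV)
  rw [← Finset.sum_div, mul_div_assoc', div_le_iff₀ hm] at h
  have h5 : D.av i ≤ 2 * ((∑ φ ∈ D.I with ¬ D.jump Λ i φ, (D.w φ).real (D.Q i)) /
      D.μ.real (D.Q i)) := by
    unfold isA at hA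
    unfold av
    rw [mul_div_assoc']
    gcongr; linarith
  have h6 : 0 ≤ (∑ φ ∈ D.I with ¬ D.jump Λ i φ, (D.w φ).real (D.Q i)) / D.μ.real (D.Q i) :=
    div_nonneg (Finset.sum_nonneg fun _ _ => measureReal_nonneg) hm.le
  calc D.a i ≤ (2 * ((∑ φ ∈ D.I with ¬ D.jump Λ i φ, (D.w φ).real (D.Q i)) /
        D.μ.real (D.Q i))) ^ q * D.ν.real (D.Q i) := by unfold a; gcongr
    _ = 2 ^ q * (((∑ φ ∈ D.I with ¬ D.jump Λ i φ, (D.w φ).real (D.Q i)) /
        D.μ.real (D.Q i)) ^ q * D.ν.real (D.Q i)) := by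
          rw [Real.mul_rpow (by norm_num) h6]; ring
    _ ≤ 2 ^ q * ((2 * Λ) ^ q * D.b (D.top i) * D.μ.real (D.Q i)) := by gcongr
    _ = _ := by
          rw [show 4 * Λ = 2 * (2 * Λ) by ring, Real.mul_rpow (x := 2) (y := 2 * Λ) (by norm_num)
            (by linarith)]
          ring

lemma sumA_le (hq : 0 ≤ q) (hη0 : 0 < η) (hη1 : η ≤ 1) {Λ : ℝ} (hΛ : 1 ≤ Λ) (r : ℕ) (F : Finset ι)
    (hF : ∀ i ∈ F, i ∈ D.S ∧ D.k i = 1 + r ∧ D.isA Λ i) :
    ∑ i ∈ F, D.a i ≤ (4 * Λ) ^ q * (η⁻¹ * (1 - η) ^ r) * (D.Γ ^ q * D.W.real univ) := by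
  classical
  have h1η : 0 ≤ 1 - η := by linarith
  have h1 := sum_le_sum_cover F D.S (fun i j => D.top i = j) D.a
    (fun i _ => a_nonneg i) (fun i hi => ⟨_, (top_spec (hF i hi).1).1, rfl⟩)
  refine h1.trans (le_trans ?_ (mul_le_mul_of_nonneg_left D.emb (by positivity)))
  rw [Finset.mul_sum]
  refine Finset.sum_le_sum fun j hj => ?_
  have hb := D.b_nonneg j
  have h2 : ∀ i ∈ F.filter (fun i => D.top i = j),
      D.a i ≤ (4 * Λ) ^ q * D.b j * D.μ.real (D.Q i) := by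
    intro i hi
    obtain ⟨hi1, hi2⟩ := Finset.mem_filter.1 hi
    have := a_le_of_isA hq hΛ (hF i hi1).1 (hF i hi1).2.2
    rw [hi2] at this; linarith
  refine (Finset.sum_le_sum h2).trans ?_
  rw [← Finset.mul_sum]
  have h3 : ∑ i ∈ F with D.top i = j, D.μ.real (D.Q i) ≤ η⁻¹ * (1 - η) ^ r * D.μ.real (D.Q j) := by
    refine le_trans ?_ (layer_le hη0 hη1 hj r)
    refine Finset.sum_le_sum_of_subset_of_nonneg (fun i hi => ?_) fun _ _ _ => measureReal_nonneg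
    obtain ⟨hi1, hi2⟩ := Finset.mem_filter.1 hi
    obtain ⟨ht1, ht2, ht3, ht4⟩ := top_spec (hF i hi1).1
    rw [hi2] at ht1 ht2 ht3 ht4
    exact mem_layer.2 ⟨(hF i hi1).1, ht2, ht3.symm, by rw [ht4]; exact (hF i hi1).2.1⟩
  calc (4 * Λ) ^ q * D.b j * ∑ i ∈ F with D.top i = j, D.μ.real (D.Q i)
      ≤ (4 * Λ) ^ q * D.b j * (η⁻¹ * (1 - η) ^ r * D.μ.real (D.Q j)) := by gcongr
    _ = _ := by ring

end Setup

end Pool.Agent.MP_6bb8b9_an.H2
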