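import Pool.Agent.MP_6bb8b9_an.H2.Core2

/-!
Class B and the exponential decay of the testing sum in the depth.
-/

open MeasureTheory Set

namespace Pool.Agent.MP_6bb8b9_an.H2

namespace Setup

variable {α ι κ : Type*} [MeasurableSpace α] {p q η : ℝ} {D : Setup α ι κ p q η}

open Classical in
lemma B_local (hp : 1 < p) {Λ : ℝ} (hΛ : 0 < Λ) (hΛθ : Λ ^ (1 / p - 1) ≤ 1 / p / 2) (e k' : ℕ)
    (F : Finset ι) (hF : ∀ i ∈ F, i ∈ D.S ∧ D.k i = k' ∧ ¬ D.isD e i ∧ ¬ D.isA Λ i)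
    (hres : ∀ i ∈ F, ∀ j ∈ F, D.d i < D.d j → D.d i + e ≤ D.d j) {l : ι} (hl : l ∈ D.S) :
    ∑ i ∈ F with D.Q i ⊆ D.Q l, D.W.real (D.Q i) ≤
      D.W.real (D.Q l) + 4 * p * ∑ φ ∈ D.I, pot (D.w φ) D.W (1 / p) (D.Q l) := by
  have hp0 : 0 < p := by linarith
  have h0 : 0 < 1 / p := by positivity
  have h1 : 1 / p < 1 := (div_lt_one hp0).2 hp
  -- the top of a higher level does not contain a set of a lower level
  have key : ∀ i ∈ F, ∀ j ∈ F, D.d i < D.d j → ¬ D.Q i ⊆ D.Q (D.top j) := by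
    intro i hi j hj hd hsub
    obtain ⟨ht1, -, ht3, -⟩ := top_spec (hF j hj).1
    exact (hF i hi).2.2.1 ⟨_, ht1, hsub, ht3 ▸ hres i hi j hj hd⟩
  rw [← Finset.sum_filter_add_sum_filter_not (F.filter fun i => D.Q i ⊆ D.Q l)
    (fun i => D.Q (D.top i) ⊆ D.Q l), add_comm]
  refine add_le_add ?_ ?_
  · refine sum_real_le_of_disjoint D.W _ D.Q D.meas ?_ fun i hi =>
      (Finset.mem_filter.1 (Finset.mem_filter.1 hi).1).2
    have hsup : ∀ i ∈ (F.filter fun i => D.Q i ⊆ D.Q l).filter fun i => ¬ D.Q (D.top i) ⊆ D.Q l,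
        i ∈ F ∧ D.Q i ⊆ D.Q l ∧ D.Q l ⊆ D.Q (D.top i) := by
      intro i hi
      simp only [Finset.mem_filter] at hi
      obtain ⟨ht1, ht2, -, -⟩ := top_spec (hF i hi.1.1).1
      refine ⟨hi.1.1, hi.1.2, ?_⟩
      rcases nested hl ht1 (not_disjoint_of_subset (hF i hi.1.1).1 hi.1.2 ht2) with h | h | h
      · rw [← h]
      · exact h.1
      · exact absurd h.1 hi.2
    intro i hi j hj hne
    obtain ⟨hi1, hi2, hi3⟩ := hsup i hi
    obtain ⟨hj1, hj2, hj3⟩ := hsup j hj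
    have hd : D.d i = D.d j := by
      rcases lt_trichotomy (D.d i) (D.d j) with h | h | h
      · exact absurd (hi2.trans hj3) (key i hi1 j hj1 h)
      · exact h
      · exact absurd (hj2.trans hi3) (key j hj1 i hi1 h)
    exact disjoint_of_k_eq (hF i hi1).1 (hF j hj1).1 hne hd
      ((hF i hi1).2.1.trans (hF j hj1).2.1.symm)
  · set F1 := (F.filter fun i => D.Q i ⊆ D.Q l).filter fun i => D.Q (D.top i) ⊆ D.Q l with hF1
    have hF1m : ∀ i ∈ F1, i ∈ F ∧ D.Q (D.top i) ⊆ D.Q l := by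
      intro i hi; simp only [hF1, Finset.mem_filter] at hi; exact ⟨hi.1.1, hi.2⟩
    have h2 : ∀ i ∈ F1, D.W.real (D.Q i) ≤
        2 * ∑ φ ∈ D.I, if D.jump Λ i φ then (D.w φ).real (D.Q i) else 0 := by
      intro i hi
      have hA := (hF i (hF1m i hi).1).2.2.2
      unfold isA at hA
      rw [not_le] at hA
      have := Finset.sum_filter_add_sum_filter_not D.I (fun φ => D.jump Λ i φ)
        (fun φ => (D.w φ).real (D.Q i))
      rw [← W_real] at this
      rw [← Finset.sum_filter]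
      linarith
    refine (Finset.sum_le_sum h2).trans ?_
    rw [← Finset.mul_sum, Finset.sum_comm, show 4 * p = 2 * (2 * p) by ring, mul_assoc,
      Finset.mul_sum D.I _ (2 * p)]
    gcongr with φ hφ
    have hj := pot_jumps (D.w φ) D.W h0 h1 (D.w_le_W hφ) hΛ hΛθ D.Q (fun i => D.Q (D.top i)) D.d
      D.meas (fun i => D.meas _) (F.filter fun i => D.jump Λ i φ)
      (fun i hi => (top_spec (hF i (Finset.mem_filter.1 hi).1).1).2.1)
      (by
        intro i hi j hj hne hv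
        have hi' := hF i (Finset.mem_filter.1 hi).1
        have hj' := hF j (Finset.mem_filter.1 hj).1
        have ti := top_spec hi'.1
        have tj := top_spec hj'.1
        have := eq_of_Q_eq ti.1 tj.1 hv
        exact disjoint_of_k_eq hi'.1 hj'.1 hne (by rw [← ti.2.2.1, ← tj.2.2.1, this])
          (hi'.2.1.trans hj'.2.1.symm))
      (by
        intro i hi j hj hd hv
        have hi0 := (Finset.mem_filter.1 hi).1
        have hj0 := (Finset.mem_filter.1 hj).1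
        have ti := top_spec (hF i hi0).1
        have tj := top_spec (hF j hj0).1
        have hne : D.top i ≠ D.top j := fun h => hv (by rw [h])
        rcases hd.eq_or_lt with h | h
        · exact Or.inl (disjoint_of_k_eq ti.1 tj.1 hne (by rw [ti.2.2.1, tj.2.2.1, h])
            (ti.2.2.2.trans tj.2.2.2.symm))
        · rcases D.lam _ ti.1 _ tj.1 hne with h3 | h3 | h3
          · exact Or.inl h3
          · exact absurd (ti.2.1.trans h3.1) (key i hi0 j hj0 h)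
          · exact Or.inr h3.1)
      (by
        intro i hi j hj hd hv
        have hi0 := (Finset.mem_filter.1 hi).1
        have hj0 := (Finset.mem_filter.1 hj).1
        have ti := top_spec (hF i hi0).1
        have tj := top_spec (hF j hj0).1
        have hne : D.top i ≠ D.top j := fun h => hv (by rw [h])
        rcases hd.eq_or_lt with h | h
        · exact Or.inl ((disjoint_of_k_eq ti.1 tj.1 hne (by rw [ti.2.2.1, tj.2.2.1, h])
            (ti.2.2.2.trans tj.2.2.2.symm)).mono_left ti.2.1)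
        · by_cases hdis : Disjoint (D.Q i) (D.Q (D.top j))
          · exact Or.inl hdis
          · rcases nested (hF i hi0).1 tj.1 hdis with h3 | h3 | h3
            · exact absurd (by rw [← h3]) (key i hi0 j hj0 h)
            · exact absurd h3.1 (key i hi0 j hj0 h)
            · exact Or.inr h3.1)
      (by
        intro i hi j hj hv
        have ti := top_spec (hF i (Finset.mem_filter.1 hi).1).1
        have tj := top_spec (hF j (Finset.mem_filter.1 hj).1).1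
        rw [← ti.2.2.1, ← tj.2.2.1, eq_of_Q_eq ti.1 tj.1 hv])
      (fun i hi => (Finset.mem_filter.1 hi).2) (D.Q l)
    have h3 : ∑ i ∈ F1, (if D.jump Λ i φ then (D.w φ).real (D.Q i) else 0) ≤
        ∑ i ∈ (F.filter fun i => D.jump Λ i φ) with D.Q (D.top i) ⊆ D.Q l, (D.w φ).real (D.Q i) := by
      rw [← Finset.sum_filter]
      refine Finset.sum_le_sum_of_subset_of_nonneg (fun i hi => ?_) fun _ _ _ => measureReal_nonneg
      obtain ⟨hi1, hi2⟩ := Finset.mem_filter.1 hi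
      simp only [Finset.mem_filter]
      exact ⟨⟨(hF1m i hi1).1, hi2⟩, (hF1m i hi1).2⟩
    refine h3.trans ?_
    have e1 : 1 / p / 2 = (2 * p)⁻¹ := by field_simp
    rw [e1, inv_mul_le_iff₀ (by positivity)] at hj
    exact hj

lemma B_level (hp : 1 < p) {Λ : ℝ} (hΛ : 0 < Λ) (hΛθ : Λ ^ (1 / p - 1) ≤ 1 / p / 2) (e k' : ℕ)
    (he : 0 < e) {t : ℝ} (ht : 0 < t) (F : Finset ι)
    (hF : ∀ i ∈ F, i ∈ D.S ∧ D.k i = k' ∧ ¬ D.isD e i ∧ ¬ D.isA Λ i) (hs : ∀ i ∈ F, t < D.s i) :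
    ∑ i ∈ F, D.W.real (D.Q i) ≤ e * ((1 + 4 * p * (D.Γ / t)) * D.W.real univ) := by
  classical
  have hp0 : 0 < p := by linarith
  have hΓ := D.Γ_nonneg
  set M := D.S.filter fun l => t < D.s l ∧ ∀ j ∈ D.S, t < D.s j → ¬ D.Q l ⊂ D.Q j with hM
  have hMm : ∀ l ∈ M, l ∈ D.S ∧ t < D.s l ∧ ∀ j ∈ D.S, t < D.s j → ¬ D.Q l ⊂ D.Q j :=
    fun l hl => by simpa [hM] using hl
  have hMd : (M : Set ι).PairwiseDisjoint D.Q := by
    intro i hi j hj hne
    rcases D.lam i (hMm i hi).1 j (hMm j hj).1 hne with h | h | h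
    · exact h
    · exact absurd h ((hMm i hi).2.2 j (hMm j hj).1 (hMm j hj).2.1)
    · exact absurd h ((hMm j hj).2.2 i (hMm i hi).1 (hMm i hi).2.1)
  have hcov : ∀ i ∈ F, ∃ l ∈ M, D.Q i ⊆ D.Q l := by
    intro i hi
    obtain ⟨l, hl⟩ := (D.S.filter fun l => t < D.s l ∧ D.Q i ⊆ D.Q l).exists_maximalFor D.Q
      ⟨i, by simp [(hF i hi).1, hs i hi]⟩
    have hl1 := Finset.mem_filter.1 hl.1
    refine ⟨l, Finset.mem_filter.2 ⟨hl1.1, hl1.2.1, fun j hj hjs hlj => hlj.2 ?_⟩, hl1.2.2⟩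
    exact hl.2 (Finset.mem_filter.2 ⟨hj, hjs, hl1.2.2.trans hlj.1⟩) hlj.1
  have hres : ∀ c : ℤ, ∑ i ∈ F with D.d i % e = c, D.W.real (D.Q i) ≤
      (1 + 4 * p * (D.Γ / t)) * D.W.real univ := by
    intro c
    set G := F.filter fun i => D.d i % e = c with hG
    have hGF : ∀ i ∈ G, i ∈ F := fun i hi => (Finset.mem_filter.1 hi).1
    have h1 := sum_le_sum_cover G M (fun i l => D.Q i ⊆ D.Q l) (fun i => D.W.real (D.Q i))
      (fun _ _ => measureReal_nonneg) (fun i hi => hcov i (hGF i hi))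
    refine h1.trans ?_
    have h2 : ∀ l ∈ M, ∑ i ∈ G with D.Q i ⊆ D.Q l, D.W.real (D.Q i) ≤
        (1 + 4 * p * (D.Γ / t)) * D.W.real (D.Q l) := by
      intro l hl
      have h3 := B_local hp hΛ hΛθ e k' G (fun i hi => hF i (hGF i hi)) (by
        intro i hi j hj hd
        have hi' := (Finset.mem_filter.1 hi).2
        have hj' := (Finset.mem_filter.1 hj).2
        have hdvd : (e : ℤ) ∣ D.d j - D.d i := Int.ModEq.dvd (hi'.trans hj'.symm)
        have := Int.le_of_dvd (by omega) hdvd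
        omega) (hMm l hl).1
      refine h3.trans ?_
      have h4 := pot_sum_le (hMm l hl).1
      have h5 : 0 ≤ ∑ φ ∈ D.I, pot (D.w φ) D.W (1 / p) (D.Q l) :=
        Finset.sum_nonneg fun _ _ => pot_nonneg _ _ _
      have h6 : ∑ φ ∈ D.I, pot (D.w φ) D.W (1 / p) (D.Q l) ≤ D.Γ / t * D.W.real (D.Q l) := by
        rw [div_mul_eq_mul_div, le_div_iff₀ ht]
        exact (mul_le_mul_of_nonneg_left (hMm l hl).2.1.le h5).trans h4
      calc _ ≤ D.W.real (D.Q l) + 4 * p * (D.Γ / t * D.W.real (D.Q l)) := by gcongr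
        _ = _ := by ring
    refine (Finset.sum_le_sum h2).trans ?_
    rw [← Finset.mul_sum]
    gcongr
    exact sum_real_le_of_disjoint D.W _ D.Q D.meas hMd fun _ _ => subset_univ _
  have h1 := sum_le_sum_cover F (Finset.Ico (0 : ℤ) e) (fun i c => D.d i % e = c)
    (fun i => D.W.real (D.Q i)) (fun _ _ => measureReal_nonneg) (fun i _ =>
      ⟨_, Finset.mem_Ico.2 ⟨Int.emod_nonneg _ (by omega), Int.emod_lt_of_pos _ (by omega)⟩, rfl⟩)
  refine h1.trans ((Finset.sum_le_sum fun c _ => hres c).trans ?_)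
  simp

lemma sumB_le (hpq : p.HolderConjugate q) (hη0 : 0 < η) (hη1 : η ≤ 1) {Λ : ℝ} (hΛ : 0 < Λ)
    (hΛθ : Λ ^ (1 / p - 1) ≤ 1 / p / 2) {θ : ℝ} (hθ0 : 0 ≤ θ) (hθ1 : θ ≤ 1) (hθq : 1 < q * θ)
    (e k' r : ℕ) (he : 0 < e) (F : Finset ι)
    (hF : ∀ i ∈ F, i ∈ D.S ∧ D.k i = k' ∧ ¬ D.isD e i ∧ ¬ D.isA Λ i) :
    ∑ j ∈ F, ∑ i ∈ D.layer j r, D.a i ≤
      (2 ^ q) ^ θ * (1 + 8 * p) * (1 - 2 * (1 / 2) ^ (q * θ))⁻¹ * e *
        (2 * (η⁻¹ * (1 - η) ^ r)) ^ (1 - θ) * (D.Γ ^ q * D.W.real univ) := by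
  classical
  have hp := hpq.lt
  have hp0 := hpq.pos
  have hq0 := hpq.symm.pos
  have h1η : 0 ≤ 1 - η := by linarith
  set ρ : ℝ := 2 * (1 / 2) ^ (q * θ) with hρ
  have hρ0 : 0 ≤ ρ := by positivity
  have hρ1 : ρ < 1 := by
    have : (1 / 2 : ℝ) ^ (q * θ) < (1 / 2) ^ (1 : ℝ) :=
      Real.rpow_lt_rpow_of_exponent_gt (by norm_num) (by norm_num) hθq
    rw [Real.rpow_one] at this
    linarith
  have h1ρ : 0 < 1 - ρ := by linarith
  set β : ℝ := 2 * (η⁻¹ * (1 - η) ^ r) with hβ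
  have hβ0 : 0 ≤ β := by positivity
  have hU : 0 ≤ D.W.real univ := measureReal_nonneg
  have hc0 : ∀ j, 0 ≤ ∑ i ∈ D.layer j r, D.a i := fun j => Finset.sum_nonneg fun i _ => a_nonneg i
  have hzero : ∀ j ∈ F, D.s j = 0 → ∑ i ∈ D.layer j r, D.a i = 0 := by
    intro j hj hs
    refine le_antisymm ((layer_a_le₁ hq0.le (hF j hj).1 r).trans ?_) (hc0 j)
    rw [a_eq hpq (hF j hj).1, hs, Real.zero_rpow hq0.ne']; simp
  rcases D.Γ_nonneg.eq_or_lt with hΓ | hΓ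
  · rw [Finset.sum_eq_zero]
    · have := D.Γ_nonneg
      positivity
    · intro j hj
      exact hzero j hj (le_antisymm (hΓ ▸ s_le hpq (hF j hj).1) (s_nonneg j))
  set F' := F.filter fun j => 0 < D.s j with hF'
  have hF'F : ∀ j ∈ F', j ∈ F := fun j hj => (Finset.mem_filter.1 hj).1
  have hred : ∑ j ∈ F, ∑ i ∈ D.layer j r, D.a i = ∑ j ∈ F', ∑ i ∈ D.layer j r, D.a i := by
    refine (Finset.sum_subset (Finset.filter_subset _ _) fun j hj hj' => hzero j hj ?_).symm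
    have : ¬ 0 < D.s j := fun h => hj' (Finset.mem_filter.2 ⟨hj, h⟩)
    exact le_antisymm (not_lt.1 this) (s_nonneg j)
  have hex : ∀ j ∈ F', ∃ m : ℕ, (1 / 2 : ℝ) ^ (m + 1) * D.Γ < D.s j ∧
      D.s j ≤ (1 / 2 : ℝ) ^ m * D.Γ := by
    intro j hj
    obtain ⟨m, h1, h2⟩ := exists_nat_pow_near_of_lt_one (x := D.s j / D.Γ) (y := 1 / 2)
      (div_pos (Finset.mem_filter.1 hj).2 hΓ)
      ((div_le_one hΓ).2 (s_le hpq (hF j (hF'F j hj)).1)) (by norm_num) (by norm_num)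
    exact ⟨m, (lt_div_iff₀ hΓ).1 h1, (div_le_iff₀ hΓ).1 h2⟩
  choose! lev hlev using hex
  have h1 := sum_le_sum_cover F' (F'.image lev) (fun j m => lev j = m)
    (fun j => ∑ i ∈ D.layer j r, D.a i) (fun j _ => hc0 j)
    (fun j hj => ⟨_, Finset.mem_image_of_mem _ hj, rfl⟩)
  have h2 : ∀ m : ℕ, ∑ j ∈ F' with lev j = m, ∑ i ∈ D.layer j r, D.a i ≤
      ((2 ^ q) ^ θ * (1 + 8 * p) * e * β ^ (1 - θ) * (D.Γ ^ q * D.W.real univ)) * ρ ^ m := by
    intro m
    set G := F'.filter fun j => lev j = m with hG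
    have hGm : ∀ j ∈ G, j ∈ F ∧ (1 / 2 : ℝ) ^ (m + 1) * D.Γ < D.s j ∧
        D.s j ≤ (1 / 2 : ℝ) ^ m * D.Γ := by
      intro j hj
      obtain ⟨h1, h2⟩ := Finset.mem_filter.1 hj
      exact ⟨hF'F j h1, h2 ▸ hlev j h1⟩
    have h3 : ∀ j ∈ G, ∑ i ∈ D.layer j r, D.a i ≤
        (D.Γ ^ q * ((2 ^ q * ((1 / 2) ^ m) ^ q) ^ θ * β ^ (1 - θ))) * D.W.real (D.Q j) := by
      intro j hj
      have hjS := (hF j (hGm j hj).1).1
      have hW := (W_pos hjS).le
      have a1 : ∑ i ∈ D.layer j r, D.a i ≤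
          D.Γ ^ q * (2 ^ q * ((1 / 2) ^ m) ^ q) * D.W.real (D.Q j) := by
        refine (layer_a_le₁ hq0.le hjS r).trans ?_
        rw [a_eq hpq hjS]
        have := s_nonneg (D := D) j
        calc 2 ^ q * (D.s j ^ q * D.W.real (D.Q j))
            ≤ 2 ^ q * (((1 / 2 : ℝ) ^ m * D.Γ) ^ q * D.W.real (D.Q j)) := by
              gcongr; exact (hGm j hj).2.2
          _ = _ := by rw [Real.mul_rpow (by positivity) hΓ.le]; ring
      have a2 := layer_a_le₂ hpq hη0 hη1 hjS r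
      have a3 := min_le_rpow_mul_rpow (x := 2 ^ q * ((1 / 2 : ℝ) ^ m) ^ q) (y := β)
        (by positivity) hβ0 hθ0 hθ1
      refine le_trans ?_ (mul_le_mul_of_nonneg_right
        (mul_le_mul_of_nonneg_left a3 (by positivity)) hW)
      rcases le_total (2 ^ q * ((1 / 2 : ℝ) ^ m) ^ q) β with h | h
      · rw [min_eq_left h]; exact a1
      · rw [min_eq_right h]; exact a2
    refine (Finset.sum_le_sum h3).trans ?_
    rw [← Finset.mul_sum]
    have h4 := B_level hp hΛ hΛθ e k' he (t := (1 / 2 : ℝ) ^ (m + 1) * D.Γ) (by positivity) G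
      (fun j hj => hF j (hGm j hj).1) (fun j hj => (hGm j hj).2.1)
    have h5 : 1 + 4 * p * (D.Γ / ((1 / 2 : ℝ) ^ (m + 1) * D.Γ)) ≤ (1 + 8 * p) * 2 ^ m := by
      have : D.Γ / ((1 / 2 : ℝ) ^ (m + 1) * D.Γ) = 2 * 2 ^ m := by
        rw [one_div, inv_pow]; field_simp; ring
      rw [this]
      have : (1 : ℝ) ≤ 2 ^ m := one_le_pow₀ (by norm_num)
      nlinarith
    have h6 : (2 ^ q * ((1 / 2 : ℝ) ^ m) ^ q) ^ θ * 2 ^ m = (2 ^ q) ^ θ * ρ ^ m := by
      have e1 : (((1 / 2 : ℝ) ^ m) ^ q) ^ θ = ((1 / 2 : ℝ) ^ (q * θ)) ^ m := by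
        rw [← Real.rpow_mul (by positivity), ← Real.rpow_natCast (1 / 2 : ℝ) m,
          ← Real.rpow_mul (by norm_num), mul_comm (m : ℝ), Real.rpow_mul (by norm_num),
          Real.rpow_natCast]
      rw [Real.mul_rpow (by positivity) (by positivity), e1, hρ, mul_pow]
      ring
    calc D.Γ ^ q * ((2 ^ q * ((1 / 2) ^ m) ^ q) ^ θ * β ^ (1 - θ)) * ∑ j ∈ G, D.W.real (D.Q j)
        ≤ D.Γ ^ q * ((2 ^ q * ((1 / 2) ^ m) ^ q) ^ θ * β ^ (1 - θ)) *
          (e * (((1 + 8 * p) * 2 ^ m) * D.W.real univ)) := by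
          gcongr
          exact h4.trans (by gcongr)
      _ = ((2 ^ q * ((1 / 2 : ℝ) ^ m) ^ q) ^ θ * 2 ^ m) *
          ((1 + 8 * p) * e * β ^ (1 - θ) * (D.Γ ^ q * D.W.real univ)) := by ring
      _ = _ := by rw [h6]; ring
  rw [hred]
  refine h1.trans ((Finset.sum_le_sum fun m _ => h2 m).trans ?_)
  rw [← Finset.mul_sum]
  have h7 : ∑ m ∈ F'.image lev, ρ ^ m ≤ (1 - ρ)⁻¹ :=
    ((summable_geometric_of_lt_one hρ0 hρ1).sum_le_tsum _ (fun _ _ => by positivity)).trans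
      (tsum_geometric_of_lt_one hρ0 hρ1).le
  calc _ ≤ ((2 ^ q) ^ θ * (1 + 8 * p) * e * β ^ (1 - θ) * (D.Γ ^ q * D.W.real univ)) *
        (1 - ρ)⁻¹ := by gcongr
    _ = _ := by ring

end Setup

end Pool.Agent.MP_6bb8b9_an.H2
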