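import Pool.Agent.MP_6bb8b9_an.H2.Core3

/-!
The abstract testing estimate.
-/

open MeasureTheory Set
open scoped ENNReal

namespace Pool.Agent.MP_6bb8b9_an.H2

namespace Setup

variable {α ι κ : Type*} [MeasurableSpace α] {p q η : ℝ}

lemma depth_decay (hpq : p.HolderConjugate q) (hη0 : 0 < η) (hη1 : η ≤ 1 / 2) :
    ∃ C ξ : ℝ, 0 ≤ C ∧ 0 < ξ ∧ ξ < 1 ∧ ∀ (D : Setup α ι κ p q η) (k : ℕ),
      ∑ i ∈ D.S with D.k i = k, D.a i ≤ C * (k + 1) * ξ ^ k * (D.Γ ^ q * D.W.real univ) := by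
  classical
  have hp := hpq.lt
  have hp0 := hpq.pos
  have hq := hpq.symm.lt
  have hq0 := hpq.symm.pos
  set Λ : ℝ := (2 * p) ^ q with hΛ
  have hΛ1 : 1 ≤ Λ := Real.one_le_rpow (by linarith) hq0.le
  have hΛθ : Λ ^ (1 / p - 1) ≤ 1 / p / 2 := by
    rw [hΛ, ← Real.rpow_mul (by positivity), one_div p, hpq.inv_sub_one, mul_neg,
      mul_inv_cancel₀ hq0.ne', Real.rpow_neg_one]
    apply le_of_eq; field_simp
  set θ : ℝ := (1 + 1 / q) / 2 with hθ
  have h1q : 1 / q < 1 := (div_lt_one hq0).2 hq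
  have h1q0 : 0 < 1 / q := by positivity
  have hθ0 : 0 ≤ θ := by positivity
  have hθ1 : θ < 1 := by linarith
  have hθq : 1 < q * θ := by
    have : q * θ = (q + 1) / 2 := by rw [hθ]; field_simp
    linarith
  have hκ0 : 1 / 2 ≤ 1 - η := by linarith
  have hκ1 : 1 - η < 1 := by linarith
  set ω : ℝ := (1 - η) ^ (1 - θ) with hω
  have hω1 : ω < 1 := Real.rpow_lt_one (by linarith) hκ1 (by linarith)
  have hκω : 1 - η ≤ ω := by
    calc 1 - η = (1 - η) ^ (1 : ℝ) := (Real.rpow_one _).symm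
      _ ≤ ω := Real.rpow_le_rpow_of_exponent_ge (by linarith) hκ1.le (by linarith)
  have hω0 : 0 < ω := by linarith
  set ξ := Real.sqrt ω with hξ
  have hξ0 : 0 < ξ := Real.sqrt_pos.2 hω0
  have hξ2 : ξ ^ 2 = ω := Real.sq_sqrt hω0.le
  have hξ1 : ξ < 1 := by nlinarith
  have hξh : 1 / 2 ≤ ξ := by nlinarith
  set CB : ℝ := (2 ^ q) ^ θ * (1 + 8 * p) * (1 - 2 * (1 / 2) ^ (q * θ))⁻¹ with hCB
  have hCB0 : 0 ≤ CB := by
    have : (1 / 2 : ℝ) ^ (q * θ) < (1 / 2) ^ (1 : ℝ) :=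
      Real.rpow_lt_rpow_of_exponent_gt (by norm_num) (by norm_num) hθq
    rw [Real.rpow_one] at this
    have : 0 < 1 - 2 * (1 / 2 : ℝ) ^ (q * θ) := by linarith
    positivity
  refine ⟨2 ^ q * (2 * 2 ^ q) + 2 ^ q * ((4 * Λ) ^ q * (η⁻¹ * 4)) +
    CB * ((2 * η⁻¹) ^ (1 - θ) * 2), ξ, by positivity, hξ0, hξ1, fun D k => ?_⟩
  have hU : 0 ≤ D.Γ ^ q * D.W.real univ :=
    mul_nonneg (Real.rpow_nonneg D.Γ_nonneg _) measureReal_nonneg
  set U := D.Γ ^ q * D.W.real univ with hUdef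
  rcases Nat.eq_zero_or_pos k with rfl | hk
  · rw [Finset.sum_eq_zero]
    · positivity
    · intro i hi
      obtain ⟨h1, h2⟩ := Finset.mem_filter.1 hi
      have := one_le_k h1; omega
  set r := k / 2 with hr
  set k' := k - r with hk'
  have hk'1 : 1 ≤ k' := by omega
  set Y := D.S.filter fun j => D.k j = k' with hY
  have hYm : ∀ j ∈ Y, j ∈ D.S ∧ D.k j = k' := fun j hj => Finset.mem_filter.1 hj
  have h1 : ∑ i ∈ D.S with D.k i = k, D.a i ≤ ∑ j ∈ Y, ∑ i ∈ D.layer j r, D.a i := by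
    refine (sum_le_sum_cover _ Y (fun i j => i ∈ D.layer j r) D.a (fun i _ => a_nonneg i) ?_).trans
      (Finset.sum_le_sum fun j _ => Finset.sum_le_sum_of_subset_of_nonneg
        (fun i hi => (Finset.mem_filter.1 hi).2) fun i _ _ => a_nonneg i)
    intro i hi
    obtain ⟨h1, h2⟩ := Finset.mem_filter.1 hi
    obtain ⟨j, hj, h3, h4, h5⟩ := exists_anc h1 hk'1 (by omega)
    exact ⟨j, Finset.mem_filter.2 ⟨hj, h5⟩, mem_layer.2 ⟨h1, h3, h4.symm, by omega⟩⟩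
  refine h1.trans ?_
  rw [← Finset.sum_filter_add_sum_filter_not Y (fun j => D.isD (k + 1) j),
    ← Finset.sum_filter_add_sum_filter_not (Y.filter fun j => ¬ D.isD (k + 1) j)
      (fun j => D.isA Λ j)]
  have hk1 : (1 : ℝ) ≤ k + 1 := by have : (0 : ℝ) ≤ k := Nat.cast_nonneg k; linarith
  have hξk : 0 < ξ ^ k := by positivity
  have bD : ∑ j ∈ Y with D.isD (k + 1) j, ∑ i ∈ D.layer j r, D.a i ≤
      2 ^ q * (2 * 2 ^ q) * (k + 1) * ξ ^ k * U := by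
    have a1 := sumD_le hq.le (k + 1) k' (Y.filter fun j => D.isD (k + 1) j) (fun j hj => by
      obtain ⟨h1, h2⟩ := Finset.mem_filter.1 hj
      exact ⟨(hYm j h1).1, (hYm j h1).2, h2⟩)
    have a2 : (1 / 2 : ℝ) ^ (k + 1) ≤ (k + 1) * ξ ^ k := by
      calc (1 / 2 : ℝ) ^ (k + 1) ≤ (1 / 2) ^ k :=
            pow_le_pow_of_le_one (by norm_num) (by norm_num) (by omega)
        _ ≤ ξ ^ k := by gcongr
        _ ≤ _ := le_mul_of_one_le_left hξk.le hk1
    calc _ ≤ ∑ j ∈ Y with D.isD (k + 1) j, 2 ^ q * D.a j :=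
          Finset.sum_le_sum fun j hj => layer_a_le₁ hq0.le (hYm j (Finset.mem_filter.1 hj).1).1 r
      _ = 2 ^ q * ∑ j ∈ Y with D.isD (k + 1) j, D.a j := by rw [Finset.mul_sum]
      _ ≤ 2 ^ q * (2 * 2 ^ q * ((k + 1) * ξ ^ k) * U) := by
          gcongr; exact a1.trans (by gcongr)
      _ = _ := by ring
  have bA : ∑ j ∈ (Y.filter fun j => ¬ D.isD (k + 1) j) with D.isA Λ j,
      ∑ i ∈ D.layer j r, D.a i ≤ 2 ^ q * ((4 * Λ) ^ q * (η⁻¹ * 4)) * (k + 1) * ξ ^ k * U := by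
    have a1 := sumA_le hq0.le hη0 (by linarith) hΛ1 (k' - 1)
      ((Y.filter fun j => ¬ D.isD (k + 1) j).filter fun j => D.isA Λ j) (fun j hj => by
      obtain ⟨h1, h2⟩ := Finset.mem_filter.1 hj
      have h3 := hYm j (Finset.mem_filter.1 h1).1
      exact ⟨h3.1, by omega, h2⟩)
    have a2 : (1 - η) ^ (k' - 1) ≤ 4 * ((k + 1) * ξ ^ k) := by
      have b1 : (1 - η) ^ (k' - 1) ≤ ξ ^ (2 * (k' - 1)) := by
        rw [pow_mul, hξ2]; gcongr
      have b2 : ξ ^ (2 * (k' - 1) + 2) ≤ ξ ^ k := pow_le_pow_of_le_one hξ0.le hξ1.le (by omega)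
      rw [pow_add] at b2
      have b3 : 1 / 4 ≤ ξ ^ 2 := by rw [hξ2]; linarith
      have b4 : 0 < ξ ^ (2 * (k' - 1)) := by positivity
      have b5 : ξ ^ k ≤ (k + 1) * ξ ^ k := le_mul_of_one_le_left hξk.le hk1
      have b6 : ξ ^ (2 * (k' - 1)) * (1 / 4) ≤ ξ ^ (2 * (k' - 1)) * ξ ^ 2 := by gcongr
      linarith
    calc _ ≤ ∑ j ∈ (Y.filter fun j => ¬ D.isD (k + 1) j) with D.isA Λ j, 2 ^ q * D.a j :=
          Finset.sum_le_sum fun j hj => layer_a_le₁ hq0.le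
            (hYm j (Finset.mem_filter.1 (Finset.mem_filter.1 hj).1).1).1 r
      _ = 2 ^ q * ∑ j ∈ (Y.filter fun j => ¬ D.isD (k + 1) j) with D.isA Λ j, D.a j := by
          rw [Finset.mul_sum]
      _ ≤ 2 ^ q * ((4 * Λ) ^ q * (η⁻¹ * (4 * ((k + 1) * ξ ^ k))) * U) := by
          gcongr; exact a1.trans (by gcongr)
      _ = _ := by ring
  have bB : ∑ j ∈ (Y.filter fun j => ¬ D.isD (k + 1) j) with ¬ D.isA Λ j,
      ∑ i ∈ D.layer j r, D.a i ≤ CB * ((2 * η⁻¹) ^ (1 - θ) * 2) * (k + 1) * ξ ^ k * U := by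
    have a1 := sumB_le hpq hη0 (by linarith) (by linarith) hΛθ hθ0 hθ1.le hθq (k + 1) k' r
      (by omega) ((Y.filter fun j => ¬ D.isD (k + 1) j).filter fun j => ¬ D.isA Λ j)
      (fun j hj => by
        obtain ⟨h1, h2⟩ := Finset.mem_filter.1 hj
        obtain ⟨h3, h4⟩ := Finset.mem_filter.1 h1
        exact ⟨(hYm j h3).1, (hYm j h3).2, h4, h2⟩)
    refine a1.trans ?_
    have a2 : (2 * (η⁻¹ * (1 - η) ^ r)) ^ (1 - θ) ≤ (2 * η⁻¹) ^ (1 - θ) * (2 * ξ ^ k) := by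
      rw [← mul_assoc, Real.mul_rpow (by positivity) (by positivity)]
      gcongr
      have b1 : ((1 - η) ^ r) ^ (1 - θ) = ξ ^ (2 * r) := by
        rw [pow_mul, hξ2, hω, ← Real.rpow_natCast (1 - η) r, ← Real.rpow_mul (by linarith),
          mul_comm (r : ℝ), Real.rpow_mul (by linarith), Real.rpow_natCast]
      have b2 : ξ ^ (2 * r + 1) ≤ ξ ^ k := pow_le_pow_of_le_one hξ0.le hξ1.le (by omega)
      rw [pow_succ] at b2
      have b4 : 0 < ξ ^ (2 * r) := by positivity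
      have b6 : ξ ^ (2 * r) * (1 / 2) ≤ ξ ^ (2 * r) * ξ := by gcongr
      rw [b1]; linarith
    rw [← hCB]
    push_cast
    calc CB * (k + 1) * (2 * (η⁻¹ * (1 - η) ^ r)) ^ (1 - θ) * U
        ≤ CB * (k + 1) * ((2 * η⁻¹) ^ (1 - θ) * (2 * ξ ^ k)) * U := by gcongr
      _ = _ := by ring
  calc _ ≤ 2 ^ q * (2 * 2 ^ q) * (k + 1) * ξ ^ k * U +
      (2 ^ q * ((4 * Λ) ^ q * (η⁻¹ * 4)) * (k + 1) * ξ ^ k * U +
        CB * ((2 * η⁻¹) ^ (1 - θ) * 2) * (k + 1) * ξ ^ k * U) := add_le_add bD (add_le_add bA bB)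
    _ = _ := by ring

open Classical in
lemma pointwise_le (hq : 1 ≤ q) {β : ℝ} (hβ0 : 0 < β) (hβ1 : β < 1) (D : Setup α ι κ p q η)
    (x : α) :
    (∑ i ∈ D.S with x ∈ D.Q i, D.av i) ^ q ≤
      (4 * (1 - β)⁻¹) ^ q * ∑ i ∈ D.S with x ∈ D.Q i, (β ^ q)⁻¹ ^ D.k i * D.av i ^ q := by
  have hq0 : 0 < q := by linarith
  have h1β : 0 < 1 - β := by linarith
  set J := D.S.filter fun i => x ∈ D.Q i with hJ
  have hJm : ∀ i ∈ J, i ∈ D.S ∧ x ∈ D.Q i := fun i hi => Finset.mem_filter.1 hi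
  rcases J.eq_empty_or_nonempty with hJe | hJe
  · rw [hJe]; simp [Real.zero_rpow hq0.ne']
  obtain ⟨i0, hi0, hmax⟩ := J.exists_max_image (fun i => β⁻¹ ^ D.k i * D.av i) hJe
  set M := β⁻¹ ^ D.k i0 * D.av i0 with hM
  have hM0 : 0 ≤ M := mul_nonneg (by positivity) (av_nonneg _)
  have h1 : ∑ i ∈ J, D.av i ≤ 4 * (1 - β)⁻¹ * M := by
    have a1 := sum_le_sum_cover J (J.image D.k) (fun i m => D.k i = m) D.av
      (fun i _ => av_nonneg i) (fun i hi => ⟨_, Finset.mem_image_of_mem _ hi, rfl⟩)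
    have a2 : ∀ m : ℕ, ∑ i ∈ J with D.k i = m, D.av i ≤ 4 * M * β ^ m := by
      intro m
      set G := J.filter fun i => D.k i = m with hG
      have hGm : ∀ i ∈ G, i ∈ J ∧ D.k i = m := fun i hi => Finset.mem_filter.1 hi
      have hinj : Set.InjOn D.d (G : Set ι) := by
        intro i hi j hj hd
        by_contra hne
        have := disjoint_of_k_eq (hJm i (hGm i hi).1).1 (hJm j (hGm j hj).1).1 hne hd
          ((hGm i hi).2.trans (hGm j hj).2.symm)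
        exact Set.disjoint_left.1 this (hJm i (hGm i hi).1).2 (hJm j (hGm j hj).1).2
      have b1 := sum_zpow_le (G.image D.d) (y := M * β ^ m) (by positivity) (by
        intro d' hd'
        obtain ⟨i, hi, rfl⟩ := Finset.mem_image.1 hd'
        refine (zpow_d_le (hJm i (hGm i hi).1).1).trans ?_
        have := hmax i (hGm i hi).1
        rw [(hGm i hi).2, inv_pow, inv_mul_le_iff₀ (by positivity)] at this
        linarith)
      rw [Finset.sum_image hinj] at b1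
      calc ∑ i ∈ G, D.av i ≤ ∑ i ∈ G, 2 * (2 : ℝ) ^ D.d i :=
            Finset.sum_le_sum fun i _ => (av_lt i).le
        _ = 2 * ∑ i ∈ G, (2 : ℝ) ^ D.d i := by rw [Finset.mul_sum]
        _ ≤ _ := by linarith
    refine a1.trans ((Finset.sum_le_sum fun m _ => a2 m).trans ?_)
    rw [← Finset.mul_sum]
    have h7 : ∑ m ∈ J.image D.k, β ^ m ≤ (1 - β)⁻¹ :=
      ((summable_geometric_of_lt_one hβ0.le hβ1).sum_le_tsum _ (fun _ _ => by positivity)).trans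
        (tsum_geometric_of_lt_one hβ0.le hβ1).le
    calc 4 * M * ∑ m ∈ J.image D.k, β ^ m ≤ 4 * M * (1 - β)⁻¹ := by gcongr
      _ = _ := by ring
  have h2 : M ^ q ≤ ∑ i ∈ J, (β ^ q)⁻¹ ^ D.k i * D.av i ^ q := by
    refine le_trans (le_of_eq ?_) (Finset.single_le_sum
      (f := fun i => (β ^ q)⁻¹ ^ D.k i * D.av i ^ q) (fun i _ => ?_) hi0)
    · rw [hM, Real.mul_rpow (by positivity) (av_nonneg _), ← Real.inv_rpow hβ0.le,
        ← Real.rpow_natCast, ← Real.rpow_mul (by positivity), mul_comm (D.k i0 : ℝ),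
        Real.rpow_mul (by positivity), Real.rpow_natCast]
    · have := av_nonneg (D := D) i
      positivity
  calc (∑ i ∈ J, D.av i) ^ q ≤ (4 * (1 - β)⁻¹ * M) ^ q := by
        gcongr; exact Finset.sum_nonneg fun i _ => av_nonneg i
    _ = (4 * (1 - β)⁻¹) ^ q * M ^ q := Real.mul_rpow (by positivity) hM0
    _ ≤ _ := by gcongr

/-- The abstract testing estimate. -/
theorem core (hpq : p.HolderConjugate q) (hη0 : 0 < η) (hη1 : η ≤ 1 / 2) :
    ∃ C : ℝ, 0 ≤ C ∧ ∀ D : Setup α ι κ p q η,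
      ∫⁻ x, (∑ i ∈ D.S, (D.Q i).indicator (fun _ => ENNReal.ofReal (D.av i)) x) ^ q ∂D.ν ≤
        ENNReal.ofReal (C * (D.Γ ^ q * D.W.real univ)) := by
  classical
  obtain ⟨C, ξ, hC, hξ0, hξ1, hdec⟩ := depth_decay (α := α) (ι := ι) (κ := κ) hpq hη0 hη1
  have hq := hpq.symm.lt
  have hq0 := hpq.symm.pos
  set ζ := Real.sqrt ξ with hζ
  have hζ0 : 0 < ζ := Real.sqrt_pos.2 hξ0
  have hζ2 : ζ ^ 2 = ξ := Real.sq_sqrt hξ0.le
  have hζ1 : ζ < 1 := by nlinarith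
  set β := ζ ^ (1 / q) with hβ
  have hβ0 : 0 < β := by positivity
  have hβ1 : β < 1 := Real.rpow_lt_one hζ0.le hζ1 (by positivity)
  have hβq : β ^ q = ζ := by
    rw [hβ, ← Real.rpow_mul hζ0.le, one_div_mul_cancel hq0.ne', Real.rpow_one]
  have hsum : Summable fun m : ℕ => ((m : ℝ) + 1) * ζ ^ m := by
    have s1 := summable_pow_mul_geometric_of_norm_lt_one (R := ℝ) 1 (r := ζ)
      (by rw [Real.norm_of_nonneg hζ0.le]; exact hζ1)
    have s2 := summable_geometric_of_lt_one hζ0.le hζ1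
    refine (s1.add s2).congr fun m => ?_
    ring
  have h1β : 0 < 1 - β := by linarith
  set T := ∑' m : ℕ, ((m : ℝ) + 1) * ζ ^ m with hT
  have hT0 : 0 ≤ T := tsum_nonneg fun m => by positivity
  refine ⟨(4 * (1 - β)⁻¹) ^ q * (C * T), by positivity, fun D => ?_⟩
  set U := D.Γ ^ q * D.W.real univ with hUdef
  have hU : 0 ≤ U := mul_nonneg (Real.rpow_nonneg D.Γ_nonneg _) measureReal_nonneg
  set c : ι → ℝ := fun i => (4 * (1 - β)⁻¹) ^ q * (ζ⁻¹ ^ D.k i * D.av i ^ q) with hc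
  have hc0 : ∀ i, 0 ≤ c i := fun i => by
    have := av_nonneg (D := D) i
    simp only [hc]; positivity
  have hpt : ∀ x, (∑ i ∈ D.S, (D.Q i).indicator (fun _ => ENNReal.ofReal (D.av i)) x) ^ q ≤
      ∑ i ∈ D.S, (D.Q i).indicator (fun _ => ENNReal.ofReal (c i)) x := by
    intro x
    have h := pointwise_le hq.le hβ0 hβ1 D x
    rw [hβq, Finset.mul_sum] at h
    simp only [Set.indicator_apply]
    rw [← Finset.sum_filter, ← Finset.sum_filter,
      ← ENNReal.ofReal_sum_of_nonneg (fun i _ => av_nonneg i),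
      ← ENNReal.ofReal_sum_of_nonneg (fun i _ => hc0 i),
      ENNReal.ofReal_rpow_of_nonneg (Finset.sum_nonneg fun i _ => av_nonneg i) hq0.le]
    exact ENNReal.ofReal_le_ofReal h
  refine (lintegral_mono hpt).trans ?_
  rw [lintegral_finsetSum _ fun i _ => measurable_const.indicator (D.meas i)]
  have e1 : ∀ i, ∫⁻ x, (D.Q i).indicator (fun _ => ENNReal.ofReal (c i)) x ∂D.ν =
      ENNReal.ofReal (c i * D.ν.real (D.Q i)) := by
    intro i
    rw [lintegral_indicator_const (D.meas i), ENNReal.ofReal_mul (hc0 i),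
      ofReal_measureReal]
  simp_rw [e1]
  rw [← ENNReal.ofReal_sum_of_nonneg (fun i _ => mul_nonneg (hc0 i) measureReal_nonneg)]
  refine ENNReal.ofReal_le_ofReal ?_
  have e2 : ∑ i ∈ D.S, c i * D.ν.real (D.Q i) =
      (4 * (1 - β)⁻¹) ^ q * ∑ i ∈ D.S, ζ⁻¹ ^ D.k i * D.a i := by
    rw [Finset.mul_sum]
    refine Finset.sum_congr rfl fun i _ => ?_
    simp only [hc, a]; ring
  rw [e2, mul_assoc]
  gcongr
  have a1 := sum_le_sum_cover D.S (D.S.image D.k) (fun i m => D.k i = m)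
    (fun i => ζ⁻¹ ^ D.k i * D.a i) (fun i _ => mul_nonneg (by positivity) (a_nonneg i))
    (fun i hi => ⟨_, Finset.mem_image_of_mem _ hi, rfl⟩)
  have a2 : ∀ m : ℕ, ∑ i ∈ D.S with D.k i = m, ζ⁻¹ ^ D.k i * D.a i ≤
      C * U * ((m + 1) * ζ ^ m) := by
    intro m
    have : ∑ i ∈ D.S with D.k i = m, ζ⁻¹ ^ D.k i * D.a i =
        ζ⁻¹ ^ m * ∑ i ∈ D.S with D.k i = m, D.a i := by
      rw [Finset.mul_sum]
      exact Finset.sum_congr rfl fun i hi => by rw [(Finset.mem_filter.1 hi).2]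
    rw [this]
    calc ζ⁻¹ ^ m * ∑ i ∈ D.S with D.k i = m, D.a i ≤ ζ⁻¹ ^ m * (C * (m + 1) * ξ ^ m * U) := by
          gcongr; exact hdec D m
      _ = C * U * ((m + 1) * ζ ^ m) := by
          rw [← hζ2, ← pow_mul, mul_comm 2 m, pow_mul, inv_pow]; field_simp
  refine a1.trans ((Finset.sum_le_sum fun m _ => a2 m).trans ?_)
  rw [← Finset.mul_sum]
  calc C * U * ∑ m ∈ D.S.image D.k, ((m : ℝ) + 1) * ζ ^ m ≤ C * U * T := by
        gcongr; exact hsum.sum_le_tsum _ fun m _ => by positivity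
    _ = _ := by ring

end Setup

end Pool.Agent.MP_6bb8b9_an.H2
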