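import Pool.Agent.MP_6bb8b9_an.H2.Defs

/-!
Basic facts on half-open cubes, dyadic grids, sparse families and the sparse operator.
-/

open MeasureTheory Set
open scoped ENNReal NNReal

namespace Pool.Agent.MP_6bb8b9_an.H2

/-- Euclidean space. -/
abbrev Euc (n : ℕ) := EuclideanSpace ℝ (Fin n)

variable {n : ℕ}

lemma cube_eq_preimage (a : Euc n) (l : ℝ) :
    cube a l = (WithLp.ofLp : Euc n → (Fin n → ℝ)) ⁻¹'
      (Set.univ.pi fun i => Ico (a i) (a i + l)) := by
  ext x; simp [cube]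

lemma measurableSet_cube (a : Euc n) (l : ℝ) : MeasurableSet (cube a l) := by
  rw [cube_eq_preimage]
  exact (PiLp.volume_preserving_ofLp (Fin n)).measurable
    (MeasurableSet.univ_pi fun i => measurableSet_Ico)

lemma volume_cube (a : Euc n) {l : ℝ} (hl : 0 ≤ l) :
    volume (cube a l) = ENNReal.ofReal (l ^ n) := by
  rw [cube_eq_preimage, (PiLp.volume_preserving_ofLp (Fin n)).measure_preimage
    (MeasurableSet.univ_pi fun i => measurableSet_Ico).nullMeasurableSet, Real.volume_pi_Ico]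
  simp [ENNReal.ofReal_pow hl]

lemma volume_cube_pos (a : Euc n) {l : ℝ} (hl : 0 < l) : 0 < volume (cube a l) := by
  rw [volume_cube a hl.le]; exact ENNReal.ofReal_pos.2 (by positivity)

lemma volume_cube_lt_top (a : Euc n) (l : ℝ) : volume (cube a l) < ∞ := by
  rcases le_or_gt 0 l with hl | hl
  · rw [volume_cube a hl]; exact ENNReal.ofReal_lt_top
  · have : cube a l ⊆ cube a 0 := fun x hx i => ⟨(hx i).1, by linarith [(hx i).2]⟩
    refine (measure_mono this).trans_lt ?_
    rw [volume_cube a le_rfl]; exact ENNReal.ofReal_lt_top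

lemma self_mem_cube (a : Euc n) {l : ℝ} (hl : 0 < l) : a ∈ cube a l :=
  fun i => ⟨le_rfl, by linarith⟩

/-- If all coordinates of `v` are at most `r` in absolute value then `‖v‖ ≤ √n r`. -/
lemma norm_le_sqrt_mul {v : Euc n} {r : ℝ} (hr : 0 ≤ r) (h : ∀ i, |v i| ≤ r) :
    ‖v‖ ≤ Real.sqrt n * r := by
  have h1 : ‖v‖ ^ 2 ≤ (Real.sqrt n * r) ^ 2 := by
    rw [EuclideanSpace.real_norm_sq_eq, mul_pow, Real.sq_sqrt (Nat.cast_nonneg n)]
    calc ∑ i, v i ^ 2 ≤ ∑ _i : Fin n, r ^ 2 := Finset.sum_le_sum fun i _ => by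
            rw [← sq_abs]; exact pow_le_pow_left₀ (abs_nonneg _) (h i) 2
      _ = n * r ^ 2 := by simp
  exact (pow_le_pow_iff_left₀ (norm_nonneg _) (by positivity) two_ne_zero).1 h1

lemma abs_coord_le_norm (v : Euc n) (i : Fin n) : |v i| ≤ ‖v‖ := by
  simpa using EuclideanSpace.norm_eq v ▸ (PiLp.norm_apply_le v i)

lemma norm_sub_le_of_mem_cube {a x y : Euc n} {l : ℝ} (hl : 0 ≤ l) (hx : x ∈ cube a l)
    (hy : y ∈ cube a l) : ‖x - y‖ ≤ Real.sqrt n * l := by
  refine norm_le_sqrt_mul hl fun i => ?_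
  have h1 := hx i; have h2 := hy i
  simp only [PiLp.sub_apply]
  rw [abs_le]; constructor <;> linarith [h1.1, h1.2, h2.1, h2.2]

lemma isBounded_cube (a : Euc n) (l : ℝ) : Bornology.IsBounded (cube a l) := by
  rcases le_or_gt l 0 with hl | hl
  · rcases (cube a l).eq_empty_or_nonempty with h | ⟨x, hx⟩
    · rw [h]; exact Bornology.isBounded_empty
    · refine (Metric.isBounded_closedBall (x := x) (r := 0)).subset fun y hy => ?_
      have : y = x := by
        ext i; exfalso; linarith [(hx i).1, (hx i).2]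
      simp [this]
  · refine (Metric.isBounded_closedBall (x := a) (r := Real.sqrt n * l)).subset fun y hy => ?_
    rw [mem_closedBall_iff_norm]
    exact norm_sub_le_of_mem_cube hl.le hy (self_mem_cube a hl)

/-! ### Dyadic grids -/

/-- Corner of the cube of generation `k` and index `m` of the dyadic grid with origin `a` and
top side length `L`. -/
noncomputable def dcorner (a : Euc n) (L : ℝ) (k : ℕ) (m : Fin n → ℤ) : Euc n :=
  WithLp.toLp 2 fun i => a i + (m i : ℝ) * (L / 2 ^ k)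

/-- The cube of generation `k` and index `m` of the dyadic grid. -/
def dcube (a : Euc n) (L : ℝ) (k : ℕ) (m : Fin n → ℤ) : Set (Euc n) :=
  cube (dcorner a L k m) (L / 2 ^ k)

/-- The index of the cube of generation `k` that contains `x`. -/
noncomputable def didx (a : Euc n) (L : ℝ) (k : ℕ) (x : Euc n) : Fin n → ℤ :=
  fun i => ⌊(x i - a i) / (L / 2 ^ k)⌋

lemma mem_dcube_iff {a : Euc n} {L : ℝ} (hL : 0 < L) {k : ℕ} {m : Fin n → ℤ} {x : Euc n} :
    x ∈ dcube a L k m ↔ didx a L k x = m := by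
  have hs : 0 < L / 2 ^ k := by positivity
  simp only [dcube, cube, dcorner, mem_setOf_eq, funext_iff, didx]
  refine forall_congr' fun i => ?_
  rw [Int.floor_eq_iff, le_div_iff₀ hs, div_lt_iff₀ hs]
  constructor <;> rintro ⟨h1, h2⟩ <;> constructor <;> linarith

lemma mem_dcube_didx {a : Euc n} {L : ℝ} (hL : 0 < L) (k : ℕ) (x : Euc n) :
    x ∈ dcube a L k (didx a L k x) := (mem_dcube_iff hL).2 rfl

lemma didx_succ {a : Euc n} {L : ℝ} (hL : 0 < L) (k : ℕ) (x : Euc n) (i : Fin n) :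
    didx a L k x i = didx a L (k + 1) x i / 2 := by
  simp only [didx]
  have : (x i - a i) / (L / 2 ^ k) = (x i - a i) / (L / 2 ^ (k + 1)) / ((2 : ℕ) : ℝ) := by
    field_simp; push_cast; ring
  rw [this, Int.floor_div_natCast]; rfl

lemma didx_eq_of_le {a : Euc n} {L : ℝ} (hL : 0 < L) {k k' : ℕ} (hk : k ≤ k') {x y : Euc n}
    (h : didx a L k' x = didx a L k' y) : didx a L k x = didx a L k y := by
  induction k', hk using Nat.le_induction with
  | base => exact h
  | succ k' _ ih =>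
    apply ih; funext i; rw [didx_succ hL k' x i, didx_succ hL k' y i, h]

/-- Two dyadic cubes that meet are nested. -/
lemma dcube_subset_of_mem {a : Euc n} {L : ℝ} (hL : 0 < L) {k k' : ℕ} (hk : k ≤ k')
    {m m' : Fin n → ℤ} {x : Euc n} (hx : x ∈ dcube a L k m) (hx' : x ∈ dcube a L k' m') :
    dcube a L k' m' ⊆ dcube a L k m := by
  intro y hy
  rw [mem_dcube_iff hL] at *
  rw [← hx]; exact didx_eq_of_le hL hk (hy.trans hx'.symm)

lemma dcube_disjoint_of_ne {a : Euc n} {L : ℝ} (hL : 0 < L) (k : ℕ) {m m' : Fin n → ℤ}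
    (h : m ≠ m') : Disjoint (dcube a L k m) (dcube a L k m') := by
  rw [Set.disjoint_left]; intro x hx hx'
  rw [mem_dcube_iff hL] at *; exact h (hx.symm.trans hx')

lemma measurableSet_dcube (a : Euc n) (L : ℝ) (k : ℕ) (m : Fin n → ℤ) :
    MeasurableSet (dcube a L k m) := measurableSet_cube _ _

lemma volume_dcube (a : Euc n) {L : ℝ} (hL : 0 < L) (k : ℕ) (m : Fin n → ℤ) :
    volume (dcube a L k m) = ENNReal.ofReal ((L / 2 ^ k) ^ n) :=
  volume_cube _ (by positivity)

lemma norm_sub_le_of_mem_dcube {a : Euc n} {L : ℝ} (hL : 0 < L) {k : ℕ} {m : Fin n → ℤ}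
    {x y : Euc n} (hx : x ∈ dcube a L k m) (hy : y ∈ dcube a L k m) :
    ‖x - y‖ ≤ Real.sqrt n * (L / 2 ^ k) :=
  norm_sub_le_of_mem_cube (by positivity) hx hy

/-! ### Sparse families -/

/-- A finite family of cubes (given by corner and side) any two of which are disjoint or strictly
nested. -/
structure Laminar (S : Finset (Euc n × ℝ)) : Prop where
  pos : ∀ Q ∈ S, 0 < Q.2
  lam : ∀ Q ∈ S, ∀ R ∈ S, Q ≠ R → Disjoint (cube Q.1 Q.2) (cube R.1 R.2) ∨
    cube Q.1 Q.2 ⊂ cube R.1 R.2 ∨ cube R.1 R.2 ⊂ cube Q.1 Q.2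

/-- A laminar family with pairwise disjoint major subsets. -/
structure Sparse (η : ℝ) (S : Finset (Euc n × ℝ)) : Prop extends Laminar S where
  major : ∃ F : Euc n × ℝ → Set (Euc n), (∀ Q ∈ S, MeasurableSet (F Q) ∧ F Q ⊆ cube Q.1 Q.2 ∧
    ENNReal.ofReal η * volume (cube Q.1 Q.2) ≤ volume (F Q)) ∧
    (S : Set (Euc n × ℝ)).PairwiseDisjoint F

/-- The sparse operator of a finite family of cubes. -/
noncomputable def sparseOp (S : Finset (Euc n × ℝ)) (h : Euc n → ℝ≥0∞) (x : Euc n) : ℝ≥0∞ :=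
  ∑ Q ∈ S, (cube Q.1 Q.2).indicator (fun _ => avg h Q.1 Q.2) x

lemma measurable_sparseOp (S : Finset (Euc n × ℝ)) (h : Euc n → ℝ≥0∞) :
    Measurable (sparseOp S h) :=
  Finset.measurable_sum _ fun Q _ => measurable_const.indicator (measurableSet_cube Q.1 Q.2)

end Pool.Agent.MP_6bb8b9_an.H2
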