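import Mathlib

/-!
Definitions used in the statements of the two-weight bump theorems for maximal
Calderon-Zygmund operators.
-/

open MeasureTheory Set
open scoped ENNReal NNReal

namespace Pool.Agent.MP_6bb8b9_an.H2

/-- The cube with sides parallel to the axes, lowest corner `a` and side length `l`. -/
def cube {n : ℕ} (a : EuclideanSpace ℝ (Fin n)) (l : ℝ) : Set (EuclideanSpace ℝ (Fin n)) :=
  {x | ∀ i, a i ≤ x i ∧ x i < a i + l}

/-- The average of a nonnegative function `h` over the cube with corner `a` and side `l`. -/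
noncomputable def avg {n : ℕ} (h : EuclideanSpace ℝ (Fin n) → ℝ≥0∞)
    (a : EuclideanSpace ℝ (Fin n)) (l : ℝ) : ℝ≥0∞ :=
  (∫⁻ x in cube a l, h x) / volume (cube a l)

/-- `ρ` is a rearrangement-invariant Banach function norm on Euclidean space with Lebesgue measure
(properties P1 to P5 of Bennett and Sharpley, and invariance under equimeasurability). The norm
of a function `f` in the space `X` is `ρ` applied to the absolute value of `f`. -/
structure IsRINorm {n : ℕ} (ρ : (EuclideanSpace ℝ (Fin n) → ℝ≥0∞) → ℝ≥0∞) : Prop where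
  eq_zero_iff : ∀ f, AEMeasurable f volume → (ρ f = 0 ↔ f =ᵐ[volume] 0)
  smul : ∀ (c : ℝ≥0) f, AEMeasurable f volume → ρ (fun x => c * f x) = c * ρ f
  add_le : ∀ f g, AEMeasurable f volume → AEMeasurable g volume → ρ (f + g) ≤ ρ f + ρ g
  mono : ∀ f g, AEMeasurable f volume → AEMeasurable g volume → f ≤ᵐ[volume] g → ρ f ≤ ρ g
  fatou : ∀ (F : ℕ → EuclideanSpace ℝ (Fin n) → ℝ≥0∞) f, (∀ k, AEMeasurable (F k) volume) →
    AEMeasurable f volume → (∀ᵐ x ∂volume, Monotone (fun k => F k x) ∧ ⨆ k, F k x = f x) →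
    ⨆ k, ρ (F k) = ρ f
  indicator_lt_top : ∀ A, MeasurableSet A → volume A < ∞ → ρ (A.indicator 1) < ∞
  lintegral_le : ∀ A, MeasurableSet A → volume A < ∞ →
    ∃ C < ∞, ∀ f, AEMeasurable f volume → ∫⁻ x in A, f x ≤ C * ρ f
  rearr : ∀ f g, AEMeasurable f volume → AEMeasurable g volume →
    (∀ t : ℝ≥0, volume {x | (t : ℝ≥0∞) < f x} = volume {x | (t : ℝ≥0∞) < g x}) → ρ f = ρ g

/-- The associate norm (the norm of the associate space). -/
noncomputable def assocNorm {n : ℕ} (ρ : (EuclideanSpace ℝ (Fin n) → ℝ≥0∞) → ℝ≥0∞)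
    (g : EuclideanSpace ℝ (Fin n) → ℝ≥0∞) : ℝ≥0∞ :=
  ⨆ (f : EuclideanSpace ℝ (Fin n) → ℝ≥0∞) (_ : AEMeasurable f volume) (_ : ρ f ≤ 1),
    ∫⁻ x, f x * g x

/-- The normalized local norm on the cube with corner `a` and side `l`: the norm of the dilate
by `l` of `f` times the indicator of the cube. -/
noncomputable def localNorm {n : ℕ} (ρ : (EuclideanSpace ℝ (Fin n) → ℝ≥0∞) → ℝ≥0∞)
    (f : EuclideanSpace ℝ (Fin n) → ℝ≥0∞) (a : EuclideanSpace ℝ (Fin n)) (l : ℝ) : ℝ≥0∞ :=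
  ρ (fun x => (cube a l).indicator f (l • x))

/-- The maximal operator of the norm `ρ`: supremum of the local norms over cubes containing `x`. -/
noncomputable def maxOp {n : ℕ} (ρ : (EuclideanSpace ℝ (Fin n) → ℝ≥0∞) → ℝ≥0∞)
    (g : EuclideanSpace ℝ (Fin n) → ℝ≥0∞) (x : EuclideanSpace ℝ (Fin n)) : ℝ≥0∞ :=
  ⨆ (a : EuclideanSpace ℝ (Fin n)) (l : ℝ) (_ : 0 < l) (_ : x ∈ cube a l), localNorm ρ g a l

/-- The operator norm on `L^q` of the maximal operator of `ρ` (infinite if it is unbounded). -/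
noncomputable def maxOpNorm {n : ℕ} (ρ : (EuclideanSpace ℝ (Fin n) → ℝ≥0∞) → ℝ≥0∞)
    (q : ℝ) : ℝ≥0∞ :=
  sInf {N : ℝ≥0∞ | ∀ g, AEMeasurable g volume → eLpNorm g (ENNReal.ofReal q) volume < ∞ →
    eLpNorm (maxOp ρ g) (ENNReal.ofReal q) volume ≤ N * eLpNorm g (ENNReal.ofReal q) volume}

/-- The weak `L^p` quasi-norm of a nonnegative function with respect to a measure. -/
noncomputable def weakNorm {n : ℕ} (g : EuclideanSpace ℝ (Fin n) → ℝ≥0∞) (p : ℝ)
    (μ : Measure (EuclideanSpace ℝ (Fin n))) : ℝ≥0∞ :=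
  ⨆ t : ℝ≥0, t * μ {x | (t : ℝ≥0∞) < g x} ^ (1 / p)

/-- `T` is a Calderon-Zygmund operator with kernel `K`: it is bounded on `L^2`, the kernel has the
size and Hoelder regularity bounds, and it represents `T` on test functions off their support. -/
structure IsCZO {n : ℕ} {𝕜 : Type} [RCLike 𝕜]
    (T : Lp 𝕜 2 (volume : Measure (EuclideanSpace ℝ (Fin n))) →L[𝕜]
      Lp 𝕜 2 (volume : Measure (EuclideanSpace ℝ (Fin n))))
    (K : EuclideanSpace ℝ (Fin n) → EuclideanSpace ℝ (Fin n) → 𝕜) : Prop where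
  bounds : ∃ c δ : ℝ, 0 < δ ∧ (∀ x y, x ≠ y → ‖K x y‖ ≤ c * ‖x - y‖ ^ (-(n : ℝ))) ∧
    ∀ x y z, 2 * ‖x - z‖ < ‖x - y‖ →
      ‖K x y - K z y‖ + ‖K y x - K y z‖ ≤ c * ‖x - z‖ ^ δ * ‖x - y‖ ^ (-(n : ℝ) - δ)
  repr : ∀ (f : EuclideanSpace ℝ (Fin n) → 𝕜), (∀ m : ℕ, ContDiff ℝ m f) → HasCompactSupport f →
    ∀ h2 : MemLp f 2 volume, ∀ᵐ x ∂volume, x ∉ tsupport f → T (h2.toLp f) x = ∫ y, K x y * f y

open Classical in
/-- The maximal singular integral: the supremum over `ε > 0` of the absolute value of the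
truncated integral; a truncated integral that does not converge absolutely counts as infinite. -/
noncomputable def maxSing {n : ℕ} {𝕜 : Type} [RCLike 𝕜]
    (K : EuclideanSpace ℝ (Fin n) → EuclideanSpace ℝ (Fin n) → 𝕜)
    (g : EuclideanSpace ℝ (Fin n) → 𝕜) (x : EuclideanSpace ℝ (Fin n)) : ℝ≥0∞ :=
  ⨆ (ε : ℝ) (_ : 0 < ε),
    if IntegrableOn (fun y => K x y * g y) {y | ε < ‖y - x‖} volume then
      ‖∫ y in {y | ε < ‖y - x‖}, K x y * g y‖ₑ
    else ∞

end Pool.Agent.MP_6bb8b9_an.H2
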