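import Pool.Agent.MP_6bb8b9_an.H2.Main

/-!
Reduction of the general statements to Borel weights, and measurability of the maximal singular
integral.
-/

open MeasureTheory Set Filter
open scoped ENNReal NNReal

namespace Pool.Agent.MP_6bb8b9_an.H2

variable {n : ℕ} {𝕜 : Type} [RCLike 𝕜]

lemma eLpNorm_ennreal {q : ℝ} (hq : 0 < q) (g : Euc n → ℝ≥0∞) (μ : Measure (Euc n)) :
    eLpNorm g (ENNReal.ofReal q) μ = (∫⁻ x, g x ^ q ∂μ) ^ (1 / q) := by
  rw [eLpNorm_eq_lintegral_rpow_enorm_toReal (by simpa using hq) ENNReal.ofReal_ne_top,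
    ENNReal.toReal_ofReal hq.le]
  simp

lemma MB_of_maxOpNorm {ρ : (Euc n → ℝ≥0∞) → ℝ≥0∞} {q : ℝ} (hq : 0 < q)
    (h : maxOpNorm (assocNorm ρ) q < ∞) : MB ρ q (maxOpNorm (assocNorm ρ) q).toNNReal := by
  intro g hg hfin
  rw [ENNReal.coe_toNNReal h.ne, ← eLpNorm_ennreal hq, ← eLpNorm_ennreal hq]
  have hfin' : eLpNorm g (ENNReal.ofReal q) volume < ∞ := by
    rw [eLpNorm_ennreal hq]
    exact ENNReal.rpow_lt_top_of_nonneg (by positivity) hfin.ne
  set A := eLpNorm (maxOp (assocNorm ρ) g) (ENNReal.ofReal q) volume with hA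
  set B := eLpNorm g (ENNReal.ofReal q) volume with hB
  by_cases h0 : B = 0
  · obtain ⟨N, hN, -⟩ := sInf_lt_iff.1 h
    have := hN g hg hfin'
    rw [← hA, ← hB, h0, mul_zero] at this
    rw [h0, mul_zero]; exact this
  · rw [← ENNReal.div_le_iff h0 hfin'.ne]
    refine le_sInf fun N hN => ?_
    rw [ENNReal.div_le_iff h0 hfin'.ne]
    exact hN g hg hfin'

lemma ae_comp_smul {l : ℝ} (hl : 0 < l) {P : Euc n → Prop} (h : ∀ᵐ x ∂volume, P x) :
    ∀ᵐ x ∂volume, P (l • x) := by
  rw [ae_iff] at h ⊢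
  have := volume_preimage_smul hl {x : Euc n | ¬ P x}
  rw [h, mul_zero] at this
  exact this

lemma IsRINorm.localNorm_congr {ρ : (Euc n → ℝ≥0∞) → ℝ≥0∞} (hρ : IsRINorm ρ)
    {f g : Euc n → ℝ≥0∞} (hg : Measurable g) (h : f =ᵐ[volume] g) (a : Euc n) {l : ℝ}
    (hl : 0 < l) : localNorm ρ g a l = localNorm ρ f a l := by
  have h1 : (fun x => (cube a l).indicator g (l • x)) =ᵐ[volume]
      fun x => (cube a l).indicator f (l • x) := by
    filter_upwards [ae_comp_smul hl h] with x hx
    by_cases hc : l • x ∈ cube a l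
    · simp only [indicator_of_mem hc]; exact hx.symm
    · simp [hc]
  have h2 := (measurable_dil hg a l).aemeasurable (μ := volume)
  exact le_antisymm (hρ.mono _ _ h2 (h2.congr h1) h1.le) (hρ.mono _ _ (h2.congr h1) h2 h1.symm.le)

lemma avg_congr {f g : Euc n → ℝ≥0∞} (h : f =ᵐ[volume] g) (a : Euc n) (l : ℝ) :
    avg f a l = avg g a l := by
  unfold avg; rw [lintegral_congr_ae (ae_restrict_of_ae h)]

/-- A weight has a Borel version with finite integrals over cubes. -/
lemma exists_borel_weight {u : Euc n → ℝ≥0}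
    (hu : LocallyIntegrable (fun x => (u x : ℝ)) volume) :
    ∃ v : Euc n → ℝ≥0, Measurable v ∧ u =ᵐ[volume] v ∧
      ∀ a l, ∫⁻ x in cube a l, (v x : ℝ≥0∞) < ∞ := by
  have h1 : AEMeasurable u volume := by
    have := hu.aestronglyMeasurable.aemeasurable.real_toNNReal
    simpa using this
  refine ⟨h1.mk u, h1.measurable_mk, h1.ae_eq_mk, fun a l => ?_⟩
  have h2 : IntegrableOn (fun x => (u x : ℝ)) (cube a l) volume :=
    (hu.integrableOn_isCompact (isBounded_cube a l).isCompact_closure).mono_set subset_closure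
  have h3 := h2.2
  unfold HasFiniteIntegral at h3
  refine lt_of_eq_of_lt (lintegral_congr_ae ?_) h3
  filter_upwards [ae_restrict_of_ae h1.ae_eq_mk] with x hx
  rw [← hx]; simp

lemma exists_cube_superset {A : Set (Euc n)} (hA : Bornology.IsBounded A) :
    ∃ a l, A ⊆ cube a l := by
  obtain ⟨R, hR⟩ := hA.exists_norm_le
  refine ⟨WithLp.toLp 2 fun _ => -R, 2 * R + 1, fun x hx i => ?_⟩
  have := abs_le.1 ((abs_coord_le_norm x i).trans (hR x hx))
  simp only
  constructor <;> linarith [this.1, this.2]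

/-- The data needed on the function `f` of the weighted space. -/
lemma reduce_fun {p q : ℝ} (hpq : p.HolderConjugate q) {σ v : Euc n → ℝ≥0} (hv : Measurable v)
    (hσv : σ =ᵐ[volume] v) (hfin : ∀ a l, ∫⁻ x in cube a l, (v x : ℝ≥0∞) < ∞) {f : Euc n → 𝕜}
    (hf : MemLp f (ENNReal.ofReal p) (volume.withDensity fun x => (σ x : ℝ≥0∞))) :
    LocallyIntegrable (fun y => (σ y : ℝ) • f y) volume ∧ ∃ F : Euc n → ℝ≥0∞, Measurable F ∧
      (fun y => ‖(σ y : ℝ) • f y‖ₑ) =ᵐ[volume] (fun y => F y * v y) ∧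
      ∫⁻ x, F x ^ p * v x < ∞ ∧
      (∫⁻ x, F x ^ p * v x) ^ (1 / p) =
        eLpNorm f (ENNReal.ofReal p) (volume.withDensity fun x => (σ x : ℝ≥0∞)) := by
  have hp0 := hpq.pos
  have hv' : Measurable fun x => (v x : ℝ≥0∞) := hv.coe_nnreal_ennreal
  have hw : (volume.withDensity fun x => (σ x : ℝ≥0∞)) =
      volume.withDensity fun x => (v x : ℝ≥0∞) :=
    withDensity_congr_ae (by filter_upwards [hσv] with x hx; rw [hx])
  rw [hw] at hf ⊢
  have hm := hf.aestronglyMeasurable
  set F : Euc n → ℝ≥0∞ := fun x => ‖hm.mk f x‖ₑ with hF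
  have hFm : Measurable F := hm.stronglyMeasurable_mk.enorm
  have h1 : ∀ᵐ x ∂volume, (v x : ℝ≥0∞) ≠ 0 → f x = hm.mk f x :=
    (ae_withDensity_iff hv').1 hm.ae_eq_mk
  have h2 : (fun y => ‖(σ y : ℝ) • f y‖ₑ) =ᵐ[volume] (fun y => F y * v y) := by
    filter_upwards [h1, hσv] with x hx hx'
    rw [hx', enorm_smul, mul_comm]
    by_cases h0 : v x = 0
    · simp [h0]
    · rw [hx (by simpa using h0)]; simp [hF]
  have h3 : (∫⁻ x, F x ^ p * v x) ^ (1 / p) =
      eLpNorm f (ENNReal.ofReal p) (volume.withDensity fun x => (v x : ℝ≥0∞)) := by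
    rw [eLpNorm_congr_ae hm.ae_eq_mk, ← eLpNorm_enorm, eLpNorm_ennreal hp0,
      lintegral_withDensity_eq_lintegral_mul _ hv' (hFm.pow_const p)]
    simp_rw [Pi.mul_apply, mul_comm]
  have h4 : ∫⁻ x, F x ^ p * v x < ∞ := by
    have := hf.2
    rw [← h3] at this
    exact (ENNReal.rpow_lt_top_iff_of_pos (by positivity)).1 this
  refine ⟨?_, F, hFm, h2, h4, h3⟩
  have h5 : AEStronglyMeasurable (fun y => (σ y : ℝ) • f y) volume := by
    have := ((aestronglyMeasurable_withDensity_iff hv).1 hm)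
    refine this.congr ?_
    filter_upwards [hσv] with x hx
    rw [hx]
  refine (locallyIntegrable_iff).2 fun k hk => ⟨h5.restrict, ?_⟩
  obtain ⟨a, l, hal⟩ := exists_cube_superset hk.isBounded
  unfold HasFiniteIntegral
  refine lt_of_le_of_lt (lintegral_mono_set hal) ?_
  rw [lintegral_congr_ae (ae_restrict_of_ae h2), ← lintegral_indicator (measurableSet_cube a l)]
  have h6 := holder_weight hpq (G := (cube a l).indicator 1) hFm
    (measurable_one.indicator (measurableSet_cube a l)) hv'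
  refine lt_of_le_of_lt (le_trans (le_of_eq (lintegral_congr fun x => ?_)) h6) ?_
  · by_cases hx : x ∈ cube a l <;> simp [hx]
  · refine ENNReal.mul_lt_top (ENNReal.rpow_lt_top_of_nonneg (by positivity) h4.ne)
      (ENNReal.rpow_lt_top_of_nonneg (by have := hpq.symm.pos; positivity) ?_)
    refine ne_of_lt (lt_of_eq_of_lt ?_ (hfin a l))
    rw [← lintegral_indicator (measurableSet_cube a l)]
    refine lintegral_congr fun x => ?_
    by_cases hx : x ∈ cube a l <;> simp [hx, hpq.symm.pos]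

/-! ### Measurability of the maximal singular integral -/

lemma continuousOn_kernel₂ {K : Euc n → Euc n → 𝕜} {c δ : ℝ} (hK : KB K c δ) :
    ContinuousOn (fun z : Euc n × Euc n => K z.1 z.2) {z | z.1 ≠ z.2} := by
  rintro ⟨x, y⟩ hxy
  refine ContinuousAt.continuousWithinAt ?_
  have hxy' : 0 < ‖x - y‖ := norm_pos_iff.2 (sub_ne_zero.2 hxy)
  have h1 : Tendsto (fun z : Euc n × Euc n => K x z.2) (nhds (x, y)) (nhds (K x y)) := by
    have := (H5.continuousOn_kernel hK x).continuousAt
      (isOpen_compl_singleton.mem_nhds (show y ∈ ({x}ᶜ : Set (Euc n)) from Ne.symm hxy))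
    exact this.tendsto.comp continuous_snd.continuousAt
  have h2 : Tendsto (fun z : Euc n × Euc n => K z.1 z.2 - K x z.2) (nhds (x, y)) (nhds 0) := by
    rw [tendsto_zero_iff_norm_tendsto_zero]
    have hlim : Tendsto (fun z : Euc n × Euc n => c * ‖x - z.1‖ ^ δ * ‖x - z.2‖ ^ (-(n : ℝ) - δ))
        (nhds (x, y)) (nhds (c * ‖x - x‖ ^ δ * ‖x - y‖ ^ (-(n : ℝ) - δ))) := by
      refine ContinuousAt.tendsto (f := fun z : Euc n × Euc n =>
        c * ‖x - z.1‖ ^ δ * ‖x - z.2‖ ^ (-(n : ℝ) - δ)) ?_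
      refine (continuousAt_const.mul ?_).mul ?_
      · exact ContinuousAt.rpow_const (by fun_prop) (Or.inr hK.δ_pos.le)
      · exact ContinuousAt.rpow_const (by fun_prop) (Or.inl hxy'.ne')
    rw [sub_self, norm_zero, Real.zero_rpow hK.δ_pos.ne', mul_zero, zero_mul] at hlim
    refine squeeze_zero' (Eventually.of_forall fun z => norm_nonneg _) ?_ hlim
    have hev : ∀ᶠ z : Euc n × Euc n in nhds (x, y), 2 * ‖x - z.1‖ < ‖x - z.2‖ := by
      refine ContinuousAt.eventually_lt (by fun_prop) (by fun_prop) ?_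
      simpa using hxy'
    filter_upwards [hev] with z hz
    have := hK.reg x z.2 z.1 hz
    rw [norm_sub_rev]
    linarith [norm_nonneg (K z.2 x - K z.2 z.1)]
  have := h2.add h1
  simpa [ContinuousAt] using this

open Classical in
lemma measurable_trunc {K : Euc n → Euc n → 𝕜} {c δ : ℝ} (hK : KB K c δ) {g : Euc n → 𝕜}
    (hg : Measurable g) {ε : ℝ} (hε : 0 < ε) :
    Measurable fun x => if IntegrableOn (fun y => K x y * g y) {y | ε < ‖y - x‖} volume then
      ‖∫ y in {y | ε < ‖y - x‖}, K x y * g y‖ₑ else ∞ := by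
  set D : Set (Euc n × Euc n) := {z | ε < ‖z.2 - z.1‖} with hD
  have hDm : MeasurableSet D := (isOpen_lt continuous_const (by fun_prop)).measurableSet
  have hc : ContinuousOn (fun z : Euc n × Euc n => K z.1 z.2) D := by
    refine (continuousOn_kernel₂ hK).mono fun z hz h => ?_
    simp only [hD, mem_ofPred_eq, h, sub_self, norm_zero] at hz
    linarith
  have h1 : Measurable (D.piecewise (fun z : Euc n × Euc n => K z.1 z.2) fun _ => 0) :=
    hc.measurable_piecewise continuousOn_const hDm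
  set H : Euc n → Euc n → 𝕜 := fun x y =>
    D.piecewise (fun z : Euc n × Euc n => K z.1 z.2) (fun _ => 0) (x, y) * g y with hH
  have h2 : StronglyMeasurable (Function.uncurry H) :=
    (h1.mul (hg.comp measurable_snd)).stronglyMeasurable
  have h3 : ∀ x, H x = {y | ε < ‖y - x‖}.indicator fun y => K x y * g y := by
    intro x; funext y
    by_cases h : ε < ‖y - x‖
    · rw [indicator_of_mem (show y ∈ {y | ε < ‖y - x‖} from h)]
      simp only [hH]
      rw [piecewise_eq_of_mem _ _ _ (show (x, y) ∈ D from h)]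
    · rw [indicator_of_notMem (show y ∉ {y | ε < ‖y - x‖} from h)]
      simp only [hH]
      rw [piecewise_eq_of_notMem _ _ _ (show (x, y) ∉ D from h), zero_mul]
  have h4 : MeasurableSet {x | IntegrableOn (fun y => K x y * g y) {y | ε < ‖y - x‖} volume} := by
    have := measurableSet_integrable (μ := volume) h2
    simp_rw [h3, integrable_indicator_iff (H5.measurableSet_far _ ε)] at this
    exact this
  have h5 : Measurable fun x => ‖∫ y in {y | ε < ‖y - x‖}, K x y * g y‖ₑ := by
    have := (h2.integral_prod_right (ν := volume)).enorm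
    simp_rw [h3, integral_indicator (H5.measurableSet_far _ ε)] at this
    exact this
  exact Measurable.ite h4 h5 measurable_const

lemma maxSing_congr (K : Euc n → Euc n → 𝕜) {g g' : Euc n → 𝕜} (h : g =ᵐ[volume] g') :
    maxSing K g = maxSing K g' := by
  funext x
  unfold maxSing
  refine iSup_congr fun ε => iSup_congr fun _ => ?_
  have h1 : (fun y => K x y * g y) =ᵐ[volume.restrict {y | ε < ‖y - x‖}] fun y => K x y * g' y := by
    filter_upwards [ae_restrict_of_ae h] with y hy
    rw [hy]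
  rw [integral_congr_ae h1]
  congr 1
  exact propext (integrable_congr h1)

theorem measurable_maxSing {K : Euc n → Euc n → 𝕜} {c δ : ℝ} (hK : KB K c δ) {g : Euc n → 𝕜}
    (hg : AEStronglyMeasurable g volume) : Measurable (maxSing K g) := by
  classical
  rw [maxSing_congr K hg.ae_eq_mk]
  set g' := hg.mk g
  have hg' : Measurable g' := hg.stronglyMeasurable_mk.measurable
  set Φ : ℝ → Euc n → ℝ≥0∞ := fun ε x =>
    if IntegrableOn (fun y => K x y * g' y) {y | ε < ‖y - x‖} volume then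
      ‖∫ y in {y | ε < ‖y - x‖}, K x y * g' y‖ₑ else ∞ with hΦ
  have key : maxSing K g' = fun x => ⨆ (r : ℚ) (_ : (0 : ℝ) < r), Φ r x := by
    funext x
    refine le_antisymm (iSup₂_le fun ε hε => ?_)
      (iSup₂_le fun r hr => le_iSup₂_of_le (f := fun (ε : ℝ) (_ : 0 < ε) => Φ ε x) r hr le_rfl)
    set M := ⨆ (r : ℚ) (_ : (0 : ℝ) < r), Φ r x with hM
    have hle : ∀ r : ℚ, (0 : ℝ) < r → Φ r x ≤ M := fun r hr =>
      le_iSup₂_of_le (f := fun (r : ℚ) (_ : (0 : ℝ) < r) => Φ r x) r hr le_rfl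
    by_cases hI : IntegrableOn (fun y => K x y * g' y) {y | ε < ‖y - x‖} volume
    · rw [if_pos hI]
      obtain ⟨r, hanti, hr, hlim⟩ := Real.exists_seq_rat_strictAnti_tendsto ε
      have hU : (⋃ k, {y : Euc n | (r k : ℝ) < ‖y - x‖}) = {y | ε < ‖y - x‖} := by
        ext y
        simp only [mem_iUnion, mem_ofPred_eq]
        exact ⟨fun ⟨k, hk⟩ => (hr k).trans hk, fun h => (hlim.eventually_lt_const h).exists⟩
      have hmono : Monotone fun k => {y : Euc n | (r k : ℝ) < ‖y - x‖} := by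
        intro k k' hk y hy
        have h1 : (r k' : ℝ) ≤ r k := by exact_mod_cast hanti.antitone hk
        exact lt_of_le_of_lt h1 hy
      have hT := tendsto_setIntegral_of_monotone (μ := volume) (f := fun y => K x y * g' y)
        (fun k => H5.measurableSet_far x (r k)) hmono (by rw [hU]; exact hI)
      rw [hU] at hT
      refine le_of_tendsto' hT.enorm fun k => ?_
      refine le_trans (le_of_eq ?_) (hle (r k) (hε.trans (hr k)))
      simp only [hΦ]
      have hsub : {y : Euc n | (r k : ℝ) < ‖y - x‖} ⊆ {y | ε < ‖y - x‖} :=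
        fun y hy => (hr k).trans hy
      rw [if_pos (hI.mono_set hsub)]
    · rw [if_neg hI]
      obtain ⟨r, hr0, hr⟩ := exists_rat_btwn hε
      refine le_trans (le_of_eq ?_) (hle r hr0)
      simp only [hΦ]
      rw [if_neg fun h => hI (h.mono_set fun y hy => hr.trans hy)]
  rw [key]
  refine Measurable.iSup fun r => ?_
  by_cases hr : (0 : ℝ) < r
  · simp only [hr, iSup_pos]
    exact measurable_trunc hK hg' hr
  · simp [hr]

end Pool.Agent.MP_6bb8b9_an.H2
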