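import Pool.Agent.MP_6bb8b9_an.H2.Test
import Pool.Agent.MP_6bb8b9_an.H5.ItemA
import Pool.Agent.MP_6bb8b9_an.H40.Cotlar
import Pool.Agent.MP_6bb8b9_an.H80.WeakOne
import Pool.Agent.MP_6bb8b9_an.H83.Dom
import Pool.Agent.MP_6bb8b9_an.H51.Strong

/-!
Assembly: weak and strong two-weight bounds for the maximal singular integral, for Borel weights.
-/

open MeasureTheory Set Filter
open scoped ENNReal NNReal

namespace Pool.Agent.MP_6bb8b9_an.H2

variable {n : ℕ} {𝕜 : Type} [RCLike 𝕜]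

theorem IsCZO.dom (hn : 0 < n) {T} {K : Euc n → Euc n → 𝕜} (hT : IsCZO T K) : SpecDom K := by
  obtain ⟨c, δ, hK⟩ := hT.exists_KB
  have hM := H5.itemA1 hn
  have hA : SpecAnnuli n δ := H5.itemA2 hK.δ_pos
  have hI := H5.itemA3 hn hK
  have hC := H5.itemA4 hn hK
  exact H83.itemD hn hK hM hI hC (H80.itemC hn hK hA hI (H40.itemB hn hT hK hM hA hI))

lemma holder_weight {p q : ℝ} (hpq : p.HolderConjugate q) {F G σ : Euc n → ℝ≥0∞}
    (hF : Measurable F) (hG : Measurable G) (hσ : Measurable σ) :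
    ∫⁻ x, F x * σ x * G x ≤ (∫⁻ x, F x ^ p * σ x) ^ (1 / p) * (∫⁻ x, G x ^ q * σ x) ^ (1 / q) := by
  have h := ENNReal.lintegral_mul_le_Lp_mul_Lq (volume.withDensity σ) hpq hF.aemeasurable
    hG.aemeasurable
  rw [lintegral_withDensity_eq_lintegral_mul _ hσ (hF.mul hG),
    lintegral_withDensity_eq_lintegral_mul _ hσ (hF.pow_const p),
    lintegral_withDensity_eq_lintegral_mul _ hσ (hG.pow_const q)] at h
  simp only [Pi.mul_apply] at h
  simp_rw [mul_comm (σ _)] at h
  refine le_trans (le_of_eq (lintegral_congr fun x => by ring)) h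

lemma lintegral_sparseOp_mul (S : Finset (Euc n × ℝ)) (h : Euc n → ℝ≥0∞) {v : Euc n → ℝ≥0∞}
    (hv : Measurable v) :
    ∫⁻ x, sparseOp S h x * v x = ∑ Q ∈ S, (∫⁻ x in cube Q.1 Q.2, h x) *
      (∫⁻ x in cube Q.1 Q.2, v x) / volume (cube Q.1 Q.2) := by
  unfold sparseOp
  simp_rw [Finset.sum_mul]
  rw [lintegral_finsetSum _ fun Q _ =>
    (measurable_const.indicator (measurableSet_cube Q.1 Q.2)).mul hv]
  refine Finset.sum_congr rfl fun Q _ => ?_
  have : ∀ x, (cube Q.1 Q.2).indicator (fun _ => avg h Q.1 Q.2) x * v x =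
      (cube Q.1 Q.2).indicator (fun x => avg h Q.1 Q.2 * v x) x := by
    intro x; by_cases hx : x ∈ cube Q.1 Q.2 <;> simp [hx]
  simp_rw [this]
  rw [lintegral_indicator (measurableSet_cube _ _), lintegral_const_mul _ hv]
  unfold avg
  rw [div_eq_mul_inv, div_eq_mul_inv]; ring

lemma sparseOp_dual (S : Finset (Euc n × ℝ)) {h v : Euc n → ℝ≥0∞} (hh : Measurable h)
    (hv : Measurable v) : ∫⁻ x, sparseOp S h x * v x = ∫⁻ x, h x * sparseOp S v x := by
  simp_rw [mul_comm (h _)]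
  rw [lintegral_sparseOp_mul S h hv, lintegral_sparseOp_mul S v hh]
  exact Finset.sum_congr rfl fun Q _ => by rw [mul_comm]

lemma sparseOp_congr (S : Finset (Euc n × ℝ)) {h h' : Euc n → ℝ≥0∞} (hh : h =ᵐ[volume] h') :
    sparseOp S h = sparseOp S h' := by
  funext x
  unfold sparseOp avg
  refine Finset.sum_congr rfl fun Q _ => ?_
  rw [lintegral_congr_ae (ae_restrict_of_ae hh)]

/-- The testing estimate applied to the weight restricted to a set. -/
lemma test_restrict {p q η : ℝ} (hp : 0 < p) (h : SpecTest n p q η) :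
    ∃ C : ℝ≥0, ∀ ρ : (Euc n → ℝ≥0∞) → ℝ≥0∞, IsRINorm ρ → ∀ (u σ : Euc n → ℝ≥0∞),
    Measurable u → Measurable σ → (∀ a l, ∫⁻ x in cube a l, u x < ∞) →
    (∀ a l, ∫⁻ x in cube a l, σ x < ∞) → ∀ K N : ℝ≥0,
    (∀ a l, 0 < l → localNorm ρ (fun x => u x ^ (1 / p)) a l * avg σ a l ^ (1 / q) ≤ K) →
    MB ρ q N → ∀ S : Finset (Euc n × ℝ), Sparse η S → ∀ A, MeasurableSet A →
      (∫⁻ x, sparseOp S (A.indicator u) x ^ q * σ x) ^ (1 / q) ≤
        C * K * N * (∫⁻ x in A, u x) ^ (1 / q) := by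
  obtain ⟨C, hC⟩ := h
  refine ⟨C, fun ρ hρ u σ hu hσ hufin hσfin K N hK hN S hS A hA => ?_⟩
  rw [← lintegral_indicator hA]
  refine hC ρ hρ _ σ (hu.indicator hA) hσ (fun a l => lt_of_le_of_lt
    (lintegral_mono fun x => indicator_le_self _ _ x) (hufin a l)) hσfin K N
    (fun a l hl => le_trans ?_ (hK a l hl)) hN S hS
  gcongr
  refine hρ.localNorm_mono ((hu.indicator hA).pow_const _) (hu.pow_const _) a l fun x _ => ?_
  exact ENNReal.rpow_le_rpow (indicator_le_self _ _ x) (by positivity)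

theorem weak_main (hn : 0 < n) {p q : ℝ} (hpq : p.HolderConjugate q) {T}
    {K : Euc n → Euc n → 𝕜} (hT : IsCZO T K) :
    ∃ C : ℝ≥0, ∀ ρ : (Euc n → ℝ≥0∞) → ℝ≥0∞, IsRINorm ρ → ∀ (u σ : Euc n → ℝ≥0∞),
    Measurable u → Measurable σ → (∀ a l, ∫⁻ x in cube a l, u x < ∞) →
    (∀ a l, ∫⁻ x in cube a l, σ x < ∞) → ∀ B N : ℝ≥0,
    (∀ a l, 0 < l → localNorm ρ (fun x => u x ^ (1 / p)) a l * avg σ a l ^ (1 / q) ≤ B) →
    MB ρ q N → ∀ g : Euc n → 𝕜, LocallyIntegrable g volume → ∀ F : Euc n → ℝ≥0∞, Measurable F →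
    (fun y => ‖g y‖ₑ) =ᵐ[volume] (fun y => F y * σ y) →
      weakNorm (maxSing K g) p (volume.withDensity u) ≤
        C * B * N * (∫⁻ x, F x ^ p * σ x) ^ (1 / p) := by
  have hp0 := hpq.pos
  have hq0 := hpq.symm.pos
  obtain ⟨C0, η, m, hη, hdom⟩ := hT.dom hn
  obtain ⟨CT, hCT⟩ := test_restrict hp0 (test hn hpq hη)
  refine ⟨C0 * m * CT, fun ρ hρ u σ hu hσ hufin hσfin B N hB hN g hg F hF hgF => ?_⟩
  obtain ⟨S, hS, hx⟩ := hdom g hg
  simp_rw [sparseOp_congr _ hgF] at hx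
  set R : ℝ≥0∞ := (C0 * m * CT : ℝ≥0) * B * N * (∫⁻ x, F x ^ p * σ x) ^ (1 / p) with hR
  set G : ℕ → Euc n → ℝ≥0∞ := fun j x => C0 * ∑ c, sparseOp (S j c) (fun y => F y * σ y) x with hG
  have hGm : ∀ j, Measurable (G j) := fun j =>
    (Finset.measurable_sum _ fun c _ => measurable_sparseOp _ _).const_mul _
  refine iSup_le fun t => ?_
  have key : ∀ j, t * volume.withDensity u {x | (t : ℝ≥0∞) < G j x} ^ (1 / p) ≤ R := by
    intro j
    set A := {x | (t : ℝ≥0∞) < G j x} with hA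
    have hAm : MeasurableSet A := measurableSet_lt measurable_const (hGm j)
    rw [withDensity_apply _ hAm]
    set U := ∫⁻ x in A, u x with hU
    have hUfin : U ≠ ∞ := by
      have hsub : A ⊆ ⋃ c, ⋃ Q ∈ S j c, cube Q.1 Q.2 := by
        intro x hxA
        by_contra hnot
        simp only [mem_iUnion, not_exists] at hnot
        have : G j x = 0 := by
          simp only [hG]
          rw [Finset.sum_eq_zero, mul_zero]
          exact fun c _ => Finset.sum_eq_zero fun Q hQ => indicator_of_notMem (hnot c Q hQ) _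
        rw [hA, mem_ofPred_eq, this] at hxA
        exact absurd hxA not_lt_zero
      rw [hU, ← withDensity_apply _ hAm]
      refine ((measure_mono hsub).trans_lt ((measure_iUnion_fintype_le _ _).trans_lt
        (ENNReal.sum_lt_top.2 fun c _ => (measure_biUnion_finset_le _ _).trans_lt
          (ENNReal.sum_lt_top.2 fun Q _ => ?_)))).ne
      rw [withDensity_apply _ (measurableSet_cube _ _)]; exact hufin _ _
    have h1 : t * U ≤ R * U ^ (1 / q) := by
      calc t * U = ∫⁻ x, t * A.indicator u x := by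
            rw [lintegral_const_mul _ (hu.indicator hAm), lintegral_indicator hAm]
        _ ≤ ∫⁻ x, G j x * A.indicator u x := by
            refine lintegral_mono fun x => ?_
            by_cases hxA : x ∈ A
            · gcongr; exact le_of_lt hxA
            · simp [hxA]
        _ = C0 * ∑ c, ∫⁻ x, sparseOp (S j c) (fun y => F y * σ y) x * A.indicator u x := by
            simp only [hG]
            simp_rw [mul_assoc, Finset.sum_mul]
            rw [lintegral_const_mul' _ _ ENNReal.coe_ne_top, lintegral_finsetSum]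
            exact fun c _ => (measurable_sparseOp _ _).mul (hu.indicator hAm)
        _ ≤ C0 * ∑ _c : Fin m, (∫⁻ x, F x ^ p * σ x) ^ (1 / p) * (CT * B * N * U ^ (1 / q)) := by
            gcongr with c
            rw [sparseOp_dual _ (h := fun y => F y * σ y) (hF.mul hσ) (hu.indicator hAm)]
            refine (holder_weight hpq hF (measurable_sparseOp _ _) hσ).trans ?_
            gcongr
            exact hCT ρ hρ u σ hu hσ hufin hσfin B N hB hN _ (hS j c) A hAm
        _ = R * U ^ (1 / q) := by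
            simp only [hR, Finset.sum_const, Finset.card_univ, Fintype.card_fin, nsmul_eq_mul]
            push_cast; ring
    by_cases h0 : U = 0
    · rw [h0, ENNReal.zero_rpow_of_pos (by positivity)]; simp
    have h2 : U = U ^ (1 / p) * U ^ (1 / q) := by
      rw [← ENNReal.rpow_add _ _ h0 hUfin, hpq.one_div_add_one_div]; simp
    have h3 : U ^ (1 / q) ≠ 0 := (ENNReal.rpow_pos (pos_iff_ne_zero.2 h0) hUfin).ne'
    have h4 : U ^ (1 / q) ≠ ∞ := ENNReal.rpow_ne_top_of_nonneg (by positivity) hUfin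
    nth_rewrite 1 [h2] at h1
    rw [← mul_assoc] at h1
    exact (ENNReal.mul_le_mul_iff_left h3 h4).1 h1
  have hsub : {x | (t : ℝ≥0∞) < maxSing K g x} ⊆ ⋃ j0 : ℕ, ⋂ j ≥ j0, {x | (t : ℝ≥0∞) < G j x} := by
    intro x hxt
    obtain ⟨j0, hj0⟩ := eventually_atTop.1 (eventually_lt_of_lt_liminf (lt_of_lt_of_le hxt (hx x)))
    exact mem_iUnion.2 ⟨j0, mem_iInter₂.2 hj0⟩
  have hmono : Monotone fun j0 : ℕ => ⋂ j ≥ j0, {x | (t : ℝ≥0∞) < G j x} :=
    fun j0 j1 h => biInter_subset_biInter_left fun j hj => le_trans h hj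
  have h5 : (t : ℝ≥0∞) ^ p * volume.withDensity u {x | (t : ℝ≥0∞) < maxSing K g x} ≤ R ^ p := by
    refine le_trans (mul_le_mul_right (measure_mono hsub) _) ?_
    rw [hmono.measure_iUnion, ENNReal.mul_iSup]
    refine iSup_le fun j0 => ?_
    have h6 := ENNReal.rpow_le_rpow (key j0) hp0.le
    rw [ENNReal.mul_rpow_of_nonneg _ _ hp0.le, ← ENNReal.rpow_mul, one_div_mul_cancel hp0.ne',
      ENNReal.rpow_one] at h6
    refine le_trans ?_ h6
    gcongr
    exact biInter_subset_of_mem (le_refl j0)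
  have h7 := ENNReal.rpow_le_rpow h5 (show 0 ≤ 1 / p by positivity)
  rwa [ENNReal.mul_rpow_of_nonneg _ _ (by positivity), ← ENNReal.rpow_mul, ← ENNReal.rpow_mul,
    mul_one_div_cancel hp0.ne', ENNReal.rpow_one, ENNReal.rpow_one] at h7

theorem strong_main (hn : 0 < n) {p q : ℝ} (hpq : p.HolderConjugate q) {T}
    {K : Euc n → Euc n → 𝕜} (hT : IsCZO T K) :
    ∃ C : ℝ≥0, ∀ ρ τ : (Euc n → ℝ≥0∞) → ℝ≥0∞, IsRINorm ρ → IsRINorm τ →
    ∀ (u σ : Euc n → ℝ≥0∞), Measurable u → Measurable σ → (∀ a l, ∫⁻ x in cube a l, u x < ∞) →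
    (∀ a l, ∫⁻ x in cube a l, σ x < ∞) → ∀ B N N' : ℝ≥0,
    (∀ a l, 0 < l → localNorm ρ (fun x => u x ^ (1 / p)) a l * avg σ a l ^ (1 / q) ≤ B) →
    (∀ a l, 0 < l → localNorm τ (fun x => σ x ^ (1 / q)) a l * avg u a l ^ (1 / p) ≤ B) →
    MB ρ q N → MB τ p N' →
    ∀ g : Euc n → 𝕜, LocallyIntegrable g volume → ∀ F : Euc n → ℝ≥0∞, Measurable F →
    (fun y => ‖g y‖ₑ) =ᵐ[volume] (fun y => F y * σ y) → ∫⁻ x, F x ^ p * σ x < ∞ →
      (∫⁻ x, maxSing K g x ^ p ∂(volume.withDensity u)) ^ (1 / p) ≤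
        C * B * (N + N') * (∫⁻ x, F x ^ p * σ x) ^ (1 / p) := by
  have hp0 := hpq.pos
  have hq0 := hpq.symm.pos
  obtain ⟨C0, η, m, hη, hdom⟩ := hT.dom hn
  obtain ⟨C1, hC1⟩ := test_restrict hp0 (test hn hpq hη)
  obtain ⟨C2, hC2⟩ := test_restrict hq0 (test hn hpq.symm hη)
  obtain ⟨CS, hCS⟩ := H51.itemE (n := n) hpq
  refine ⟨C0 * m * (CS * (C1 + C2)),
    fun ρ τ hρ hτ u σ hu hσ hufin hσfin B N N' hB hB' hN hN' g hg F hF hgF hfin => ?_⟩
  obtain ⟨S, hS, hx⟩ := hdom g hg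
  simp_rw [sparseOp_congr _ hgF] at hx
  set R : ℝ≥0∞ := (CS * (C1 + C2) : ℝ≥0) * B * (N + N') * (∫⁻ x, F x ^ p * σ x) ^ (1 / p) with hR
  set G : ℕ → Euc n → ℝ≥0∞ := fun j x => C0 * ∑ c, sparseOp (S j c) (fun y => F y * σ y) x with hG
  have hGm : ∀ j, Measurable (G j) := fun j =>
    (Finset.measurable_sum _ fun c _ => measurable_sparseOp _ _).const_mul _
  have k1 : ∀ j c, ∫⁻ x, sparseOp (S j c) (fun y => F y * σ y) x ^ p * u x ≤ R ^ p := by
    intro j c
    have h1 := hCS (S j c) (hS j c).toLaminar u σ hu hσ hufin hσfin (C1 * B * N) (C2 * B * N')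
      (fun A hA => by
        push_cast; exact hC1 ρ hρ u σ hu hσ hufin hσfin B N hB hN _ (hS j c) A hA)
      (fun A hA => by
        push_cast; exact hC2 τ hτ σ u hσ hu hσfin hufin B N' hB' hN' _ (hS j c) A hA) F hF hfin
    have h2 : (∫⁻ x, sparseOp (S j c) (fun y => F y * σ y) x ^ p * u x) ^ (1 / p) ≤ R := by
      refine h1.trans ?_
      rw [hR]
      refine mul_le_mul_left ?_ _
      push_cast
      calc (CS : ℝ≥0∞) * (C1 * B * N + C2 * B * N')
          ≤ CS * ((C1 + C2) * B * N + (C1 + C2) * B * N') := by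
            gcongr
            · exact le_self_add
            · exact le_add_self
        _ = _ := by ring
    have h3 := ENNReal.rpow_le_rpow h2 hp0.le
    rwa [← ENNReal.rpow_mul, one_div_mul_cancel hp0.ne', ENNReal.rpow_one] at h3
  have k2 : ∀ j, ∫⁻ x, G j x ^ p ∂(volume.withDensity u) ≤ (C0 * m * R) ^ p := by
    intro j
    rw [lintegral_withDensity_eq_lintegral_mul _ hu ((hGm j).pow_const p)]
    have hne : (C0 : ℝ≥0∞) ^ p * (m : ℝ≥0∞) ^ (p - 1) ≠ ∞ :=
      ENNReal.mul_ne_top (ENNReal.rpow_ne_top_of_nonneg hp0.le ENNReal.coe_ne_top)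
        (ENNReal.rpow_ne_top_of_nonneg hpq.sub_one_pos.le (ENNReal.natCast_ne_top m))
    calc ∫⁻ x, (u * fun x => G j x ^ p) x
        ≤ ∫⁻ x, (C0 ^ p * (m : ℝ≥0∞) ^ (p - 1)) *
            ∑ c, sparseOp (S j c) (fun y => F y * σ y) x ^ p * u x := by
          refine lintegral_mono fun x => ?_
          simp only [Pi.mul_apply, hG]
          rw [ENNReal.mul_rpow_of_nonneg _ _ hp0.le, ← Finset.sum_mul]
          have := ENNReal.rpow_sum_le_const_mul_sum_rpow Finset.univ
            (fun c => sparseOp (S j c) (fun y => F y * σ y) x) hpq.lt.le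
          simp only [Finset.card_univ, Fintype.card_fin] at this
          calc _ ≤ u x * (C0 ^ p * ((m : ℝ≥0∞) ^ (p - 1) *
                ∑ c, sparseOp (S j c) (fun y => F y * σ y) x ^ p)) := by gcongr
            _ = _ := by ring
      _ = (C0 ^ p * (m : ℝ≥0∞) ^ (p - 1)) *
            ∑ c, ∫⁻ x, sparseOp (S j c) (fun y => F y * σ y) x ^ p * u x := by
          rw [lintegral_const_mul' _ _ hne, lintegral_finsetSum]
          exact fun c _ => ((measurable_sparseOp _ _).pow_const p).mul hu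
      _ ≤ (C0 ^ p * (m : ℝ≥0∞) ^ (p - 1)) * ∑ _c : Fin m, R ^ p := by
          gcongr with c; exact k1 j c
      _ = (C0 * m * R) ^ p := by
          simp only [Finset.sum_const, Finset.card_univ, Fintype.card_fin, nsmul_eq_mul]
          have : (m : ℝ≥0∞) ^ p = (m : ℝ≥0∞) ^ (p - 1) * m := by
            nth_rewrite 3 [← ENNReal.rpow_one m]
            rw [← ENNReal.rpow_add_of_nonneg _ _ hpq.sub_one_pos.le zero_le_one]; simp
          rw [ENNReal.mul_rpow_of_nonneg (C0 * m : ℝ≥0∞) R hp0.le,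
            ENNReal.mul_rpow_of_nonneg (C0 : ℝ≥0∞) m hp0.le, this]
          ring
  have k3 : ∫⁻ x, maxSing K g x ^ p ∂(volume.withDensity u) ≤ (C0 * m * R) ^ p := by
    calc ∫⁻ x, maxSing K g x ^ p ∂(volume.withDensity u)
        ≤ ∫⁻ x, liminf (fun j => G j x ^ p) atTop ∂(volume.withDensity u) := by
          refine lintegral_mono fun x => ?_
          have := (ENNReal.orderIsoRpow p hp0).liminf_apply (f := atTop) (u := fun j => G j x)
          simp only [ENNReal.orderIsoRpow_apply] at this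
          rw [← this]
          exact ENNReal.rpow_le_rpow (hx x) hp0.le
      _ ≤ liminf (fun j => ∫⁻ x, G j x ^ p ∂(volume.withDensity u)) atTop :=
          lintegral_liminf_le fun j => (hGm j).pow_const p
      _ ≤ _ := liminf_le_of_frequently_le' (Frequently.of_forall k2)
  have k4 := ENNReal.rpow_le_rpow k3 (show 0 ≤ 1 / p by positivity)
  rw [← ENNReal.rpow_mul (C0 * m * R), mul_one_div_cancel hp0.ne', ENNReal.rpow_one] at k4
  refine k4.trans (le_of_eq ?_)
  rw [hR]; push_cast; ring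

end Pool.Agent.MP_6bb8b9_an.H2
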