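import Mathlib

/-!
General lemmas: sums over covers, sums over disjoint sets, geometric sums, and the concave
potential that counts the jumps of the share of one value level.
-/

open MeasureTheory Set

namespace Pool.Agent.MP_6bb8b9_an.H2

lemma sum_le_sum_cover {ι ι' : Type*} (A : Finset ι) (B : Finset ι') (R : ι → ι' → Prop)
    [∀ i j, Decidable (R i j)] (f : ι → ℝ) (hf : ∀ i ∈ A, 0 ≤ f i) (h : ∀ i ∈ A, ∃ j ∈ B, R i j) :
    ∑ i ∈ A, f i ≤ ∑ j ∈ B, ∑ i ∈ A with R i j, f i := by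
  simp_rw [Finset.sum_filter]
  rw [Finset.sum_comm]
  refine Finset.sum_le_sum fun i hi => ?_
  obtain ⟨j, hj, hij⟩ := h i hi
  have := Finset.single_le_sum (f := fun j => if R i j then f i else 0) (s := B)
    (fun j _ => by split_ifs; exacts [hf i hi, le_rfl]) hj
  simpa [hij] using this

lemma sum_real_le_of_disjoint {α ι : Type*} [MeasurableSpace α] (lam : Measure α)
    [IsFiniteMeasure lam] (A : Finset ι) (Q : ι → Set α) (hQ : ∀ i, MeasurableSet (Q i))
    (hd : (A : Set ι).PairwiseDisjoint Q) {B : Set α} (hB : ∀ i ∈ A, Q i ⊆ B) :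
    ∑ i ∈ A, lam.real (Q i) ≤ lam.real B := by
  rw [← measureReal_biUnion_finset hd (fun i _ => hQ i)]
  exact measureReal_mono (iUnion₂_subset hB)

lemma sum_zpow_le (D : Finset ℤ) {y : ℝ} (hy : 0 ≤ y) (h : ∀ d ∈ D, (2 : ℝ) ^ d ≤ y) :
    ∑ d ∈ D, (2 : ℝ) ^ d ≤ 2 * y := by
  rcases D.eq_empty_or_nonempty with rfl | hD
  · simp; positivity
  set d0 := D.max' hD
  have hd0 : (2 : ℝ) ^ d0 ≤ y := h _ (D.max'_mem hD)
  have h1 : ∀ d ∈ D, (2 : ℝ) ^ d = 2 ^ d0 * (1 / 2) ^ (d0 - d).toNat := by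
    intro d hd
    have : d ≤ d0 := D.le_max' d hd
    rw [one_div, inv_pow, ← zpow_natCast, Int.toNat_of_nonneg (by omega), ← zpow_neg,
      ← zpow_add₀ two_ne_zero]
    congr 1; ring
  rw [Finset.sum_congr rfl h1, ← Finset.mul_sum]
  have hinj : Set.InjOn (fun d => (d0 - d).toNat) (D : Set ℤ) := by
    intro d hd d' hd' hdd
    have h1 : d ≤ d0 := D.le_max' d hd
    have h2 : d' ≤ d0 := D.le_max' d' hd'
    simp only at hdd; omega
  have h2 : ∑ d ∈ D, (1 / 2 : ℝ) ^ (d0 - d).toNat ≤ 2 := by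
    rw [← Finset.sum_image (f := fun k : ℕ => (1 / 2 : ℝ) ^ k) hinj]
    exact (summable_geometric_two.sum_le_tsum _ (fun _ _ => by positivity)).trans
      tsum_geometric_two.le
  calc (2 : ℝ) ^ d0 * ∑ d ∈ D, (1 / 2 : ℝ) ^ (d0 - d).toNat ≤ y * 2 := by gcongr
    _ = 2 * y := by ring

lemma min_le_rpow_mul_rpow {x y θ : ℝ} (hx : 0 ≤ x) (hy : 0 ≤ y) (h0 : 0 ≤ θ) (h1 : θ ≤ 1) :
    min x y ≤ x ^ θ * y ^ (1 - θ) := by
  have hm : 0 ≤ min x y := le_min hx hy
  calc min x y = (min x y) ^ θ * (min x y) ^ (1 - θ) := by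
        rw [← Real.rpow_add' hm (by norm_num)]; simp
    _ ≤ x ^ θ * y ^ (1 - θ) := by
        gcongr
        · exact min_le_left _ _
        · exact min_le_right _ _

section potential

variable {α : Type*} [MeasurableSpace α] (w W : Measure α) [IsFiniteMeasure w]
  [IsFiniteMeasure W] (θ : ℝ)

/-- The concave potential. -/
noncomputable def pot (A : Set α) : ℝ := (w.real A) ^ θ * (W.real A) ^ (1 - θ)

/-- The linear majorants of the potential. -/
noncomputable def lin (t : ℝ) (A : Set α) : ℝ :=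
  θ * (t ^ (θ - 1) * w.real A) + (1 - θ) * (t ^ θ * W.real A)

variable {θ}

omit [IsFiniteMeasure w] [IsFiniteMeasure W] in
lemma pot_nonneg (A : Set α) : 0 ≤ pot w W θ A := by unfold pot; positivity

omit [IsFiniteMeasure w] [IsFiniteMeasure W] in
lemma pot_le_lin (h0 : 0 < θ) (h1 : θ < 1) {t : ℝ} (ht : 0 < t) (A : Set α) :
    pot w W θ A ≤ lin w W θ t A := by
  have := Real.geom_mean_le_arith_mean2_weighted (w₁ := θ) (w₂ := 1 - θ)
    (p₁ := t ^ (θ - 1) * w.real A) (p₂ := t ^ θ * W.real A) h0.le (by linarith)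
    (by positivity) (by positivity) (by ring)
  refine le_trans (le_of_eq ?_) this
  unfold pot
  rw [Real.mul_rpow (by positivity) (by positivity), Real.mul_rpow (by positivity) (by positivity),
    ← Real.rpow_mul ht.le, ← Real.rpow_mul ht.le]
  have : t ^ ((θ - 1) * θ) * t ^ (θ * (1 - θ)) = 1 := by
    rw [← Real.rpow_add ht]
    have : (θ - 1) * θ + θ * (1 - θ) = 0 := by ring
    rw [this, Real.rpow_zero]
  calc w.real A ^ θ * W.real A ^ (1 - θ)
      = (t ^ ((θ - 1) * θ) * t ^ (θ * (1 - θ))) * (w.real A ^ θ * W.real A ^ (1 - θ)) := by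
        rw [this, one_mul]
    _ = _ := by ring

omit [IsFiniteMeasure w] [IsFiniteMeasure W] in
lemma lin_eq_pot {A : Set α} (hw : 0 < w.real A) (hW : 0 < W.real A) :
    lin w W θ (w.real A / W.real A) A = pot w W θ A := by
  unfold lin pot
  have e1 : (w.real A / W.real A) ^ (θ - 1) * w.real A = w.real A ^ θ * W.real A ^ (1 - θ) := by
    rw [Real.div_rpow hw.le hW.le, Real.rpow_sub_one hw.ne', show (1 - θ) = -(θ - 1) by ring,
      Real.rpow_neg hW.le]
    field_simp
  have e2 : (w.real A / W.real A) ^ θ * W.real A = w.real A ^ θ * W.real A ^ (1 - θ) := by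
    rw [Real.div_rpow hw.le hW.le, Real.rpow_sub hW, Real.rpow_one]
    field_simp
  rw [e1, e2]; ring

lemma lin_split {ι : Type*} (t : ℝ) (F : Finset ι) (y : ι → Set α)
    (hy : ∀ i, MeasurableSet (y i)) (hd : (F : Set ι).PairwiseDisjoint y) {V : Set α}
    (hV : ∀ i ∈ F, y i ⊆ V) :
    lin w W θ t V = ∑ i ∈ F, lin w W θ t (y i) + lin w W θ t (V \ ⋃ i ∈ F, y i) := by
  have hm : MeasurableSet (⋃ i ∈ F, y i) := Finset.measurableSet_biUnion _ fun i _ => hy i
  have hs : (⋃ i ∈ F, y i) ⊆ V := iUnion₂_subset hV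
  unfold lin
  rw [measureReal_sdiff hs hm, measureReal_sdiff hs hm,
    measureReal_biUnion_finset hd (fun i _ => hy i),
    measureReal_biUnion_finset hd (fun i _ => hy i), Finset.sum_add_distrib]
  simp only [← Finset.mul_sum]
  ring

/-- One step of the potential: a jump of the share by a factor `Λ` is paid by the potential. -/
lemma pot_step (h0 : 0 < θ) (h1 : θ < 1) (hwW : ∀ A, w.real A ≤ W.real A) {Λ : ℝ} (hΛ : 0 < Λ)
    (hΛθ : Λ ^ (θ - 1) ≤ θ / 2) {ι : Type*} (F : Finset ι) (y : ι → Set α)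
    (hy : ∀ i, MeasurableSet (y i)) (hd : (F : Set ι).PairwiseDisjoint y) {V : Set α}
    (hV : ∀ i ∈ F, y i ⊆ V)
    (hj : ∀ i ∈ F, Λ * w.real V * W.real (y i) ≤ w.real (y i) * W.real V) :
    ∑ i ∈ F, (pot w W θ (y i) + θ / 2 * w.real (y i)) + pot w W θ (V \ ⋃ i ∈ F, y i)
      ≤ pot w W θ V := by
  rcases (measureReal_nonneg (μ := w) (s := V)).eq_or_lt with hw | hw
  · have hz : ∀ A ⊆ V, w.real A = 0 := fun A hA =>
      le_antisymm ((measureReal_mono hA).trans hw.symm.le) measureReal_nonneg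
    have hp : ∀ A ⊆ V, pot w W θ A = 0 := fun A hA => by
      unfold pot; rw [hz A hA, Real.zero_rpow h0.ne', zero_mul]
    rw [hp V subset_rfl, hp _ sdiff_subset, Finset.sum_eq_zero]
    · simp
    · intro i hi; rw [hp _ (hV i hi), hz _ (hV i hi)]; simp
  have hW : 0 < W.real V := hw.trans_le (hwW V)
  set t := w.real V / W.real V with ht
  have ht0 : 0 < t := div_pos hw hW
  have ht1 : t ≤ 1 := (div_le_one hW).2 (hwW V)
  rw [← lin_eq_pot w W hw hW, ← ht, lin_split w W t F y hy hd hV]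
  refine add_le_add (Finset.sum_le_sum fun i hi => ?_) (pot_le_lin w W h0 h1 ht0 _)
  have hwi : 0 ≤ w.real (y i) := measureReal_nonneg
  have hWi : 0 ≤ W.real (y i) := measureReal_nonneg
  have htθ : 1 ≤ t ^ (θ - 1) := Real.one_le_rpow_of_pos_of_le_one_of_nonpos ht0 ht1 (by linarith)
  have hle : W.real (y i) ≤ w.real (y i) / (Λ * t) := by
    rw [le_div_iff₀ (by positivity), ht]
    have := hj i hi
    calc W.real (y i) * (Λ * (w.real V / W.real V))
        = Λ * w.real V * W.real (y i) / W.real V := by ring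
      _ ≤ w.real (y i) := by rw [div_le_iff₀ hW]; exact this
  have hpot : pot w W θ (y i) ≤ θ / 2 * (t ^ (θ - 1) * w.real (y i)) := by
    unfold pot
    calc w.real (y i) ^ θ * W.real (y i) ^ (1 - θ)
        ≤ w.real (y i) ^ θ * (w.real (y i) / (Λ * t)) ^ (1 - θ) := by
          gcongr
      _ = Λ ^ (θ - 1) * (t ^ (θ - 1) * w.real (y i)) := by
          rw [Real.div_rpow hwi (by positivity), Real.mul_rpow hΛ.le ht0.le,
            show θ - 1 = -(1 - θ) by ring, Real.rpow_neg hΛ.le, Real.rpow_neg ht0.le,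
            mul_div_assoc', ← Real.rpow_add' hwi (by norm_num)]
          simp only [add_sub_cancel, Real.rpow_one]
          field_simp
      _ ≤ θ / 2 * (t ^ (θ - 1) * w.real (y i)) := by gcongr
  unfold lin
  have h3 : 0 ≤ (1 - θ) * (t ^ θ * W.real (y i)) := by
    have : 0 ≤ 1 - θ := by linarith
    positivity
  have h4 : w.real (y i) ≤ t ^ (θ - 1) * w.real (y i) := le_mul_of_one_le_left hwi htθ
  nlinarith

lemma pot_add_le (h0 : 0 < θ) (h1 : θ < 1) (hwW : ∀ A, w.real A ≤ W.real A) {V A : Set α}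
    (hV : MeasurableSet V) (hVA : V ⊆ A) :
    pot w W θ V + pot w W θ (A \ V) ≤ pot w W θ A := by
  rcases (measureReal_nonneg (μ := w) (s := A)).eq_or_lt with hw | hw
  · have hz : ∀ B ⊆ A, w.real B = 0 := fun B hB =>
      le_antisymm ((measureReal_mono hB).trans hw.symm.le) measureReal_nonneg
    have hp : ∀ B ⊆ A, pot w W θ B = 0 := fun B hB => by
      unfold pot; rw [hz B hB, Real.zero_rpow h0.ne', zero_mul]
    rw [hp A subset_rfl, hp _ sdiff_subset, hp _ hVA]; simp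
  have hW : 0 < W.real A := hw.trans_le (hwW A)
  have ht0 : 0 < w.real A / W.real A := div_pos hw hW
  rw [← lin_eq_pot w W hw hW]
  have := lin_split w W (θ := θ) (w.real A / W.real A) ({()} : Finset Unit) (fun _ => V)
    (fun _ => hV) (by simp) (V := A) (fun _ _ => hVA)
  rw [this]
  simp only [Finset.sum_singleton, Finset.mem_singleton, iUnion_const]
  exact add_le_add (pot_le_lin w W h0 h1 ht0 _) (pot_le_lin w W h0 h1 ht0 _)

open Classical in
/-- The total mass of the jumps over a layered family is bounded by the potential. -/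
lemma pot_jumps (h0 : 0 < θ) (h1 : θ < 1) (hwW : ∀ A, w.real A ≤ W.real A) {Λ : ℝ} (hΛ : 0 < Λ)
    (hΛθ : Λ ^ (θ - 1) ≤ θ / 2) {ι : Type*} (y v : ι → Set α) (e : ι → ℤ)
    (hy : ∀ i, MeasurableSet (y i)) (hv : ∀ i, MeasurableSet (v i)) (F : Finset ι)
    (P1 : ∀ i ∈ F, y i ⊆ v i)
    (P2 : ∀ i ∈ F, ∀ j ∈ F, i ≠ j → v i = v j → Disjoint (y i) (y j))
    (P3 : ∀ i ∈ F, ∀ j ∈ F, e i ≤ e j → v i ≠ v j → Disjoint (v i) (v j) ∨ v j ⊆ v i)
    (P4 : ∀ i ∈ F, ∀ j ∈ F, e i ≤ e j → v i ≠ v j → Disjoint (y i) (v j) ∨ v j ⊆ y i)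
    (P5 : ∀ i ∈ F, ∀ j ∈ F, v i = v j → e i = e j)
    (P6 : ∀ i ∈ F, Λ * w.real (v i) * W.real (y i) ≤ w.real (y i) * W.real (v i)) :
    ∀ A : Set α, θ / 2 * ∑ i ∈ F with v i ⊆ A, w.real (y i) ≤ pot w W θ A := by
  induction F using Finset.strongInduction with
  | H F ih =>
  intro A
  rcases F.eq_empty_or_nonempty with rfl | hF
  · simpa using pot_nonneg w W A
  obtain ⟨i0, hi0, hmin⟩ := F.exists_min_image e hF
  set F0 := F.filter (fun i => v i = v i0) with hF0
  set F1 := F.filter (fun i => ¬ v i = v i0) with hF1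
  have hF1s : F1 ⊂ F := by
    refine Finset.filter_ssubset.2 ⟨i0, hi0, by simp⟩
  have hsub : ∀ i ∈ F1, i ∈ F := fun i hi => hF1s.1 hi
  have IH := ih F1 hF1s (fun i hi => P1 i (hsub i hi))
    (fun i hi j hj => P2 i (hsub i hi) j (hsub j hj))
    (fun i hi j hj => P3 i (hsub i hi) j (hsub j hj))
    (fun i hi j hj => P4 i (hsub i hi) j (hsub j hj))
    (fun i hi j hj => P5 i (hsub i hi) j (hsub j hj))
    (fun i hi => P6 i (hsub i hi))
  have hsplit : ∑ i ∈ F with v i ⊆ A, w.real (y i) =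
      ∑ i ∈ F0 with v i ⊆ A, w.real (y i) + ∑ i ∈ F1 with v i ⊆ A, w.real (y i) := by
    rw [hF0, hF1, Finset.filter_comm _ _ F, Finset.filter_comm (fun i => ¬ v i = v i0) _ F,
      Finset.sum_filter_add_sum_filter_not]
  by_cases hA : v i0 ⊆ A
  swap
  · have : F0.filter (fun i => v i ⊆ A) = ∅ := by
      refine Finset.filter_eq_empty_iff.2 fun i hi => ?_
      rw [(Finset.mem_filter.1 hi).2]; exact hA
    rw [hsplit, this]; simpa using IH A
  have hF0A : F0.filter (fun i => v i ⊆ A) = F0 := by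
    refine Finset.filter_true_of_mem fun i hi => ?_
    rw [(Finset.mem_filter.1 hi).2]; exact hA
  have hF0F : ∀ i ∈ F0, i ∈ F := fun i hi => (Finset.mem_filter.1 hi).1
  have hF0v : ∀ i ∈ F0, v i = v i0 := fun i hi => (Finset.mem_filter.1 hi).2
  have hd0 : (F0 : Set ι).PairwiseDisjoint y := fun i hi j hj hij =>
    P2 i (hF0F i hi) j (hF0F j hj) hij ((hF0v i hi).trans (hF0v j hj).symm)
  have hstep := pot_step w W h0 h1 hwW hΛ hΛθ F0 y hy hd0 (V := v i0)
    (fun i hi => hF0v i hi ▸ P1 i (hF0F i hi)) (fun i hi => hF0v i hi ▸ P6 i (hF0F i hi))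
  have hadd := pot_add_le w W h0 h1 hwW (hv i0) hA
  have hcov : ∑ i ∈ F1 with v i ⊆ A, w.real (y i) ≤
      ∑ i ∈ F1 with v i ⊆ A \ v i0, w.real (y i) +
      ∑ i ∈ F1 with v i ⊆ v i0 \ ⋃ j ∈ F0, y j, w.real (y i) +
      ∑ j ∈ F0, ∑ i ∈ F1 with v i ⊆ y j, w.real (y i) := by
    simp_rw [Finset.sum_filter]
    rw [Finset.sum_comm (s := F0), ← Finset.sum_add_distrib, ← Finset.sum_add_distrib]
    refine Finset.sum_le_sum fun i hi => ?_
    have hwi : 0 ≤ w.real (y i) := measureReal_nonneg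
    have hs3 : 0 ≤ ∑ j ∈ F0, if v i ⊆ y j then w.real (y i) else 0 :=
      Finset.sum_nonneg fun j _ => by split_ifs; exacts [hwi, le_rfl]
    have hs1 : 0 ≤ (if v i ⊆ A \ v i0 then w.real (y i) else 0) := by
      split_ifs; exacts [hwi, le_rfl]
    have hs2 : 0 ≤ (if v i ⊆ v i0 \ ⋃ j ∈ F0, y j then w.real (y i) else 0) := by
      split_ifs; exacts [hwi, le_rfl]
    by_cases hiA : v i ⊆ A
    swap
    · rw [if_neg hiA]; linarith
    rw [if_pos hiA]
    have hne : v i0 ≠ v i := fun h => (Finset.mem_filter.1 hi).2 h.symm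
    rcases P3 i0 hi0 i (hsub i hi) (hmin i (hsub i hi)) hne with hdis | hin
    · have : v i ⊆ A \ v i0 := subset_sdiff.2 ⟨hiA, hdis.symm⟩
      rw [if_pos this]; linarith
    by_cases hex : ∃ j ∈ F0, v i ⊆ y j
    · obtain ⟨j, hj, hij⟩ := hex
      have := Finset.single_le_sum (f := fun j => if v i ⊆ y j then w.real (y i) else 0) (s := F0)
        (fun j _ => by split_ifs; exacts [hwi, le_rfl]) hj
      simp only [if_pos hij] at this
      linarith
    · have : v i ⊆ v i0 \ ⋃ j ∈ F0, y j := by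
        refine subset_sdiff.2 ⟨hin, ?_⟩
        rw [disjoint_iUnion₂_right]
        intro j hj
        have he : e j ≤ e i := by
          rw [P5 j (hF0F j hj) i0 hi0 (hF0v j hj)]; exact hmin i (hsub i hi)
        rcases P4 j (hF0F j hj) i (hsub i hi) he (by rw [hF0v j hj]; exact hne) with h | h
        · exact h.symm
        · exact absurd ⟨j, hj, h⟩ hex
      rw [if_pos this]; linarith
  rw [hsplit, hF0A]
  have hθ2 : 0 ≤ θ / 2 := by linarith
  have I1 := IH (A \ v i0)
  have I2 := IH (v i0 \ ⋃ j ∈ F0, y j)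
  have I3 : θ / 2 * ∑ j ∈ F0, ∑ i ∈ F1 with v i ⊆ y j, w.real (y i) ≤
      ∑ j ∈ F0, pot w W θ (y j) := by
    rw [Finset.mul_sum]; exact Finset.sum_le_sum fun j _ => IH (y j)
  rw [Finset.sum_add_distrib, ← Finset.mul_sum] at hstep
  have := mul_le_mul_of_nonneg_left hcov hθ2
  nlinarith

end potential

end Pool.Agent.MP_6bb8b9_an.H2
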