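import Pool.Agent.MP_6bb8b9_an.H2.Cube

/-!
Rearrangement-invariant norms: subsets of prescribed measure, dilations, the Hoelder inequality,
and transfer of step functions from one cube to another.
-/

open MeasureTheory Set
open scoped ENNReal NNReal

namespace Pool.Agent.MP_6bb8b9_an.H2

variable {n : ℕ}

lemma nontrivial_euc (hn : 0 < n) : Nontrivial (Euc n) := by
  have : Nonempty (Fin n) := ⟨⟨0, hn⟩⟩
  infer_instance

lemma exists_subset_volume_eq (hn : 0 < n) {A : Set (Euc n)} (hA : MeasurableSet A)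
    (hb : Bornology.IsBounded A) {s : ℝ} (hs0 : 0 ≤ s) (hs : s ≤ volume.real A) :
    ∃ B ⊆ A, MeasurableSet B ∧ volume.real B = s := by
  have := nontrivial_euc hn
  obtain ⟨R, hR0, hR⟩ := hb.subset_ball_lt 0 (0 : Euc n)
  set f : ℝ → ℝ := fun r => volume.real (A ∩ Metric.ball 0 r) with hf
  set g : ℝ → ℝ := fun r => volume.real (Metric.ball (0 : Euc n) r) with hg
  have hgc : Continuous g := by
    have : g = fun r => (max r 0) ^ n * volume.real (Metric.ball (0 : Euc n) 1) := by
      funext r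
      have h1 : Metric.ball (0 : Euc n) r = Metric.ball 0 (max r 0) := by
        rcases le_total r 0 with h | h
        · rw [max_eq_right h, Metric.ball_eq_empty.2 h, Metric.ball_zero]
        · rw [max_eq_left h]
      simp only [hg, Measure.real]
      rw [h1, Measure.addHaar_ball _ _ (le_max_right r 0), ENNReal.toReal_mul,
        ENNReal.toReal_ofReal (by positivity)]
      simp
    rw [this]; fun_prop
  have hmono : ∀ r r', r ≤ r' → 0 ≤ f r' - f r ∧ f r' - f r ≤ g r' - g r := by
    intro r r' h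
    have hsub : Metric.ball (0 : Euc n) r ⊆ Metric.ball 0 r' := Metric.ball_subset_ball h
    have hfin : ∀ t, volume (A ∩ Metric.ball (0 : Euc n) t) ≠ ∞ := fun t =>
      ((measure_mono inter_subset_right).trans_lt measure_ball_lt_top).ne
    constructor
    · exact sub_nonneg.2 (measureReal_mono (inter_subset_inter_right _ hsub) (hfin _))
    · simp only [hf, hg]
      rw [← measureReal_sdiff (inter_subset_inter_right _ hsub)
          (hA.inter measurableSet_ball) (hfin _),
        ← measureReal_sdiff hsub measurableSet_ball measure_ball_lt_top.ne]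
      refine measureReal_mono (fun x hx => ⟨hx.1.2, fun h => hx.2 ⟨hx.1.1, h⟩⟩) ?_
      exact ((measure_mono sdiff_subset).trans_lt measure_ball_lt_top).ne
  have hfc : Continuous f := by
    refine continuous_iff_continuousAt.2 fun r => ?_
    rw [ContinuousAt, tendsto_iff_norm_sub_tendsto_zero]
    have h1 : Filter.Tendsto (fun r' => ‖g r' - g r‖) (nhds r) (nhds 0) :=
      tendsto_iff_norm_sub_tendsto_zero.1 hgc.continuousAt
    refine squeeze_zero (fun _ => norm_nonneg _) (fun r' => ?_) h1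
    rcases le_total r r' with h | h
    · obtain ⟨h2, h3⟩ := hmono r r' h
      rw [Real.norm_of_nonneg h2]; exact h3.trans (le_abs_self _)
    · obtain ⟨h2, h3⟩ := hmono r' r h
      rw [norm_sub_rev, norm_sub_rev (g r'), Real.norm_of_nonneg h2]
      exact h3.trans (le_abs_self _)
  have h0 : f 0 = 0 := by simp [hf]
  have h1 : f R = volume.real A := by simp only [hf]; rw [inter_eq_left.2 hR]
  obtain ⟨r, -, hr⟩ := intermediate_value_Icc hR0.le hfc.continuousOn
    (show s ∈ Icc (f 0) (f R) by rw [h0, h1]; exact ⟨hs0, hs⟩)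
  exact ⟨_, inter_subset_left, hA.inter measurableSet_ball, hr⟩

lemma volume_preimage_smul {l : ℝ} (hl : 0 < l) (A : Set (Euc n)) :
    volume ((fun x : Euc n => l • x) ⁻¹' A) = (ENNReal.ofReal (l ^ n))⁻¹ * volume A := by
  rw [Measure.addHaar_preimage_smul _ hl.ne', abs_of_pos (by positivity),
    ENNReal.ofReal_inv_of_pos (by positivity)]
  simp

lemma lintegral_comp_smul {l : ℝ} (hl : 0 < l) (F : Euc n → ℝ≥0∞) :
    ∫⁻ x, F (l • x) = (ENNReal.ofReal (l ^ n))⁻¹ * ∫⁻ x, F x := by
  have h := lintegral_map_equiv (μ := (volume : Measure (Euc n))) F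
    (Homeomorph.smulOfNeZero l hl.ne').toMeasurableEquiv
  have h2 : Measure.map (Homeomorph.smulOfNeZero l hl.ne').toMeasurableEquiv
      (volume : Measure (Euc n)) = (ENNReal.ofReal (l ^ n))⁻¹ • volume := by
    have := Measure.map_addHaar_smul (volume : Measure (Euc n)) hl.ne'
    rw [abs_of_pos (by positivity), ENNReal.ofReal_inv_of_pos (by positivity)] at this
    simpa using this
  rw [h2, lintegral_smul_measure] at h
  exact h.symm

lemma measurable_dil {f : Euc n → ℝ≥0∞} (hf : Measurable f) (a : Euc n) (l : ℝ) :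
    Measurable fun x => (cube a l).indicator f (l • x) :=
  (hf.indicator (measurableSet_cube a l)).comp (measurable_const_smul l)

variable {ρ : (Euc n → ℝ≥0∞) → ℝ≥0∞}

lemma IsRINorm.holder (hρ : IsRINorm ρ) {f g : Euc n → ℝ≥0∞} (hf : AEMeasurable f volume)
    (hfin : ρ f ≠ ∞) : ∫⁻ x, f x * g x ≤ ρ f * assocNorm ρ g := by
  by_cases h0 : ρ f = 0
  · have := (hρ.eq_zero_iff f hf).1 h0
    have h1 : (fun x => f x * g x) =ᵐ[volume] fun _ => 0 := by
      filter_upwards [this] with x hx; simp [hx]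
    rw [lintegral_congr_ae h1]; simp
  set c : ℝ≥0 := (ρ f).toNNReal⁻¹ with hc
  have hcc : (c : ℝ≥0∞) = (ρ f)⁻¹ := by
    rw [hc, ENNReal.coe_inv (by simpa [ENNReal.toNNReal_eq_zero_iff, h0] using hfin),
      ENNReal.coe_toNNReal hfin]
  have h1 : ρ (fun x => c * f x) ≤ 1 := by
    rw [hρ.smul c f hf, hcc, ENNReal.inv_mul_cancel h0 hfin]
  have h2 : ∫⁻ x, (c * f x) * g x ≤ assocNorm ρ g := by
    unfold assocNorm
    exact le_iSup_of_le (fun x => c * f x) (le_iSup_of_le (hf.const_mul _) (le_iSup_of_le h1 le_rfl))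
  simp_rw [mul_assoc] at h2
  rw [lintegral_const_mul' _ _ ENNReal.coe_ne_top, hcc] at h2
  calc ∫⁻ x, f x * g x = ρ f * ((ρ f)⁻¹ * ∫⁻ x, f x * g x) := by
        rw [← mul_assoc, ENNReal.mul_inv_cancel h0 hfin, one_mul]
    _ ≤ _ := by gcongr

lemma IsRINorm.holder_local (hρ : IsRINorm ρ) {f g : Euc n → ℝ≥0∞} (hf : Measurable f)
    (a : Euc n) {l : ℝ} (hl : 0 < l) (hfin : localNorm ρ f a l ≠ ∞) :
    (ENNReal.ofReal (l ^ n))⁻¹ * ∫⁻ x in cube a l, f x * g x ≤
      localNorm ρ f a l * localNorm (assocNorm ρ) g a l := by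
  have h := hρ.holder (g := fun x => (cube a l).indicator g (l • x))
    (measurable_dil hf a l).aemeasurable hfin
  refine le_trans (le_of_eq ?_) h
  rw [← lintegral_indicator (measurableSet_cube a l), ← lintegral_comp_smul hl]
  refine lintegral_congr fun x => ?_
  by_cases hx : l • x ∈ cube a l <;> simp [hx]

lemma IsRINorm.localNorm_mono (hρ : IsRINorm ρ) {f g : Euc n → ℝ≥0∞} (hf : Measurable f)
    (hg : Measurable g) (a : Euc n) (l : ℝ) (h : ∀ x ∈ cube a l, f x ≤ g x) :
    localNorm ρ f a l ≤ localNorm ρ g a l := by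
  refine hρ.mono _ _ (measurable_dil hf a l).aemeasurable (measurable_dil hg a l).aemeasurable
    (Filter.Eventually.of_forall fun x => ?_)
  by_cases hx : l • x ∈ cube a l
  · simp only [indicator_of_mem hx]; exact h _ hx
  · simp [hx]

lemma assocNorm_mono {g g' : Euc n → ℝ≥0∞} (h : ∀ x, g x ≤ g' x) :
    assocNorm ρ g ≤ assocNorm ρ g' := by
  unfold assocNorm
  refine iSup_mono fun f => iSup_mono fun _ => iSup_mono fun _ => lintegral_mono fun x => ?_
  gcongr; exact h x

lemma mul_assocNorm_le {g : Euc n → ℝ≥0∞} {c : ℝ≥0∞} (hc : c ≠ ∞) :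
    c * assocNorm ρ g ≤ assocNorm ρ fun x => c * g x := by
  unfold assocNorm
  simp_rw [ENNReal.mul_iSup]
  refine iSup_mono fun f => iSup_mono fun _ => iSup_mono fun _ => ?_
  rw [← lintegral_const_mul' _ _ hc]
  exact lintegral_mono fun x => le_of_eq (by ring)

/-! ### Step functions -/

/-- A step function with finitely many values. -/
noncomputable def step {α κ : Type*} (G : Finset κ) (c : κ → ℝ≥0∞) (A : κ → Set α) (x : α) :
    ℝ≥0∞ :=
  ∑ φ ∈ G, (A φ).indicator (fun _ => c φ) x

section step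

variable {α κ : Type*} {G : Finset κ} {c : κ → ℝ≥0∞} {A : κ → Set α}

lemma step_of_mem (hd : (G : Set κ).PairwiseDisjoint A) {φ : κ} (hφ : φ ∈ G) {x : α}
    (hx : x ∈ A φ) : step G c A x = c φ := by
  unfold step
  rw [Finset.sum_eq_single_of_mem φ hφ]
  · exact indicator_of_mem hx _
  · intro ψ hψ hne
    exact indicator_of_notMem (Set.disjoint_left.1 (hd hφ hψ hne.symm) hx) _

lemma step_of_notMem {x : α} (hx : ∀ φ ∈ G, x ∉ A φ) : step G c A x = 0 :=
  Finset.sum_eq_zero fun φ hφ => indicator_of_notMem (hx φ hφ) _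

lemma le_step {φ : κ} (hφ : φ ∈ G) {x : α} (hx : x ∈ A φ) : c φ ≤ step G c A x := by
  have := Finset.single_le_sum (f := fun φ => (A φ).indicator (fun _ => c φ) x)
    (fun _ _ => zero_le) hφ
  simp only [indicator_of_mem hx] at this
  exact this

lemma step_le (hd : (G : Set κ).PairwiseDisjoint A) {x : α} {y : ℝ≥0∞}
    (h : ∀ φ ∈ G, x ∈ A φ → c φ ≤ y) : step G c A x ≤ y := by
  by_cases hx : ∃ φ ∈ G, x ∈ A φ
  · obtain ⟨φ, hφ, hx⟩ := hx
    rw [step_of_mem hd hφ hx]; exact h φ hφ hx
  · push Not at hx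
    rw [step_of_notMem hx]; exact zero_le

lemma step_rpow (hd : (G : Set κ).PairwiseDisjoint A) {q : ℝ} (hq : 0 < q) (x : α) :
    step G c A x ^ q = step G (fun φ => c φ ^ q) A x := by
  by_cases hx : ∃ φ ∈ G, x ∈ A φ
  · obtain ⟨φ, hφ, hx⟩ := hx
    rw [step_of_mem hd hφ hx, step_of_mem hd hφ hx]
  · push Not at hx
    rw [step_of_notMem hx, step_of_notMem hx, ENNReal.zero_rpow_of_pos hq]

variable [MeasurableSpace α]

lemma measurable_step (hA : ∀ φ ∈ G, MeasurableSet (A φ)) : Measurable (step G c A) :=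
  Finset.measurable_sum _ fun φ hφ => measurable_const.indicator (hA φ hφ)

lemma lintegral_step (hA : ∀ φ ∈ G, MeasurableSet (A φ)) (μ : Measure α) :
    ∫⁻ x, step G c A x ∂μ = ∑ φ ∈ G, c φ * μ (A φ) := by
  unfold step
  rw [lintegral_finsetSum _ fun φ hφ => measurable_const.indicator (hA φ hφ)]
  exact Finset.sum_congr rfl fun φ hφ => lintegral_indicator_const (hA φ hφ) _

lemma measure_lt_step (hd : (G : Set κ).PairwiseDisjoint A) (hA : ∀ φ ∈ G, MeasurableSet (A φ))
    (μ : Measure α) (t : ℝ≥0∞) :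
    μ {x | t < step G c A x} = ∑ φ ∈ G, if t < c φ then μ (A φ) else 0 := by
  classical
  have : {x | t < step G c A x} = ⋃ φ ∈ G.filter (fun φ => t < c φ), A φ := by
    ext x
    simp only [mem_ofPred_eq, mem_iUnion, Finset.mem_filter, exists_prop]
    constructor
    · intro h
      by_cases hx : ∃ φ ∈ G, x ∈ A φ
      · obtain ⟨φ, hφ, hx⟩ := hx
        rw [step_of_mem hd hφ hx] at h
        exact ⟨φ, ⟨hφ, h⟩, hx⟩
      · push Not at hx
        rw [step_of_notMem hx] at h
        exact absurd h not_lt_zero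
    · rintro ⟨φ, ⟨hφ, h⟩, hx⟩
      rwa [step_of_mem hd hφ hx]
  rw [this, measure_biUnion_finset (hd.subset (by intro φ hφ; exact (Finset.mem_filter.1 hφ).1))
    (fun φ hφ => hA φ (Finset.mem_filter.1 hφ).1), Finset.sum_filter]

end step

lemma dil_step {κ : Type*} {G : Finset κ} {c : κ → ℝ≥0∞} {A : κ → Set (Euc n)} {a : Euc n} {l : ℝ}
    (hA : ∀ φ ∈ G, A φ ⊆ cube a l) :
    (fun x => (cube a l).indicator (step G c A) (l • x)) =
      step G c fun φ => (fun x : Euc n => l • x) ⁻¹' A φ := by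
  funext x
  by_cases hx : l • x ∈ cube a l
  · rw [indicator_of_mem hx]; rfl
  · rw [indicator_of_notMem hx, step_of_notMem]
    exact fun φ hφ h => hx (hA φ hφ h)

/-- Transfer of a step function: if the pieces of a step function on the cube `V` have relative
measure at most that of sets on which `f` is at least as large in the cube `Y`, then the local norm
of the step function on `V` is at most the local norm of `f` on `Y`. -/
lemma IsRINorm.transfer (hn : 0 < n) (hρ : IsRINorm ρ) {κ : Type*} (G : Finset κ)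
    (c : κ → ℝ≥0∞) (A E : κ → Set (Euc n)) {f : Euc n → ℝ≥0∞} (hf : Measurable f)
    {a b : Euc n} {l m : ℝ} (hl : 0 < l) (hm : 0 < m)
    (hA : ∀ φ ∈ G, MeasurableSet (A φ)) (hE : ∀ φ ∈ G, MeasurableSet (E φ))
    (dA : (G : Set κ).PairwiseDisjoint A) (dE : (G : Set κ).PairwiseDisjoint E)
    (sA : ∀ φ ∈ G, A φ ⊆ cube a l) (hc : ∀ φ ∈ G, ∀ x ∈ E φ, c φ ≤ f x)
    (hv : ∀ φ ∈ G, volume.real (A φ) / l ^ n ≤ volume.real (E φ ∩ cube b m) / m ^ n) :
    localNorm ρ (step G c A) a l ≤ localNorm ρ f b m := by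
  have hex : ∀ φ ∈ G, ∃ B ⊆ E φ ∩ cube b m, MeasurableSet B ∧
      volume.real B = volume.real (A φ) / l ^ n * m ^ n := by
    intro φ hφ
    refine exists_subset_volume_eq hn ((hE φ hφ).inter (measurableSet_cube b m))
      ((isBounded_cube b m).subset inter_subset_right) (by positivity) ?_
    rw [← le_div_iff₀ (by positivity)]; exact hv φ hφ
  choose! B hB1 hB2 hB3 using hex
  have dB : (G : Set κ).PairwiseDisjoint B := fun φ hφ ψ hψ hne =>
    (dE hφ hψ hne).mono ((hB1 φ hφ).trans inter_subset_left) ((hB1 ψ hψ).trans inter_subset_left)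
  have sB : ∀ φ ∈ G, B φ ⊆ cube b m := fun φ hφ => (hB1 φ hφ).trans inter_subset_right
  have h1 : localNorm ρ (step G c A) a l = localNorm ρ (step G c B) b m := by
    unfold localNorm
    refine hρ.rearr _ _ (measurable_dil (measurable_step hA) a l).aemeasurable
      (measurable_dil (measurable_step hB2) b m).aemeasurable fun t => ?_
    simp only [congrFun (dil_step (c := c) sA), congrFun (dil_step (c := c) sB)]
    rw [measure_lt_step (fun φ hφ ψ hψ hne => (dA hφ hψ hne).preimage _)
        (fun φ hφ => measurable_const_smul l (hA φ hφ)),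
      measure_lt_step (fun φ hφ ψ hψ hne => (dB hφ hψ hne).preimage _)
        (fun φ hφ => measurable_const_smul m (hB2 φ hφ))]
    refine Finset.sum_congr rfl fun φ hφ => ?_
    congr 1
    have fA : volume (A φ) ≠ ∞ :=
      ((measure_mono (sA φ hφ)).trans_lt (volume_cube_lt_top a l)).ne
    have fB : volume (B φ) ≠ ∞ :=
      ((measure_mono (sB φ hφ)).trans_lt (volume_cube_lt_top b m)).ne
    rw [volume_preimage_smul hl, volume_preimage_smul hm, ← ofReal_measureReal fA,
      ← ofReal_measureReal fB, hB3 φ hφ, ← ENNReal.ofReal_inv_of_pos (by positivity),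
      ← ENNReal.ofReal_inv_of_pos (by positivity), ← ENNReal.ofReal_mul (by positivity),
      ← ENNReal.ofReal_mul (by positivity)]
    congr 1; field_simp
  rw [h1]
  refine hρ.localNorm_mono (measurable_step hB2) hf b m fun x _ => step_le dB fun φ hφ hx => ?_
  exact hc φ hφ x ((hB1 φ hφ hx).1)

end Pool.Agent.MP_6bb8b9_an.H2
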