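import Pool.Agent.MP_6bb8b9_an.H2.RI1
import Pool.Agent.MP_6bb8b9_an.H2.Pot

/-!
Consequences of the boundedness of the maximal operator of the associate norm: the Carleson
embedding and the embedding of the space into the Lorentz space with second index one.
-/

open MeasureTheory Set
open scoped ENNReal NNReal

namespace Pool.Agent.MP_6bb8b9_an.H2

variable {n : ℕ} {ρ : (Euc n → ℝ≥0∞) → ℝ≥0∞}

/-- The maximal operator of the associate norm is bounded on `L^q` with constant `N`. -/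
def MB (ρ : (Euc n → ℝ≥0∞) → ℝ≥0∞) (q : ℝ) (N : ℝ≥0) : Prop :=
  ∀ g, AEMeasurable g volume → ∫⁻ x, g x ^ q < ∞ →
    (∫⁻ x, maxOp (assocNorm ρ) g x ^ q) ^ (1 / q) ≤ N * (∫⁻ x, g x ^ q) ^ (1 / q)

lemma localNorm_le_maxOp {τ : (Euc n → ℝ≥0∞) → ℝ≥0∞} (g : Euc n → ℝ≥0∞) {a : Euc n} {l : ℝ}
    (hl : 0 < l) {x : Euc n} (hx : x ∈ cube a l) : localNorm τ g a l ≤ maxOp τ g x := by
  unfold maxOp
  exact le_iSup_of_le a (le_iSup_of_le l (le_iSup_of_le hl (le_iSup_of_le hx le_rfl)))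

lemma MB.emb {q : ℝ} (hq : 0 < q) {N : ℝ≥0} (h : MB ρ q N) {g : Euc n → ℝ≥0∞}
    (hg : Measurable g) (hfin : ∫⁻ x, g x ^ q < ∞) {κ : Type*} (G : Finset κ) (a : κ → Euc n)
    (l : κ → ℝ) (F : κ → Set (Euc n)) (hl : ∀ i ∈ G, 0 < l i) (hF : ∀ i ∈ G, MeasurableSet (F i))
    (hs : ∀ i ∈ G, F i ⊆ cube (a i) (l i)) (hd : (G : Set κ).PairwiseDisjoint F) :
    ∑ i ∈ G, localNorm (assocNorm ρ) g (a i) (l i) ^ q * volume (F i) ≤
      (N : ℝ≥0∞) ^ q * ∫⁻ x, g x ^ q := by
  have h1 := ENNReal.rpow_le_rpow (h g hg.aemeasurable hfin) hq.le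
  rw [ENNReal.mul_rpow_of_nonneg _ _ hq.le, ← ENNReal.rpow_mul, ← ENNReal.rpow_mul,
    one_div_mul_cancel hq.ne', ENNReal.rpow_one, ENNReal.rpow_one] at h1
  refine le_trans ?_ h1
  rw [← lintegral_step hF]
  refine lintegral_mono fun x => step_le hd fun i hi hx => ?_
  exact ENNReal.rpow_le_rpow (localNorm_le_maxOp g (hl i hi) (hs i hi hx)) hq.le

lemma cube_mono (a : Euc n) {l l' : ℝ} (h : l ≤ l') : cube a l ⊆ cube a l' :=
  fun _ hx i => ⟨(hx i).1, by linarith [(hx i).2]⟩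

lemma smul_mem_cube_zero {l m : ℝ} (hl : 0 < l) {x : Euc n} :
    l • x ∈ cube (0 : Euc n) (l * m) ↔ x ∈ cube (0 : Euc n) m := by
  simp only [cube, mem_ofPred_eq, PiLp.smul_apply, smul_eq_mul, PiLp.zero_apply, zero_add]
  refine forall_congr' fun i => ?_
  rw [mul_nonneg_iff_of_pos_left hl, mul_lt_mul_iff_right₀ hl]

/-- Dyadic shells at the origin. -/
def shell (n : ℕ) (j : ℕ) : Set (Euc n) :=
  cube (0 : Euc n) ((1 / 2) ^ j) \ cube (0 : Euc n) ((1 / 2) ^ (j + 1))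

lemma measurableSet_shell (j : ℕ) : MeasurableSet (shell n j) :=
  (measurableSet_cube _ _).diff (measurableSet_cube _ _)

lemma shell_subset {i j : ℕ} (h : i ≤ j) : shell n j ⊆ cube (0 : Euc n) ((1 / 2) ^ i) :=
  sdiff_subset.trans (cube_mono _ (pow_le_pow_of_le_one (by norm_num) (by norm_num) h))

lemma shell_disjoint {i j : ℕ} (h : i ≠ j) : Disjoint (shell n i) (shell n j) := by
  wlog hij : i < j generalizing i j
  · exact (this h.symm (by omega)).symm
  exact Set.disjoint_left.2 fun x hx hx' => hx.2 (shell_subset hij hx')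

lemma smul_mem_shell (i : ℕ) {j : ℕ} {x : Euc n} (hx : x ∈ shell n j) :
    ((1 / 2 : ℝ) ^ i) • x ∈ shell n (i + j) := by
  constructor
  · rw [pow_add, smul_mem_cube_zero (by positivity)]; exact hx.1
  · rw [add_assoc, pow_add, smul_mem_cube_zero (by positivity)]; exact hx.2

lemma volume_real_shell (j : ℕ) :
    volume.real (shell n j) = ((1 / 2) ^ n) ^ j * (1 - (1 / 2) ^ n) := by
  unfold shell
  rw [measureReal_sdiff (cube_mono _ (pow_le_pow_of_le_one (by norm_num) (by norm_num) (by omega)))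
    (measurableSet_cube _ _) (volume_cube_lt_top _ _).ne]
  simp only [Measure.real]
  rw [volume_cube _ (by positivity), volume_cube _ (by positivity),
    ENNReal.toReal_ofReal (by positivity), ENNReal.toReal_ofReal (by positivity)]
  ring

lemma volume_shell_ne_top (j : ℕ) : volume (shell n j) ≠ ∞ :=
  ((measure_mono sdiff_subset).trans_lt (volume_cube_lt_top _ _)).ne

lemma half_pow_le (hn : 0 < n) : (1 / 2 : ℝ) ^ n ≤ 1 / 2 := by
  calc (1 / 2 : ℝ) ^ n ≤ (1 / 2) ^ 1 := pow_le_pow_of_le_one (by norm_num) (by norm_num) hn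
    _ = _ := pow_one _

/-- The truncated power function built from the shells. -/
noncomputable def gfun (n : ℕ) (q : ℝ) (J : ℕ) : Euc n → ℝ≥0∞ :=
  step (Finset.range J) (fun j => ENNReal.ofReal ((((2 : ℝ) ^ n) ^ (1 / q)) ^ j)) (shell n)

lemma gfun_weight {q : ℝ} (hq : 0 < q) (j : ℕ) :
    ENNReal.ofReal ((((2 : ℝ) ^ n) ^ (1 / q)) ^ j) ^ q * volume (shell n j) =
      ENNReal.ofReal (1 - (1 / 2) ^ n) := by
  rw [ENNReal.ofReal_rpow_of_nonneg (by positivity) hq.le, ← ofReal_measureReal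
    (volume_shell_ne_top j), ← ENNReal.ofReal_mul (by positivity), volume_real_shell]
  congr 1
  have : ((((2 : ℝ) ^ n) ^ (1 / q)) ^ j) ^ q = (2 ^ n) ^ j := by
    rw [← Real.rpow_natCast _ j, ← Real.rpow_mul (by positivity), ← Real.rpow_mul (by positivity),
      ← Real.rpow_natCast _ j]
    congr 1; field_simp
  rw [this, ← mul_assoc, ← mul_pow, ← mul_pow]; simp

lemma MB.assoc_gfun_le (hn : 0 < n) {q : ℝ} (hq : 1 ≤ q) {N : ℝ≥0} (h : MB ρ q N) {J : ℕ}
    (hJ : 0 < J) : assocNorm ρ (gfun n q J) ≤ 4 * N := by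
  have hq0 : 0 < q := by linarith
  have hd : ∀ J : ℕ, (Finset.range J : Set ℕ).PairwiseDisjoint (shell n) :=
    fun J i _ j _ hne => shell_disjoint hne
  have hr := half_pow_le hn
  have hint : ∫⁻ x, gfun n q (2 * J) x ^ q ≤ 2 * J := by
    unfold gfun
    simp_rw [step_rpow (hd _) hq0]
    rw [lintegral_step fun j _ => measurableSet_shell j]
    simp_rw [gfun_weight hq0]
    have : ENNReal.ofReal (1 - (1 / 2) ^ n) ≤ 1 := by
      rw [ENNReal.ofReal_le_one]
      have : (0 : ℝ) ≤ (1 / 2) ^ n := by positivity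
      linarith
    calc _ ≤ ∑ _j ∈ Finset.range (2 * J), (1 : ℝ≥0∞) := Finset.sum_le_sum fun _ _ => this
      _ = _ := by simp
  have h1 := h.emb hq0 (g := gfun n q (2 * J)) (measurable_step fun j _ => measurableSet_shell j)
    (hint.trans_lt (by finiteness)) (Finset.range J) (fun _ => 0) (fun i => (1 / 2) ^ i) (shell n)
    (fun _ _ => by positivity) (fun j _ => measurableSet_shell j) (fun j _ => shell_subset le_rfl)
    (hd J)
  have h2 : ∀ i ∈ Finset.range J, assocNorm ρ (gfun n q J) ^ q * (1 / 2) ≤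
      localNorm (assocNorm ρ) (gfun n q (2 * J)) 0 ((1 / 2) ^ i) ^ q * volume (shell n i) := by
    intro i hi
    have hi' := Finset.mem_range.1 hi
    have a1 : ENNReal.ofReal ((((2 : ℝ) ^ n) ^ (1 / q)) ^ i) * assocNorm ρ (gfun n q J) ≤
        localNorm (assocNorm ρ) (gfun n q (2 * J)) 0 ((1 / 2) ^ i) := by
      refine (mul_assocNorm_le ENNReal.ofReal_ne_top).trans (assocNorm_mono fun x => ?_)
      by_cases hx : ∃ j ∈ Finset.range J, x ∈ shell n j
      · obtain ⟨j, hj, hx⟩ := hx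
        have hj' := Finset.mem_range.1 hj
        have hx' := smul_mem_shell i hx
        rw [indicator_of_mem (shell_subset (by omega) hx')]
        unfold gfun
        rw [step_of_mem (hd _) hj hx, step_of_mem (hd _) (Finset.mem_range.2 (by omega)) hx',
          ← ENNReal.ofReal_mul (by positivity), pow_add]
      · push Not at hx
        unfold gfun
        rw [step_of_notMem hx]; simp
    have a2 : (1 / 2 : ℝ≥0∞) ≤ ENNReal.ofReal (1 - (1 / 2) ^ n) := by
      rw [show (1 / 2 : ℝ≥0∞) = ENNReal.ofReal (1 / 2) by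
        rw [ENNReal.ofReal_div_of_pos (by norm_num)]; simp]
      exact ENNReal.ofReal_le_ofReal (by linarith)
    calc assocNorm ρ (gfun n q J) ^ q * (1 / 2)
        ≤ assocNorm ρ (gfun n q J) ^ q * (ENNReal.ofReal ((((2 : ℝ) ^ n) ^ (1 / q)) ^ i) ^ q *
            volume (shell n i)) := by rw [gfun_weight hq0]; gcongr
      _ = (ENNReal.ofReal ((((2 : ℝ) ^ n) ^ (1 / q)) ^ i) * assocNorm ρ (gfun n q J)) ^ q *
            volume (shell n i) := by rw [ENNReal.mul_rpow_of_nonneg _ _ hq0.le]; ring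
      _ ≤ _ := by gcongr
  have h3 := (Finset.sum_le_sum h2).trans (h1.trans (mul_le_mul_right hint _))
  simp only [Finset.sum_const, Finset.card_range, nsmul_eq_mul] at h3
  have hJ0 : (J : ℝ≥0∞) ≠ 0 := by exact_mod_cast hJ.ne'
  have h4 : assocNorm ρ (gfun n q J) ^ q ≤ 4 * (N : ℝ≥0∞) ^ q := by
    have : (J : ℝ≥0∞) * (assocNorm ρ (gfun n q J) ^ q * (1 / 2)) ≤ J * ((N : ℝ≥0∞) ^ q * 2) :=
      h3.trans (le_of_eq (by ring))
    have h5 := (ENNReal.mul_le_mul_iff_right hJ0 (ENNReal.natCast_ne_top J)).1 this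
    calc assocNorm ρ (gfun n q J) ^ q = assocNorm ρ (gfun n q J) ^ q * (1 / 2) * 2 := by
          rw [mul_assoc, one_div, ENNReal.inv_mul_cancel (by norm_num) (by norm_num), mul_one]
      _ ≤ (N : ℝ≥0∞) ^ q * 2 * 2 := by gcongr
      _ = _ := by ring
  have h6 : (4 : ℝ≥0∞) * (N : ℝ≥0∞) ^ q ≤ (4 * N) ^ q := by
    rw [ENNReal.mul_rpow_of_nonneg _ _ hq0.le]
    gcongr
    calc (4 : ℝ≥0∞) = 4 ^ (1 : ℝ) := (ENNReal.rpow_one _).symm
      _ ≤ _ := ENNReal.rpow_le_rpow_of_exponent_le (by norm_num) hq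
  exact (ENNReal.rpow_le_rpow_iff hq0).1 (h4.trans h6)

lemma sum_zpow_le' {B : ℝ} (hB : 1 < B) (D : Finset ℤ) {d0 : ℤ} (h : ∀ d ∈ D, d ≤ d0) :
    ∑ d ∈ D, B ^ d ≤ (1 - B⁻¹)⁻¹ * B ^ d0 := by
  have hB0 : 0 < B := by linarith
  have h1 : ∀ d ∈ D, B ^ d = B ^ d0 * B⁻¹ ^ (d0 - d).toNat := by
    intro d hd
    have : d ≤ d0 := h d hd
    rw [inv_pow, ← zpow_natCast, Int.toNat_of_nonneg (by omega), ← zpow_neg,
      ← zpow_add₀ hB0.ne']
    congr 1; ring
  rw [Finset.sum_congr rfl h1, ← Finset.mul_sum, mul_comm]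
  have hinj : Set.InjOn (fun d => (d0 - d).toNat) (D : Set ℤ) := by
    intro d hd d' hd' hdd
    have h1 : d ≤ d0 := h d hd
    have h2 : d' ≤ d0 := h d' hd'
    simp only at hdd; omega
  gcongr
  rw [← Finset.sum_image (f := fun k : ℕ => B⁻¹ ^ k) hinj]
  have hB1 : B⁻¹ < 1 := inv_lt_one_of_one_lt₀ hB
  exact ((summable_geometric_of_lt_one (by positivity) hB1).sum_le_tsum _
    (fun _ _ => by positivity)).trans (tsum_geometric_of_lt_one (by positivity) hB1).le

/-- The space embeds in the Lorentz space with second index one. -/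
lemma MB.lorentz (hn : 0 < n) (hρ : IsRINorm ρ) {p q : ℝ} (hpq : p.HolderConjugate q) {N : ℝ≥0}
    (h : MB ρ q N) {f : Euc n → ℝ≥0∞} (hf : Measurable f) {b : Euc n} {m : ℝ} (hm : 0 < m)
    (hL : localNorm ρ f b m ≠ ∞) (I : Finset ℤ) (E : ℤ → Set (Euc n))
    (hE : ∀ φ, MeasurableSet (E φ)) (dE : Pairwise (Function.onFun Disjoint E))
    (hc : ∀ φ, ∀ x ∈ E φ, ENNReal.ofReal (((2 : ℝ) ^ φ) ^ (1 / p)) ≤ f x) :
    ∑ φ ∈ I, ((2 : ℝ) ^ φ * volume.real (E φ ∩ cube b m) / m ^ n) ^ (1 / p) ≤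
      (1 - ((2 : ℝ) ^ (1 / p))⁻¹)⁻¹ * 2 ^ n * 4 * N * (localNorm ρ f b m).toReal := by
  classical
  have hp0 := hpq.pos
  have hq0 := hpq.symm.pos
  have hp1 : 0 < 1 / p := by positivity
  set B : ℝ := (2 : ℝ) ^ (1 / p) with hB
  have hB1 : 1 < B := Real.one_lt_rpow (by norm_num) hp1
  have hB2 : 0 < 1 - B⁻¹ := by have := inv_lt_one_of_one_lt₀ hB1; linarith
  have hBz : ∀ φ : ℤ, ((2 : ℝ) ^ φ) ^ (1 / p) = B ^ φ := by
    intro φ
    rw [hB, ← Real.rpow_intCast, ← Real.rpow_intCast, ← Real.rpow_mul (by norm_num),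
      ← Real.rpow_mul (by norm_num), mul_comm]
  set r : ℝ := (1 / 2) ^ n with hr
  have hr0 : 0 < r := by positivity
  have hr1 : r ≤ 1 / 2 := half_pow_le hn
  set x : ℤ → ℝ := fun φ => volume.real (E φ ∩ cube b m) / m ^ n with hx
  have hx0 : ∀ φ, 0 ≤ x φ := fun φ => by simp only [hx]; positivity
  have hx1 : ∀ φ, x φ ≤ 1 := by
    intro φ
    simp only [hx]
    rw [div_le_one (by positivity)]
    refine (measureReal_mono inter_subset_right (volume_cube_lt_top b m).ne).trans (le_of_eq ?_)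
    rw [Measure.real, volume_cube _ hm.le, ENNReal.toReal_ofReal (by positivity)]
  set I' := I.filter fun φ => 0 < x φ with hI'
  have hred : ∑ φ ∈ I, ((2 : ℝ) ^ φ * volume.real (E φ ∩ cube b m) / m ^ n) ^ (1 / p) =
      ∑ φ ∈ I', B ^ φ * x φ ^ (1 / p) := by
    rw [hI', Finset.sum_filter]
    refine Finset.sum_congr rfl fun φ _ => ?_
    rw [mul_div_assoc, Real.mul_rpow (by positivity) (hx0 φ), hBz]
    split_ifs with h
    · rfl
    · have : x φ = 0 := le_antisymm (not_lt.1 h) (hx0 φ)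
      change B ^ φ * x φ ^ (1 / p) = 0
      rw [this, Real.zero_rpow hp1.ne', mul_zero]
  have hex : ∀ φ ∈ I', ∃ j : ℕ, r ^ (j + 1) < x φ ∧ x φ ≤ r ^ j := fun φ hφ =>
    exists_nat_pow_near_of_lt_one (Finset.mem_filter.1 hφ).2 (hx1 φ) hr0 (by linarith)
  choose! lev hlev using hex
  set Jset := I'.image lev with hJset
  have hex2 : ∀ j ∈ Jset, ∃ φ ∈ I', lev φ = j ∧ ∀ ψ ∈ I', lev ψ = j → ψ ≤ φ := by
    intro j hj
    obtain ⟨φ0, h0, h1⟩ := Finset.mem_image.1 hj
    obtain ⟨φ, hφ, hmax⟩ := (I'.filter fun φ => lev φ = j).exists_max_image id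
      ⟨φ0, Finset.mem_filter.2 ⟨h0, h1⟩⟩
    exact ⟨φ, (Finset.mem_filter.1 hφ).1, (Finset.mem_filter.1 hφ).2,
      fun ψ hψ hj => hmax ψ (Finset.mem_filter.2 ⟨hψ, hj⟩)⟩
  choose! top htop1 htop2 htop3 using hex2
  have hex3 : ∀ j : ℕ, ∃ A ⊆ shell n j, MeasurableSet A ∧ volume.real A = r ^ (j + 1) := by
    intro j
    refine exists_subset_volume_eq hn (measurableSet_shell j)
      ((isBounded_cube _ _).subset sdiff_subset) (by positivity) ?_
    rw [volume_real_shell, ← hr, pow_succ]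
    gcongr; linarith
  choose A hA1 hA2 hA3 using hex3
  have dA : (Jset : Set ℕ).PairwiseDisjoint A := fun i _ j _ hne =>
    (shell_disjoint hne).mono (hA1 i) (hA1 j)
  have sA : ∀ j, A j ⊆ cube (0 : Euc n) 1 := fun j => by
    simpa using (hA1 j).trans (shell_subset (Nat.zero_le j))
  have htr := hρ.transfer hn Jset (fun j => ENNReal.ofReal (B ^ top j)) A (fun j => E (top j)) hf
    (a := 0) (b := b) one_pos hm (fun j _ => hA2 j) (fun j _ => hE _) dA
    (fun i hi j hj hne => dE (fun h => hne (by rw [← htop2 i hi, ← htop2 j hj, h])))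
    (fun j _ => sA j) (fun j _ y hy => hBz (top j) ▸ hc _ y hy)
    (fun j hj => by
      rw [hA3, one_pow, div_one]
      have := (hlev _ (htop1 j hj)).1
      rw [htop2 j hj] at this
      exact this.le)
  obtain ⟨J, hJ0, hJ⟩ : ∃ J : ℕ, 0 < J ∧ ∀ j ∈ Jset, j < J :=
    ⟨Jset.sup id + 1, by omega, fun j hj => Nat.lt_succ_of_le (Finset.le_sup (f := id) hj)⟩
  have hH := hρ.holder_local (g := gfun n q J) (measurable_step (c := fun j =>
    ENNReal.ofReal (B ^ top j)) fun j (_ : j ∈ Jset) => hA2 j) (0 : Euc n) one_pos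
    (ne_top_of_le_ne_top hL htr)
  have hG : localNorm (assocNorm ρ) (gfun n q J) 0 1 ≤ 4 * N := by
    refine le_trans (assocNorm_mono fun y => ?_) (h.assoc_gfun_le hn hpq.symm.lt.le hJ0)
    rw [one_smul]; exact indicator_le_self _ _ y
  set s : ℝ := ((2 : ℝ) ^ n) ^ (1 / q) with hs
  have hlow : ENNReal.ofReal (∑ j ∈ Jset, B ^ top j * s ^ j * r ^ (j + 1)) ≤
      ∫⁻ y in cube (0 : Euc n) 1, step Jset (fun j => ENNReal.ofReal (B ^ top j)) A y *
        gfun n q J y := by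
    rw [ENNReal.ofReal_sum_of_nonneg fun j _ => by positivity,
      ← lintegral_indicator (measurableSet_cube _ _)]
    have e1 : ∀ j ∈ Jset, ENNReal.ofReal (B ^ top j * s ^ j * r ^ (j + 1)) =
        ENNReal.ofReal (B ^ top j * s ^ j) * volume (A j) := by
      intro j _
      rw [ENNReal.ofReal_mul (by positivity), ← hA3, ofReal_measureReal
        ((measure_mono (sA j)).trans_lt (volume_cube_lt_top _ _)).ne]
    rw [Finset.sum_congr rfl e1, ← lintegral_step fun j _ => hA2 j]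
    refine lintegral_mono fun y => step_le dA fun j hj hy => ?_
    rw [indicator_of_mem (sA j hy), step_of_mem dA hj hy, ENNReal.ofReal_mul (by positivity)]
    gcongr
    exact le_step (c := fun j => ENNReal.ofReal (s ^ j)) (Finset.mem_range.2 (hJ j hj)) (hA1 j hy)
  have hmain : ∑ j ∈ Jset, B ^ top j * s ^ j * r ^ (j + 1) ≤
      (localNorm ρ f b m).toReal * (4 * N) := by
    have : ENNReal.ofReal (∑ j ∈ Jset, B ^ top j * s ^ j * r ^ (j + 1)) ≤
        localNorm ρ f b m * (4 * N) := by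
      refine hlow.trans (le_trans (le_of_eq ?_) (hH.trans (mul_le_mul' htr hG)))
      simp
    have h2 := ENNReal.toReal_mono (by finiteness) this
    rw [ENNReal.toReal_ofReal (Finset.sum_nonneg fun j _ => by positivity)] at h2
    simpa using h2
  have hsr : ∀ j : ℕ, (r ^ j) ^ (1 / p) = 2 ^ n * (s ^ j * r ^ (j + 1)) := by
    intro j
    have e1 : s = r ^ (-(1 / q)) := by
      rw [hs, hr, Real.rpow_neg (by positivity), ← Real.inv_rpow (by positivity)]
      simp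
    have e2 : (2 : ℝ) ^ n * r = 1 := by rw [hr, ← mul_pow]; simp
    have e3 : (r ^ j) ^ (1 / p) = s ^ j * r ^ j := by
      rw [← mul_pow, e1, ← Real.rpow_add_one hr0.ne', ← Real.rpow_natCast r j,
        ← Real.rpow_mul hr0.le, ← Real.rpow_natCast _ j, ← Real.rpow_mul hr0.le, mul_comm]
      congr 2
      have := hpq.inv_add_inv_eq_one
      simp only [one_div]; linarith
    rw [e3, pow_succ]
    calc s ^ j * r ^ j = (2 ^ n * r) * (s ^ j * r ^ j) := by rw [e2, one_mul]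
      _ = _ := by ring
  rw [hred]
  have h1 := sum_le_sum_cover I' Jset (fun φ j => lev φ = j) (fun φ => B ^ φ * x φ ^ (1 / p))
    (fun φ _ => by have := hx0 φ; positivity) (fun φ hφ => ⟨_, Finset.mem_image_of_mem _ hφ, rfl⟩)
  have h2 : ∀ j ∈ Jset, ∑ φ ∈ I' with lev φ = j, B ^ φ * x φ ^ (1 / p) ≤
      (1 - B⁻¹)⁻¹ * 2 ^ n * (B ^ top j * s ^ j * r ^ (j + 1)) := by
    intro j hj
    calc ∑ φ ∈ I' with lev φ = j, B ^ φ * x φ ^ (1 / p)
        ≤ ∑ φ ∈ I' with lev φ = j, B ^ φ * (r ^ j) ^ (1 / p) := by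
          refine Finset.sum_le_sum fun φ hφ => ?_
          obtain ⟨h1, h2⟩ := Finset.mem_filter.1 hφ
          have := hx0 φ
          gcongr
          exact h2 ▸ (hlev φ h1).2
      _ = (∑ φ ∈ I' with lev φ = j, B ^ φ) * (r ^ j) ^ (1 / p) := by rw [Finset.sum_mul]
      _ ≤ ((1 - B⁻¹)⁻¹ * B ^ top j) * (r ^ j) ^ (1 / p) := by
          gcongr
          exact sum_zpow_le' hB1 _ fun φ hφ =>
            htop3 j hj φ (Finset.mem_filter.1 hφ).1 (Finset.mem_filter.1 hφ).2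
      _ = _ := by rw [hsr]; ring
  refine h1.trans ((Finset.sum_le_sum h2).trans ?_)
  rw [← Finset.mul_sum]
  calc _ ≤ (1 - B⁻¹)⁻¹ * 2 ^ n * ((localNorm ρ f b m).toReal * (4 * N)) := by gcongr
    _ = _ := by ring

end Pool.Agent.MP_6bb8b9_an.H2
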