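import Pool.Agent.MP_6bb8b9_an.H2.Cube

/-!
Interfaces between the parts of the proof, as propositions.
-/

open MeasureTheory Set Filter
open scoped ENNReal NNReal

namespace Pool.Agent.MP_6bb8b9_an.H2

variable {n : ℕ} {𝕜 : Type} [RCLike 𝕜]

/-- Kernel bounds with constants `c` and `δ`. -/
structure KB (K : Euc n → Euc n → 𝕜) (c δ : ℝ) : Prop where
  c_nonneg : 0 ≤ c
  δ_pos : 0 < δ
  size : ∀ x y, x ≠ y → ‖K x y‖ ≤ c * ‖x - y‖ ^ (-(n : ℝ))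
  reg : ∀ x y z, 2 * ‖x - z‖ < ‖x - y‖ →
    ‖K x y - K z y‖ + ‖K y x - K y z‖ ≤ c * ‖x - z‖ ^ δ * ‖x - y‖ ^ (-(n : ℝ) - δ)

lemma IsCZO.exists_KB {T} {K : Euc n → Euc n → 𝕜} (h : IsCZO T K) : ∃ c δ, KB K c δ := by
  obtain ⟨c, δ, hδ, h1, h2⟩ := h.bounds
  refine ⟨max c 0, δ, le_max_right _ _, hδ, fun x y hxy => (h1 x y hxy).trans ?_,
    fun x y z hxy => (h2 x y z hxy).trans ?_⟩
  · gcongr; exact le_max_left _ _
  · gcongr; exact le_max_left _ _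

/-- Centered maximal function over balls, normalized by `r ^ n`. -/
noncomputable def Mx (h : Euc n → ℝ≥0∞) (x : Euc n) : ℝ≥0∞ :=
  ⨆ (r : ℝ) (_ : 0 < r), (∫⁻ y in Metric.ball x r, h y) / ENNReal.ofReal (r ^ n)

/-- Truncated singular integral. -/
noncomputable def Tr (K : Euc n → Euc n → 𝕜) (g : Euc n → 𝕜) (x : Euc n) (ε : ℝ) : 𝕜 :=
  ∫ y in {y | ε < ‖y - x‖}, K x y * g y

/-- Weak type (1,1) of the maximal function. -/
def SpecMWeak (n : ℕ) : Prop :=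
  ∃ C : ℝ≥0, ∀ h : Euc n → ℝ≥0∞, AEMeasurable h volume → ∀ t : ℝ≥0,
    t * volume {x | (t : ℝ≥0∞) < Mx h x} ≤ C * ∫⁻ x, h x

/-- Sum over dyadic annuli. -/
def SpecAnnuli (n : ℕ) (δ : ℝ) : Prop :=
  ∃ C : ℝ≥0, ∀ h : Euc n → ℝ≥0∞, AEMeasurable h volume → ∀ (x : Euc n) (r : ℝ), 0 < r →
    ∫⁻ y in {y | r ≤ ‖y - x‖}, ENNReal.ofReal (r ^ δ * ‖y - x‖ ^ (-(n : ℝ) - δ)) * h y
      ≤ C * Mx h x

/-- Measurability of the kernel in the second variable, and convergence of the truncated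
integrals of integrable functions. -/
def SpecInt (K : Euc n → Euc n → 𝕜) : Prop :=
  (∀ x, AEStronglyMeasurable (K x) volume) ∧
  ∀ g : Euc n → 𝕜, Integrable g volume → ∀ (x : Euc n) (ε : ℝ), 0 < ε →
    IntegrableOn (fun y => K x y * g y) {y | ε < ‖y - x‖} volume

/-- Truncated integrals at two close points differ by the maximal function. -/
def SpecCompare (K : Euc n → Euc n → 𝕜) : Prop :=
  ∃ C : ℝ≥0, ∀ g : Euc n → 𝕜, Integrable g volume → ∀ (x x' : Euc n) (ε : ℝ), 0 < ε →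
    2 * ‖x - x'‖ ≤ ε → ‖Tr K g x ε - Tr K g x' ε‖ₑ ≤ C * Mx (fun y => ‖g y‖ₑ) x'

/-- Weak `L^2` bound of the maximal singular integral on bounded functions of bounded support. -/
def SpecWeak2 (K : Euc n → Euc n → 𝕜) : Prop :=
  ∃ A C : ℝ≥0, ∀ g : Euc n → 𝕜, AEStronglyMeasurable g volume →
    Bornology.IsBounded (Function.support g) → ∀ t : ℝ≥0, (∀ᵐ x ∂volume, ‖g x‖ₑ ≤ t) →
      (t : ℝ≥0∞) ^ 2 * volume {x | (A * t : ℝ≥0∞) < maxSing K g x} ≤ C * ∫⁻ x, ‖g x‖ₑ ^ 2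

/-- Weak type (1,1) of the maximal singular integral. -/
def SpecWeak11 (K : Euc n → Euc n → 𝕜) : Prop :=
  ∃ C : ℝ≥0, ∀ g : Euc n → 𝕜, Integrable g volume →
    Bornology.IsBounded (Function.support g) → ∀ t : ℝ≥0,
      t * volume {x | (t : ℝ≥0∞) < maxSing K g x} ≤ C * ∫⁻ x, ‖g x‖ₑ

/-- Pointwise sparse domination of the maximal singular integral. -/
def SpecDom (K : Euc n → Euc n → 𝕜) : Prop :=
  ∃ (C : ℝ≥0) (η : ℝ) (m : ℕ), 0 < η ∧ ∀ g : Euc n → 𝕜, LocallyIntegrable g volume →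
    ∃ S : ℕ → Fin m → Finset (Euc n × ℝ), (∀ j c, Sparse η (S j c)) ∧
      ∀ x, maxSing K g x ≤
        liminf (fun j => C * ∑ c, sparseOp (S j c) (fun y => ‖g y‖ₑ) x) atTop

/-- Two restricted bounds give the strong two-weight bound for the operator of a laminar family. -/
def SpecStrong (n : ℕ) (p q : ℝ) : Prop :=
  ∃ C : ℝ≥0, ∀ (S : Finset (Euc n × ℝ)), Laminar S → ∀ (u σ : Euc n → ℝ≥0∞),
    Measurable u → Measurable σ → (∀ a l, ∫⁻ x in cube a l, u x < ∞) →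
    (∀ a l, ∫⁻ x in cube a l, σ x < ∞) → ∀ T₁ T₂ : ℝ≥0,
    (∀ A, MeasurableSet A →
      (∫⁻ x, sparseOp S (A.indicator u) x ^ q * σ x) ^ (1 / q) ≤ T₁ * (∫⁻ x in A, u x) ^ (1 / q)) →
    (∀ A, MeasurableSet A →
      (∫⁻ x, sparseOp S (A.indicator σ) x ^ p * u x) ^ (1 / p) ≤ T₂ * (∫⁻ x in A, σ x) ^ (1 / p)) →
    ∀ f : Euc n → ℝ≥0∞, Measurable f → ∫⁻ x, f x ^ p * σ x < ∞ →
      (∫⁻ x, sparseOp S (fun y => f y * σ y) x ^ p * u x) ^ (1 / p)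
        ≤ C * (T₁ + T₂) * (∫⁻ x, f x ^ p * σ x) ^ (1 / p)

/-- The testing estimate under the one-sided bump condition. -/
def SpecTest (n : ℕ) (p q η : ℝ) : Prop :=
  ∃ C : ℝ≥0, ∀ ρ : (Euc n → ℝ≥0∞) → ℝ≥0∞, IsRINorm ρ → ∀ (u σ : Euc n → ℝ≥0∞),
    Measurable u → Measurable σ → (∀ a l, ∫⁻ x in cube a l, u x < ∞) →
    (∀ a l, ∫⁻ x in cube a l, σ x < ∞) → ∀ K N : ℝ≥0,
    (∀ a l, 0 < l → localNorm ρ (fun x => u x ^ (1 / p)) a l * avg σ a l ^ (1 / q) ≤ K) →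
    (∀ g, AEMeasurable g volume → ∫⁻ x, g x ^ q < ∞ →
      (∫⁻ x, maxOp (assocNorm ρ) g x ^ q) ^ (1 / q) ≤ N * (∫⁻ x, g x ^ q) ^ (1 / q)) →
    ∀ S : Finset (Euc n × ℝ), Sparse η S →
      (∫⁻ x, sparseOp S u x ^ q * σ x) ^ (1 / q) ≤ C * K * N * (∫⁻ x, u x) ^ (1 / q)

end Pool.Agent.MP_6bb8b9_an.H2
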