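import Pool.Agent.MP_6bb8b9_an.H2.RI2
import Pool.Agent.MP_6bb8b9_an.H2.Core4
import Pool.Agent.MP_6bb8b9_an.H2.Spec

/-!
The testing estimate for sparse operators under the one-sided bump condition.
-/

open MeasureTheory Set
open scoped ENNReal NNReal

namespace Pool.Agent.MP_6bb8b9_an.H2

variable {n : ℕ} {ρ : (Euc n → ℝ≥0∞) → ℝ≥0∞}

/-- The set where the weight has dyadic size `2 ^ φ`. -/
def lev (u : Euc n → ℝ≥0∞) (φ : ℤ) : Set (Euc n) :=
  {x | ENNReal.ofReal ((2 : ℝ) ^ φ) ≤ u x ∧ u x < ENNReal.ofReal ((2 : ℝ) ^ (φ + 1))}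

lemma measurableSet_lev {u : Euc n → ℝ≥0∞} (hu : Measurable u) (φ : ℤ) :
    MeasurableSet (lev u φ) :=
  (measurableSet_le measurable_const hu).inter (measurableSet_lt hu measurable_const)

lemma lev_disjoint (u : Euc n → ℝ≥0∞) : Pairwise (Function.onFun Disjoint (lev u)) := by
  intro φ ψ hne
  wlog h : φ < ψ generalizing φ ψ
  · exact (this hne.symm (by omega)).symm
  refine Set.disjoint_left.2 fun x hx hx' => ?_
  have h1 : ENNReal.ofReal ((2 : ℝ) ^ (φ + 1)) ≤ ENNReal.ofReal ((2 : ℝ) ^ ψ) :=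
    ENNReal.ofReal_le_ofReal (zpow_le_zpow_right₀ (by norm_num) (by omega))
  exact absurd (hx.2.trans_le (h1.trans hx'.1)) (lt_irrefl _)

/-- The step approximation of the weight from below. -/
noncomputable def appr (u : Euc n → ℝ≥0∞) (M : ℕ) : Euc n → ℝ≥0∞ :=
  step (Finset.Icc (-(M : ℤ)) M) (fun φ => ENNReal.ofReal ((2 : ℝ) ^ φ)) (lev u)

lemma appr_mono (u : Euc n → ℝ≥0∞) : Monotone (appr u) := by
  intro M M' h x
  unfold appr step
  exact Finset.sum_le_sum_of_subset (Finset.Icc_subset_Icc (by omega) (by omega))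

lemma exists_appr {u : Euc n → ℝ≥0∞} (hu : Measurable u) {A : Set (Euc n)}
    (hfin : ∫⁻ x in A, u x < ∞) :
    ∃ M0 : ℕ, ∀ M ≥ M0, ∫⁻ x in A, u x ≤ 4 * ∫⁻ x in A, appr u M x := by
  have hm : ∀ M, Measurable (appr u M) := fun M => measurable_step fun φ _ => measurableSet_lev hu φ
  have h1 : ∫⁻ x in A, u x ≤ 2 * ⨆ M, ∫⁻ x in A, appr u M x := by
    rw [← lintegral_iSup hm (appr_mono u), ← lintegral_const_mul' _ _ (by norm_num)]
    refine lintegral_mono_ae ?_
    filter_upwards [ae_lt_top hu hfin.ne] with x hx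
    by_cases h0 : u x = 0
    · simp [h0]
    have hpos : 0 < (u x).toReal := ENNReal.toReal_pos h0 hx.ne
    set φ := Int.log 2 (u x).toReal with hφ
    have a1 : (2 : ℝ) ^ φ ≤ (u x).toReal := by
      exact_mod_cast Int.zpow_log_le_self (b := 2) (by norm_num) hpos
    have a2 : (u x).toReal < (2 : ℝ) ^ (φ + 1) := by
      exact_mod_cast Int.lt_zpow_succ_log_self (b := 2) (by norm_num) (u x).toReal
    have hmem : x ∈ lev u φ := by
      constructor
      · exact ENNReal.ofReal_le_of_le_toReal a1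
      · rw [← ENNReal.ofReal_toReal hx.ne]
        exact (ENNReal.ofReal_lt_ofReal_iff (by positivity)).2 a2
    have a3 : ENNReal.ofReal ((2 : ℝ) ^ φ) ≤ ⨆ M, appr u M x :=
      le_iSup_of_le φ.natAbs (le_step (c := fun φ => ENNReal.ofReal ((2 : ℝ) ^ φ))
        (Finset.mem_Icc.2 ⟨by omega, by omega⟩) hmem)
    calc u x ≤ ENNReal.ofReal ((2 : ℝ) ^ (φ + 1)) := hmem.2.le
      _ = 2 * ENNReal.ofReal ((2 : ℝ) ^ φ) := by
          rw [zpow_add_one₀ (by norm_num), mul_comm, ENNReal.ofReal_mul (by norm_num)]; simp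
      _ ≤ _ := by gcongr
  by_cases h0 : ∫⁻ x in A, u x = 0
  · exact ⟨0, fun M _ => by simp [h0]⟩
  have h2 : (∫⁻ x in A, u x) / 4 < ⨆ M, ∫⁻ x in A, appr u M x := by
    have a1 : (∫⁻ x in A, u x) / 2 ≤ ⨆ M, ∫⁻ x in A, appr u M x :=
      ENNReal.div_le_of_le_mul' h1
    refine lt_of_lt_of_le ?_ a1
    rw [show (4 : ℝ≥0∞) = 2 * 2 by norm_num, div_eq_mul_inv,
      ENNReal.mul_inv (by norm_num) (by norm_num), ← mul_assoc, ← div_eq_mul_inv, ← div_eq_mul_inv]
    refine ENNReal.half_lt_self ?_ ?_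
    · simpa using h0
    · exact ENNReal.div_ne_top hfin.ne (by norm_num)
  obtain ⟨M0, hM0⟩ := lt_iSup_iff.1 h2
  refine ⟨M0, fun M hM => ?_⟩
  have := (ENNReal.div_lt_iff (Or.inl (by norm_num)) (Or.inl (by norm_num))).1 hM0
  refine this.le.trans ?_
  rw [mul_comm]
  gcongr
  exact appr_mono u hM _

lemma avg_eq_ofReal {h : Euc n → ℝ≥0∞} {a : Euc n} {l : ℝ} (hl : 0 < l)
    (hfin : ∫⁻ x in cube a l, h x < ∞) :
    avg h a l = ENNReal.ofReal ((∫⁻ x in cube a l, h x).toReal / l ^ n) := by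
  unfold avg
  rw [ENNReal.ofReal_div_of_pos (by positivity), ENNReal.ofReal_toReal hfin.ne, volume_cube _ hl.le]

lemma bump_real {f σ : Euc n → ℝ≥0∞} {q : ℝ} (hq : 0 < q) {K : ℝ≥0} {a : Euc n} {l : ℝ}
    (hl : 0 < l) (hfin : ∫⁻ x in cube a l, σ x < ∞)
    (hK : localNorm ρ f a l * avg σ a l ^ (1 / q) ≤ K)
    (hpos : 0 < (∫⁻ x in cube a l, σ x).toReal) :
    localNorm ρ f a l ≠ ∞ ∧
      (localNorm ρ f a l).toReal * ((∫⁻ x in cube a l, σ x).toReal / l ^ n) ^ (1 / q) ≤ K := by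
  rw [avg_eq_ofReal hl hfin, ENNReal.ofReal_rpow_of_nonneg (by positivity) (by positivity)] at hK
  have h1 : localNorm ρ f a l ≠ ∞ := by
    intro h
    rw [h, ENNReal.top_mul (ENNReal.ofReal_pos.2 (by positivity)).ne'] at hK
    exact absurd hK (by simp)
  refine ⟨h1, ?_⟩
  have := ENNReal.toReal_mono ENNReal.coe_ne_top hK
  rwa [ENNReal.toReal_mul, ENNReal.toReal_ofReal (by positivity), ENNReal.coe_toReal] at this

/-- Comparison of value distributions on two cubes. -/
lemma cmp_real (hn : 0 < n) (hρ : IsRINorm ρ) {p q : ℝ} (hpq : p.HolderConjugate q)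
    {u g : Euc n → ℝ≥0∞} (hu : Measurable u) {a b : Euc n} {l m : ℝ} (hl : 0 < l) (hm : 0 < m)
    (G : Finset ℤ) {Λ : ℝ} (hΛ : 1 ≤ Λ)
    (hg : ∀ φ ∈ G, ∀ x ∈ lev u φ ∩ cube a l, ENNReal.ofReal (((2 : ℝ) ^ φ) ^ (1 / q)) ≤ g x)
    (hL : localNorm ρ (fun x => u x ^ (1 / p)) b m ≠ ∞) (hL' : localNorm (assocNorm ρ) g a l ≠ ∞)
    (hv : ∀ φ ∈ G, volume.real (lev u φ ∩ cube b m) / m ^ n ≤
      Λ * (volume.real (lev u φ ∩ cube a l) / l ^ n)) :
    ∑ φ ∈ G, (2 : ℝ) ^ φ * volume.real (lev u φ ∩ cube b m) / m ^ n ≤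
      Λ * ((localNorm ρ (fun x => u x ^ (1 / p)) b m).toReal *
        (localNorm (assocNorm ρ) g a l).toReal) := by
  have hp0 := hpq.pos
  have hq0 := hpq.symm.pos
  have hΛ0 : 0 < Λ := by linarith
  have hex : ∀ φ ∈ G, ∃ A ⊆ lev u φ ∩ cube a l, MeasurableSet A ∧
      volume.real A = volume.real (lev u φ ∩ cube b m) / m ^ n / Λ * l ^ n := by
    intro φ hφ
    refine exists_subset_volume_eq hn ((measurableSet_lev hu φ).inter (measurableSet_cube a l))
      ((isBounded_cube a l).subset inter_subset_right) (by positivity) ?_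
    rw [← le_div_iff₀ (by positivity), div_le_iff₀' hΛ0]; exact hv φ hφ
  choose! A hA1 hA2 hA3 using hex
  have dA : (G : Set ℤ).PairwiseDisjoint A := fun φ hφ ψ hψ hne =>
    (lev_disjoint u hne).mono ((hA1 φ hφ).trans inter_subset_left)
      ((hA1 ψ hψ).trans inter_subset_left)
  have sA : ∀ φ ∈ G, A φ ⊆ cube a l := fun φ hφ => (hA1 φ hφ).trans inter_subset_right
  have htr := hρ.transfer hn G (fun φ => ENNReal.ofReal (((2 : ℝ) ^ φ) ^ (1 / p))) A (lev u)
    (f := fun x => u x ^ (1 / p)) (hu.pow_const _) (a := a) (b := b) hl hm hA2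
    (fun φ _ => measurableSet_lev hu φ) dA (fun φ _ ψ _ hne => lev_disjoint u hne) sA
    (fun φ _ x hx => by
      rw [← ENNReal.ofReal_rpow_of_nonneg (by positivity) (by positivity)]
      exact ENNReal.rpow_le_rpow hx.1 (by positivity))
    (fun φ hφ => by
      rw [hA3 φ hφ, mul_div_cancel_right₀ _ (by positivity)]
      exact div_le_self (by positivity) hΛ)
  have hH := hρ.holder_local (g := g) (measurable_step
    (c := fun φ => ENNReal.ofReal (((2 : ℝ) ^ φ) ^ (1 / p))) hA2) a hl (ne_top_of_le_ne_top hL htr)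
  have hlow : ENNReal.ofReal (∑ φ ∈ G, (2 : ℝ) ^ φ * volume.real (A φ)) ≤
      ∫⁻ x in cube a l, step G (fun φ => ENNReal.ofReal (((2 : ℝ) ^ φ) ^ (1 / p))) A x * g x := by
    rw [ENNReal.ofReal_sum_of_nonneg fun j _ => by positivity,
      ← lintegral_indicator (measurableSet_cube _ _)]
    have e1 : ∀ φ ∈ G, ENNReal.ofReal ((2 : ℝ) ^ φ * volume.real (A φ)) =
        ENNReal.ofReal ((2 : ℝ) ^ φ) * volume (A φ) := by
      intro φ hφ
      rw [ENNReal.ofReal_mul (by positivity), ofReal_measureReal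
        ((measure_mono (sA φ hφ)).trans_lt (volume_cube_lt_top _ _)).ne]
    rw [Finset.sum_congr rfl e1, ← lintegral_step hA2]
    refine lintegral_mono fun y => step_le dA fun φ hφ hy => ?_
    rw [indicator_of_mem (sA φ hφ hy), step_of_mem dA hφ hy]
    refine le_trans (le_of_eq ?_) (mul_le_mul_right (hg φ hφ y (hA1 φ hφ hy)) _)
    rw [← ENNReal.ofReal_mul (by positivity), ← Real.rpow_add (by positivity),
      hpq.one_div_add_one_div]
    simp
  have h1 : (ENNReal.ofReal (l ^ n))⁻¹ * ENNReal.ofReal (∑ φ ∈ G, (2 : ℝ) ^ φ * volume.real (A φ)) ≤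
      localNorm ρ (fun x => u x ^ (1 / p)) b m * localNorm (assocNorm ρ) g a l :=
    le_trans (by gcongr) (hH.trans (by gcongr))
  have h2 := ENNReal.toReal_mono (ENNReal.mul_ne_top hL hL') h1
  rw [← ENNReal.ofReal_inv_of_pos (by positivity), ← ENNReal.ofReal_mul (by positivity),
    ENNReal.toReal_ofReal (mul_nonneg (by positivity) (Finset.sum_nonneg fun _ _ => by positivity)),
    ENNReal.toReal_mul] at h2
  rw [← div_le_iff₀' hΛ0]
  refine le_trans (le_of_eq ?_) h2
  rw [Finset.sum_div, Finset.mul_sum]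
  refine Finset.sum_congr rfl fun φ hφ => ?_
  rw [hA3 φ hφ]; field_simp

theorem test (hn : 0 < n) {p q η : ℝ} (hpq : p.HolderConjugate q) (hη : 0 < η) :
    SpecTest n p q η := by
  classical
  have hp0 := hpq.pos
  have hq0 := hpq.symm.pos
  set η' := min η (1 / 2) with hη'
  have hη'0 : 0 < η' := lt_min hη (by norm_num)
  obtain ⟨C, hC0, hcore⟩ := Setup.core (α := Euc n) (ι := Euc n × ℝ) (κ := ℤ) hpq hη'0
    (min_le_right _ _)
  set CL : ℝ := (1 - ((2 : ℝ) ^ (1 / p))⁻¹)⁻¹ * 2 ^ n * 4 with hCL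
  have hCL0 : 0 ≤ CL := by
    have h1 : 1 < (2 : ℝ) ^ (1 / p) := Real.one_lt_rpow (by norm_num) (by positivity)
    have h2 := inv_lt_one_of_one_lt₀ h1
    have : 0 < 1 - ((2 : ℝ) ^ (1 / p))⁻¹ := by linarith
    positivity
  set C1 : ℝ := CL + η'⁻¹ ^ (1 / q) with hC1
  have hC10 : 0 ≤ C1 := by positivity
  refine ⟨⟨4 * C ^ (1 / q) * C1, by positivity⟩, fun ρ hρ u σ hu hσ hufin hσfin K N hK hN S hS => ?_⟩
  obtain ⟨F, hF, hFd⟩ := hS.major
  have hex : ∀ Q : Euc n × ℝ, ∃ M0 : ℕ, ∀ M ≥ M0,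
      ∫⁻ x in cube Q.1 Q.2, u x ≤ 4 * ∫⁻ x in cube Q.1 Q.2, appr u M x :=
    fun Q => exists_appr hu (hufin Q.1 Q.2)
  choose M0 hM0 using hex
  set M := S.sup M0 with hM
  set I := Finset.Icc (-(M : ℤ)) M with hI
  set Ω := ⋃ Q ∈ S, cube Q.1 Q.2 with hΩ
  have hΩm : MeasurableSet Ω := Finset.measurableSet_biUnion _ fun Q _ => measurableSet_cube _ _
  have hΩs : ∀ Q ∈ S, cube Q.1 Q.2 ⊆ Ω := fun Q hQ => subset_biUnion_of_mem (u := fun Q : Euc n × ℝ =>
    cube Q.1 Q.2) hQ
  have hΩv : volume Ω < ∞ := (measure_biUnion_finset_le _ _).trans_lt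
    (ENNReal.sum_lt_top.2 fun Q _ => volume_cube_lt_top _ _)
  have hΩσ : volume.withDensity σ Ω < ∞ := (measure_biUnion_finset_le _ _).trans_lt
    (ENNReal.sum_lt_top.2 fun Q _ => by
      rw [withDensity_apply _ (measurableSet_cube _ _)]; exact hσfin _ _)
  set μ : Measure (Euc n) := volume.restrict Ω with hμ
  set ν : Measure (Euc n) := (volume.withDensity σ).restrict Ω with hν
  set w : ℤ → Measure (Euc n) := fun φ =>
    ENNReal.ofReal ((2 : ℝ) ^ φ) • volume.restrict (lev u φ ∩ Ω) with hw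
  have fw : ∀ φ, IsFiniteMeasure (w φ) := fun φ => ⟨by
    simp only [hw, Measure.smul_apply, Measure.restrict_apply_univ, smul_eq_mul]
    exact ENNReal.mul_lt_top ENNReal.ofReal_lt_top
      ((measure_mono inter_subset_right).trans_lt hΩv)⟩
  have eμ : ∀ Q ∈ S, μ.real (cube Q.1 Q.2) = Q.2 ^ n := by
    intro Q hQ
    rw [Measure.real, hμ, Measure.restrict_apply (measurableSet_cube _ _),
      inter_eq_left.2 (hΩs Q hQ), volume_cube _ (hS.pos Q hQ).le,
      ENNReal.toReal_ofReal (pow_nonneg (hS.pos Q hQ).le _)]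
  have eν : ∀ Q ∈ S, ν.real (cube Q.1 Q.2) = (∫⁻ x in cube Q.1 Q.2, σ x).toReal := by
    intro Q hQ
    rw [Measure.real, hν, Measure.restrict_apply (measurableSet_cube _ _),
      inter_eq_left.2 (hΩs Q hQ), withDensity_apply _ (measurableSet_cube _ _)]
  have ew : ∀ Q ∈ S, ∀ φ, (w φ).real (cube Q.1 Q.2) =
      2 ^ φ * volume.real (lev u φ ∩ cube Q.1 Q.2) := by
    intro Q hQ φ
    simp only [Measure.real, hw, Measure.smul_apply, smul_eq_mul]
    rw [Measure.restrict_apply (measurableSet_cube _ _), ENNReal.toReal_mul,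
      ENNReal.toReal_ofReal (by positivity), inter_left_comm, inter_eq_left.2 (hΩs Q hQ)]
  have eW : ∀ A, MeasurableSet A → (∑ φ ∈ I, w φ) A = ∫⁻ x in A ∩ Ω, appr u M x := by
    intro A hA
    unfold appr
    rw [lintegral_step fun φ _ => measurableSet_lev hu φ]
    simp only [Measure.coe_finsetSum, Finset.sum_apply, hw, Measure.smul_apply, smul_eq_mul]
    refine Finset.sum_congr rfl fun φ _ => ?_
    rw [Measure.restrict_apply hA, Measure.restrict_apply (measurableSet_lev hu φ),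
      inter_left_comm]
  have happr : ∀ x, appr u M x ≤ u x := fun x =>
    step_le (fun φ _ ψ _ hne => lev_disjoint u hne) fun φ _ hx => hx.1
  set g : Euc n → ℝ≥0∞ := step I (fun φ => ENNReal.ofReal (((2 : ℝ) ^ φ) ^ (1 / q)))
    (fun φ => lev u φ ∩ Ω) with hg
  have hgm : Measurable g := measurable_step fun φ _ => (measurableSet_lev hu φ).inter hΩm
  have hgq : ∫⁻ x, g x ^ q = (∑ φ ∈ I, w φ) univ := by
    have dd : (I : Set ℤ).PairwiseDisjoint fun φ => lev u φ ∩ Ω := fun φ _ ψ _ hne =>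
      (lev_disjoint u hne).mono inter_subset_left inter_subset_left
    simp only [hg]
    simp_rw [step_rpow dd hq0]
    rw [lintegral_step fun φ _ => (measurableSet_lev hu φ).inter hΩm]
    simp only [Measure.coe_finsetSum, Finset.sum_apply, hw, Measure.smul_apply, smul_eq_mul,
      Measure.restrict_apply_univ]
    refine Finset.sum_congr rfl fun φ _ => ?_
    rw [ENNReal.ofReal_rpow_of_nonneg (by positivity) hq0.le, ← Real.rpow_mul (by positivity),
      one_div_mul_cancel hq0.ne', Real.rpow_one]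
  have hWfin : (∑ φ ∈ I, w φ) univ < ∞ := measure_lt_top _ _
  have hemb := MB.emb hq0 hN hgm (hgq ▸ hWfin) S Prod.fst Prod.snd F hS.pos
    (fun Q hQ => (hF Q hQ).1) (fun Q hQ => (hF Q hQ).2.1) hFd
  rw [hgq] at hemb
  have hFv : ∀ Q ∈ S, η' * Q.2 ^ n ≤ volume.real (F Q) := by
    intro Q hQ
    have hl := hS.pos Q hQ
    have h1 := (hF Q hQ).2.2
    rw [volume_cube _ hl.le, ← ENNReal.ofReal_mul hη.le] at h1
    have h2 := ENNReal.toReal_mono
      ((measure_mono (hF Q hQ).2.1).trans_lt (volume_cube_lt_top _ _)).ne h1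
    rw [ENNReal.toReal_ofReal (by positivity)] at h2
    refine le_trans ?_ h2
    gcongr; exact min_le_left _ _
  have hFfin : ∀ Q ∈ S, volume (F Q) ≠ ∞ := fun Q hQ =>
    ((measure_mono (hF Q hQ).2.1).trans_lt (volume_cube_lt_top _ _)).ne
  have hRfin : (N : ℝ≥0∞) ^ q * (∑ φ ∈ I, w φ) univ ≠ ∞ :=
    ENNReal.mul_ne_top (ENNReal.rpow_ne_top_of_nonneg hq0.le ENNReal.coe_ne_top) hWfin.ne
  have hL' : ∀ Q ∈ S, localNorm (assocNorm ρ) g Q.1 Q.2 ≠ ∞ := by
    intro Q hQ htop
    have h1 := (Finset.single_le_sum (f := fun Q : Euc n × ℝ =>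
      localNorm (assocNorm ρ) g Q.1 Q.2 ^ q * volume (F Q)) (fun _ _ => zero_le) hQ).trans hemb
    have h2 : volume (F Q) ≠ 0 := by
      intro h0
      have := hFv Q hQ
      have hl := hS.pos Q hQ
      rw [Measure.real, h0, ENNReal.toReal_zero] at this
      exact absurd this (not_le.2 (by positivity))
    simp only [htop, ENNReal.top_rpow_of_pos hq0, ENNReal.top_mul h2, top_le_iff] at h1
    exact hRfin h1
  set S' := S.filter fun Q => 0 < (∑ φ ∈ I, w φ).real (cube Q.1 Q.2) with hS'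
  have hS'S : ∀ Q ∈ S', Q ∈ S := fun Q hQ => (Finset.mem_filter.1 hQ).1
  have fμ : IsFiniteMeasure μ := ⟨by rw [hμ, Measure.restrict_apply_univ]; exact hΩv⟩
  have fν : IsFiniteMeasure ν := ⟨by rw [hν, Measure.restrict_apply_univ]; exact hΩσ⟩
  let D : Setup (Euc n) (Euc n × ℝ) ℤ p q η' :=
    { μ := μ, ν := ν, w := w, I := I, S := S', Q := fun Q => cube Q.1 Q.2
      b := fun Q => (K : ℝ) ^ q * (localNorm (assocNorm ρ) g Q.1 Q.2).toReal ^ q
      Γ := C1 * K * N
      fμ := fμ, fν := fν, fw := fw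
      meas := fun Q => measurableSet_cube _ _
      mpos := fun Q hQ => by rw [eμ Q (hS'S Q hQ)]; exact pow_pos (hS.pos Q (hS'S Q hQ)) _
      upos := fun Q hQ => (Finset.mem_filter.1 hQ).2
      lam := fun Q hQ R hR => hS.lam Q (hS'S Q hQ) R (hS'S R hR)
      carl := by
        intro R hR
        rw [Finset.mul_sum]
        refine le_trans (Finset.sum_le_sum (g := fun Q => μ.real (F Q)) fun Q hQ => ?_) ?_
        · have hQS := hS'S Q (Finset.mem_filter.1 hQ).1
          rw [eμ Q hQS, Measure.real, hμ, Measure.restrict_apply (hF Q hQS).1,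
            inter_eq_left.2 ((hF Q hQS).2.1.trans (hΩs Q hQS))]
          exact hFv Q hQS
        · rw [← measureReal_biUnion_finset (hFd.subset fun Q hQ =>
            hS'S Q (Finset.mem_filter.1 hQ).1) fun Q hQ => (hF Q (hS'S Q (Finset.mem_filter.1 hQ).1)).1]
          exact measureReal_mono (iUnion₂_subset fun Q hQ =>
            (hF Q (hS'S Q (Finset.mem_filter.1 hQ).1)).2.1.trans (Finset.mem_filter.1 hQ).2)
      b_nonneg := fun Q => by positivity
      Γ_nonneg := by positivity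
      emb := by
        have h1 := ENNReal.toReal_mono hRfin hemb
        rw [ENNReal.toReal_sum (fun Q hQ => ENNReal.mul_ne_top
          (ENNReal.rpow_ne_top_of_nonneg hq0.le (hL' Q hQ)) (hFfin Q hQ)), ENNReal.toReal_mul,
          ← ENNReal.toReal_rpow, ENNReal.coe_toReal] at h1
        have h2 : ∑ Q ∈ S', (K : ℝ) ^ q * (localNorm (assocNorm ρ) g Q.1 Q.2).toReal ^ q *
            μ.real (cube Q.1 Q.2) ≤ (K : ℝ) ^ q * η'⁻¹ * ∑ Q ∈ S,
              (localNorm (assocNorm ρ) g Q.1 Q.2 ^ q * volume (F Q)).toReal := by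
          rw [Finset.mul_sum]
          refine le_trans (Finset.sum_le_sum fun Q hQ => ?_)
            (Finset.sum_le_sum_of_subset_of_nonneg (Finset.filter_subset _ _)
              fun _ _ _ => by positivity)
          have hQS := hS'S Q hQ
          rw [eμ Q hQS, ENNReal.toReal_mul, ← ENNReal.toReal_rpow]
          have h3 : Q.2 ^ n ≤ η'⁻¹ * (volume (F Q)).toReal := by
            rw [le_inv_mul_iff₀ hη'0]; exact hFv Q hQS
          calc _ ≤ (K : ℝ) ^ q * (localNorm (assocNorm ρ) g Q.1 Q.2).toReal ^ q *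
                (η'⁻¹ * (volume (F Q)).toReal) := by gcongr
            _ = _ := by ring
        refine h2.trans ?_
        have h4 : η'⁻¹ ≤ C1 ^ q := by
          calc η'⁻¹ = (η'⁻¹ ^ (1 / q)) ^ q := by
                rw [← Real.rpow_mul (by positivity), one_div_mul_cancel hq0.ne', Real.rpow_one]
            _ ≤ C1 ^ q := by gcongr; linarith
        rw [Real.mul_rpow (by positivity) (by positivity),
          Real.mul_rpow (by positivity) (by positivity)]
        calc _ ≤ (K : ℝ) ^ q * C1 ^ q * ((N : ℝ) ^ q * ((∑ φ ∈ I, w φ) univ).toReal) := by gcongr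
          _ = _ := by rw [Measure.real]; ring
      cmp := by
        intro Y hY V hV G hG Λ hΛ hv
        have hYS := hS'S Y hY
        have hVS := hS'S V hV
        have hlY := hS.pos Y hYS
        have hlV := hS.pos V hVS
        simp only [ew Y hYS, ew V hVS, eμ Y hYS, eμ V hVS, eν Y hYS] at hv ⊢
        rcases (ENNReal.toReal_nonneg (a := ∫⁻ x in cube Y.1 Y.2, σ x)).eq_or_lt with h0 | h0
        · rw [← h0, zero_div, mul_zero]; positivity
        obtain ⟨hL, hLK⟩ := bump_real hq0 hlY (hσfin _ _) (hK _ _ hlY) h0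
        have h1 := cmp_real hn hρ hpq (g := g) hu (a := V.1) (b := Y.1) hlV hlY G hΛ
          (fun φ hφ x hx => le_step (c := fun φ => ENNReal.ofReal (((2 : ℝ) ^ φ) ^ (1 / q)))
            (A := fun φ => lev u φ ∩ Ω) (hG hφ) ⟨hx.1, hΩs V hVS hx.2⟩) hL (hL' V hVS)
          (fun φ hφ => by
            have h2 := hv φ hφ
            have h3 : (0 : ℝ) < 2 ^ φ := by positivity
            rw [mul_div_assoc, mul_div_assoc, mul_left_comm] at h2
            exact le_of_mul_le_mul_left h2 h3)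
        set t := (∫⁻ x in cube Y.1 Y.2, σ x).toReal / Y.2 ^ n with ht
        have ht0 : 0 ≤ t := by positivity
        have h4 : t = (t ^ (1 / q)) ^ q := by
          rw [← Real.rpow_mul ht0, one_div_mul_cancel hq0.ne', Real.rpow_one]
        have h5 : 0 ≤ ∑ φ ∈ G, (2 : ℝ) ^ φ * volume.real (lev u φ ∩ cube Y.1 Y.2) / Y.2 ^ n :=
          Finset.sum_nonneg fun _ _ => by positivity
        have hΛ0 : 0 ≤ Λ := by linarith
        rw [h4, ← Real.mul_rpow h5 (by positivity), ← Real.mul_rpow (by positivity) (by positivity),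
          ← Real.mul_rpow hΛ0 (by positivity)]
        refine Real.rpow_le_rpow (by positivity) ?_ hq0.le
        calc _ ≤ Λ * ((localNorm ρ (fun x => u x ^ (1 / p)) Y.1 Y.2).toReal *
              (localNorm (assocNorm ρ) g V.1 V.2).toReal) * t ^ (1 / q) := by gcongr
          _ = Λ * (((localNorm ρ (fun x => u x ^ (1 / p)) Y.1 Y.2).toReal * t ^ (1 / q)) *
              (localNorm (assocNorm ρ) g V.1 V.2).toReal) := by ring
          _ ≤ _ := by gcongr
      lor := by
        intro Y hY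
        have hYS := hS'S Y hY
        have hlY := hS.pos Y hYS
        simp only [ew Y hYS, eμ Y hYS, eν Y hYS]
        rcases (ENNReal.toReal_nonneg (a := ∫⁻ x in cube Y.1 Y.2, σ x)).eq_or_lt with h0 | h0
        · rw [← h0, zero_div, Real.zero_rpow (by positivity), mul_zero]; positivity
        obtain ⟨hL, hLK⟩ := bump_real hq0 hlY (hσfin _ _) (hK _ _ hlY) h0
        have h1 := MB.lorentz hn hρ hpq hN (f := fun x => u x ^ (1 / p)) (hu.pow_const _) hlY hL I
          (lev u) (measurableSet_lev hu) (lev_disjoint u) (fun φ x hx => by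
            rw [← ENNReal.ofReal_rpow_of_nonneg (by positivity) (by positivity)]
            exact ENNReal.rpow_le_rpow hx.1 (by positivity))
        rw [← hCL] at h1
        have h2 : CL ≤ C1 := by
          have : 0 ≤ η'⁻¹ ^ (1 / q) := by positivity
          linarith
        calc _ ≤ CL * N * (localNorm ρ (fun x => u x ^ (1 / p)) Y.1 Y.2).toReal *
              ((∫⁻ x in cube Y.1 Y.2, σ x).toReal / Y.2 ^ n) ^ (1 / q) := by gcongr
          _ = CL * N * ((localNorm ρ (fun x => u x ^ (1 / p)) Y.1 Y.2).toReal *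
              ((∫⁻ x in cube Y.1 Y.2, σ x).toReal / Y.2 ^ n) ^ (1 / q)) := by ring
          _ ≤ C1 * N * K := by gcongr
          _ = _ := by ring }
  have hmain := hcore D
  set A : Euc n → ℝ≥0∞ := fun x =>
    ∑ i ∈ D.S, (D.Q i).indicator (fun _ => ENNReal.ofReal (D.av i)) x with hA
  have hAm : Measurable A :=
    Finset.measurable_sum _ fun i _ => measurable_const.indicator (D.meas i)
  have hpt : ∀ x, sparseOp S u x ≤ 4 * A x := by
    intro x
    have hav : ∀ Q ∈ S, avg u Q.1 Q.2 ≤ 4 * ENNReal.ofReal (D.av Q) := by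
      intro Q hQ
      have hl := hS.pos Q hQ
      have h1 := hM0 Q M (Finset.le_sup (f := M0) hQ)
      have h2 : ENNReal.ofReal (D.av Q) =
          (∫⁻ x in cube Q.1 Q.2, appr u M x) / volume (cube Q.1 Q.2) := by
        change ENNReal.ofReal ((∑ φ ∈ I, w φ).real (cube Q.1 Q.2) / μ.real (cube Q.1 Q.2)) = _
        rw [eμ Q hQ, ENNReal.ofReal_div_of_pos (by positivity), ofReal_measureReal,
          eW _ (measurableSet_cube _ _), inter_eq_left.2 (hΩs Q hQ), volume_cube _ hl.le]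
      rw [h2, ← mul_div_assoc]
      unfold avg
      gcongr
    have h3 : A x = ∑ Q ∈ S, (cube Q.1 Q.2).indicator (fun _ => ENNReal.ofReal (D.av Q)) x := by
      refine Finset.sum_subset (Finset.filter_subset _ _) fun Q hQ hQ' => ?_
      have h4 : (∑ φ ∈ I, w φ).real (cube Q.1 Q.2) = 0 :=
        le_antisymm (not_lt.1 fun h => hQ' (Finset.mem_filter.2 ⟨hQ, h⟩)) measureReal_nonneg
      have h5 : D.av Q = 0 := by
        change (∑ φ ∈ I, w φ).real (cube Q.1 Q.2) / μ.real (cube Q.1 Q.2) = 0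
        rw [h4, zero_div]
      rw [h5]; simp
    rw [h3, Finset.mul_sum]
    refine Finset.sum_le_sum fun Q hQ => ?_
    by_cases hx : x ∈ cube Q.1 Q.2
    · simp only [indicator_of_mem hx]; exact hav Q hQ
    · simp [hx]
  have hint : ∫⁻ x, A x ^ q * σ x = ∫⁻ x, A x ^ q ∂ν := by
    rw [hν, ← lintegral_indicator hΩm, lintegral_withDensity_eq_lintegral_mul _ hσ
      ((hAm.pow_const q).indicator hΩm)]
    refine lintegral_congr fun x => ?_
    by_cases hx : x ∈ Ω
    · simp [hx, mul_comm]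
    · have : A x = 0 := Finset.sum_eq_zero fun Q hQ =>
        indicator_of_notMem (fun h => hx (hΩs Q (hS'S Q hQ) h)) _
      simp [hx, this, ENNReal.zero_rpow_of_pos hq0]
  have hWu : ENNReal.ofReal (D.W.real univ) ≤ ∫⁻ x, u x := by
    rw [ofReal_measureReal]
    change (∑ φ ∈ I, w φ) univ ≤ _
    rw [eW _ MeasurableSet.univ]
    exact (lintegral_mono happr).trans (setLIntegral_le_lintegral _ _)
  have h1 : ∫⁻ x, sparseOp S u x ^ q * σ x ≤
      ENNReal.ofReal (4 * C ^ (1 / q) * C1 * K * N) ^ q * ∫⁻ x, u x := by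
    calc ∫⁻ x, sparseOp S u x ^ q * σ x ≤ ∫⁻ x, 4 ^ q * (A x ^ q * σ x) := by
          refine lintegral_mono fun x => ?_
          rw [← mul_assoc, ← ENNReal.mul_rpow_of_nonneg _ _ hq0.le]
          gcongr; exact hpt x
      _ = 4 ^ q * ∫⁻ x, A x ^ q ∂ν := by
          rw [lintegral_const_mul' _ _ (ENNReal.rpow_ne_top_of_nonneg hq0.le (by norm_num)), hint]
      _ ≤ 4 ^ q * ENNReal.ofReal (C * ((C1 * K * N) ^ q * D.W.real univ)) := by gcongr
      _ = ENNReal.ofReal (4 * C ^ (1 / q) * C1 * K * N) ^ q * ENNReal.ofReal (D.W.real univ) := by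
          rw [ENNReal.ofReal_rpow_of_nonneg (by positivity) hq0.le,
            ← ENNReal.ofReal_mul (by positivity),
            show (4 : ℝ≥0∞) = ENNReal.ofReal 4 by simp,
            ENNReal.ofReal_rpow_of_nonneg (by positivity) hq0.le,
            ← ENNReal.ofReal_mul (by positivity)]
          congr 1
          rw [show 4 * C ^ (1 / q) * C1 * K * N = 4 * (C ^ (1 / q) * (C1 * K * N)) by ring,
            Real.mul_rpow (x := 4) (by positivity) (by positivity),
            Real.mul_rpow (x := C ^ (1 / q)) (by positivity) (by positivity),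
            ← Real.rpow_mul hC0, one_div_mul_cancel hq0.ne', Real.rpow_one]
          ring
      _ ≤ _ := by gcongr
  have h2 := ENNReal.rpow_le_rpow h1 (show 0 ≤ 1 / q by positivity)
  refine h2.trans (le_of_eq ?_)
  rw [ENNReal.mul_rpow_of_nonneg _ _ (by positivity), ← ENNReal.rpow_mul,
    mul_one_div_cancel hq0.ne', ENNReal.rpow_one]
  congr 1
  rw [ENNReal.ofReal_mul (by positivity), ENNReal.ofReal_mul (by positivity),
    ENNReal.ofReal_coe_nnreal, ENNReal.ofReal_coe_nnreal,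
    ENNReal.ofReal_eq_coe_nnreal (by positivity)]
  rfl

end Pool.Agent.MP_6bb8b9_an.H2
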